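import Mathlib

/-! Mixed radix indexing of a box. -/

set_option autoImplicit false

namespace Pool.Agent.H960Z.TM

def side (s D t : ℕ) : ℕ := if t = 0 then s else D

def len (s D : ℕ) : ℕ → ℕ
  | 0 => 1
  | t + 1 => len s D t * side s D t

def idx (s D : ℕ) {n : ℕ} (u : Fin n → ℕ) : ℕ := ∑ t, u t * len s D t

def dig (s D : ℕ) (n : ℕ) (k : ℕ) : Fin n → ℕ := fun t => k / len s D t % side s D t

def Box (s D : ℕ) {n : ℕ} (u : Fin n → ℕ) : Prop := ∀ t, u t < side s D t

variable {s D : ℕ}

theorem side_pos (hs : 0 < s) (hD : 0 < D) (t : ℕ) : 0 < side s D t := by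
  unfold side; split_ifs <;> assumption

theorem len_pos (hs : 0 < s) (hD : 0 < D) (t : ℕ) : 0 < len s D t := by
  induction t with
  | zero => simp [len]
  | succ t ih => exact Nat.mul_pos ih (side_pos hs hD t)

theorem len_dvd {t t' : ℕ} (h : t ≤ t') : len s D t ∣ len s D t' := by
  induction h with
  | refl => exact dvd_rfl
  | step _ ih => exact Dvd.dvd.mul_right ih _

theorem len_succ_eq (t : ℕ) : len s D (t + 1) = s * D ^ t := by
  induction t with
  | zero => simp [len, side]
  | succ t ih => rw [len, ih]; simp [side, pow_succ, mul_assoc]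

theorem idx_add {n : ℕ} (u v : Fin n → ℕ) : idx s D (u + v) = idx s D u + idx s D v := by
  simp [idx, add_mul, Finset.sum_add_distrib]

theorem idx_smul {n : ℕ} (c : ℕ) (u : Fin n → ℕ) : idx s D (c • u) = c * idx s D u := by
  simp [idx, Finset.mul_sum, mul_assoc]

theorem idx_mono {n : ℕ} {u v : Fin n → ℕ} (h : u ≤ v) : idx s D u ≤ idx s D v :=
  Finset.sum_le_sum fun t _ => Nat.mul_le_mul_right _ (h t)

theorem le_idx (hs : 0 < s) (hD : 0 < D) {n : ℕ} (u : Fin n → ℕ) (t : Fin n) :
    u t ≤ idx s D u := by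
  refine le_trans ?_ (Finset.single_le_sum (f := fun t => u t * len s D t)
    (fun _ _ => Nat.zero_le _) (Finset.mem_univ t))
  exact Nat.le_mul_of_pos_right _ (len_pos hs hD t)

theorem idx_succ {n : ℕ} (u : Fin (n + 1) → ℕ) :
    idx s D u = idx s D (fun t : Fin n => u t.castSucc) + u (Fin.last n) * len s D n := by
  simp [idx, Fin.sum_univ_castSucc]

theorem idx_lt {n : ℕ} (u : Fin n → ℕ) (h : Box s D u) : idx s D u < len s D n := by
  induction n with
  | zero => simp [idx, len]
  | succ n ih =>
    have h1 := ih (fun t => u t.castSucc) (fun t => h t.castSucc)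
    have h2 : u (Fin.last n) + 1 ≤ side s D n := h (Fin.last n)
    rw [idx_succ, len]
    nlinarith

theorem div_mod_add {t n : ℕ} (hl : 0 < len s D t) (h : t < n) (A q : ℕ) :
    (A + q * len s D n) / len s D t % side s D t = A / len s D t % side s D t := by
  obtain ⟨c, hc⟩ := len_dvd (s := s) (D := D) (show t + 1 ≤ n from h)
  rw [hc, len, show q * (len s D t * side s D t * c) = len s D t * (side s D t * (c * q)) by ring,
    Nat.add_mul_div_left _ _ hl, Nat.add_mul_mod_self_left]

theorem dig_idx (hs : 0 < s) (hD : 0 < D) {n : ℕ} (u : Fin n → ℕ) (h : Box s D u) :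
    dig s D n (idx s D u) = u := by
  induction n with
  | zero => funext t; exact t.elim0
  | succ n ih =>
    have h1 := idx_lt (fun t => u t.castSucc) (fun t => h t.castSucc)
    have h2 := ih (fun t => u t.castSucc) (fun t => h t.castSucc)
    funext t
    rw [idx_succ]
    refine Fin.lastCases ?_ (fun t => ?_) t
    · simp only [dig, Fin.val_last]
      rw [Nat.add_mul_div_right _ _ (len_pos hs hD n), Nat.div_eq_of_lt h1, zero_add]
      exact Nat.mod_eq_of_lt (h (Fin.last n))
    · simp only [dig, Fin.val_castSucc]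
      rw [div_mod_add (len_pos hs hD _) t.2]
      exact congrFun h2 t

theorem box_dig (hs : 0 < s) (hD : 0 < D) (n k : ℕ) : Box s D (dig s D n k) :=
  fun t => Nat.mod_lt _ (side_pos hs hD t)

theorem idx_dig_mod (n k : ℕ) : idx s D (dig s D n k) = k % len s D n := by
  induction n with
  | zero => simp [idx, len, Nat.mod_one]
  | succ n ih =>
    rw [idx_succ, len, Nat.mod_mul]
    have : (fun t : Fin n => dig s D (n + 1) k t.castSucc) = dig s D n k := rfl
    rw [this, ih]
    simp [dig, mul_comm]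

theorem idx_dig {n k : ℕ} (h : k < len s D n) : idx s D (dig s D n k) = k := by
  rw [idx_dig_mod, Nat.mod_eq_of_lt h]

theorem idx_inj (hs : 0 < s) (hD : 0 < D) {n : ℕ} {u v : Fin n → ℕ} (hu : Box s D u)
    (hv : Box s D v) (h : idx s D u = idx s D v) : u = v := by
  rw [← dig_idx hs hD u hu, h, dig_idx hs hD v hv]

theorem idx_le {n : ℕ} (hs : 0 < s) (hD : 0 < D) (u : Fin n → ℕ) {m : ℕ} (hm : n ≤ m + 1) :
    idx s D u ≤ (∑ t, u t) * len s D m := by
  rw [idx, Finset.sum_mul]
  refine Finset.sum_le_sum fun t _ => Nat.mul_le_mul_left _ ?_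
  exact Nat.le_of_dvd (len_pos hs hD _) (len_dvd (by have := t.2; omega))

end Pool.Agent.H960Z.TM
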