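import Pool.Agent.H960Z.TM.Rho
import Pool.Agent.H960Z.TM.Radix

/-! Rulers, arrays and head movements. -/

set_option autoImplicit false

namespace Pool.Agent.H960Z.TM

open Function

variable {X S : Type} [Inhabited S] {r E : ℕ}

def rl (i : ℕ) : Reg r := .rul (Fin.ofNat (r + 2) i)

theorem rl_ne {i j : ℕ} (hi : i < r + 2) (hj : j < r + 2) (h : i ≠ j) : (rl i : Reg r) ≠ rl j := by
  simp only [rl, ne_eq, Reg.rul.injEq, Fin.ext_iff, Fin.val_ofNat]
  rwa [Nat.mod_eq_of_lt hi, Nat.mod_eq_of_lt hj]

omit [Inhabited S] in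
@[simp] theorem upd_rl (st : Stt X S r E) (k : Reg r) (v : List (Sym X S r E)) (i : ℕ)
    (h : ∀ j, k ≠ .rul j) : update st k v (rl i) = st (rl i) := update_of_ne (h _).symm _ _

omit [Inhabited S] in
@[simp] theorem upd_rl' (st : Stt X S r E) (k : Reg r) (v : List (Sym X S r E)) (i : ℕ)
    (h : ∀ j, k ≠ .rul j) : update st (rl i) v k = st k := update_of_ne (h _) _ _

/-- the transducer macro on the concrete registers -/
def trr (src aux dst : Reg r) (δ : Sym X S r E → Option (Sym X S r E) → ℕ → Sym X S r E × ℕ)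
    (c0 : ℕ) : P X S r E := tr .sv0 .car mk rd src aux dst δ c0

theorem trr_ok {src aux dst : Reg r} {δ : Sym X S r E → Option (Sym X S r E) → ℕ → Sym X S r E × ℕ}
    {c0 : ℕ} {s : Stt X S r E} (c : ℕ → ℕ) (o : ℕ → Sym X S r E) (hc : c 0 = c0)
    (hd : [.sv0, .car, src, aux, dst].Nodup) (hsv : s .sv0 = [])
    (hδ : ∀ (i : ℕ) (hi : i < (s src).length),
      δ (s src)[i] (s aux)[i]? (min (c i) E) = (o i, c (i + 1))) :
    Ok (trr src aux dst δ c0) s
      (update (update s aux ((s aux).drop (s src).length)) dst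
        (((List.range (s src).length).map o).reverse ++ s dst)) (8 * (s src).length + 5) := by
  subst hc
  exact tr_ok .sv0 .car mk rd hd δ s hsv c o hδ

def cap (E n : ℕ) : Fin (E + 1) := ⟨min n E, by omega⟩

/-- type of the cell number `k`, truncated to the coordinates `< i` -/
def tyP (s D : ℕ) (r E i k : ℕ) : Fin (r + 1) → Fin (E + 1) :=
  fun t => if t.val < i then cap E (dig s D (r + 1) k t) else 0

def cty (E : ℕ) {r : ℕ} (u : Fin (r + 1) → ℕ) : Fin (r + 1) → Fin (E + 1) := fun t => cap E (u t)

theorem tyP_top (s D k : ℕ) : tyP s D r E (r + 1) k = cty E (dig s D (r + 1) k) := by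
  funext t; simp [tyP, cty, t.2]

def asym (s D B i : ℕ) (val : ℕ → ℕ) (p : ℕ) : Sym X S r E :=
  { (z0 : Sym X S r E) with
    bit := (val (p / B)).testBit (p % B), lsb := decide (p % B = 0), ty := tyP s D r E i (p / B) }

/-- array of level `i` -/
def arr (s D B i : ℕ) (val : ℕ → ℕ) : List (Sym X S r E) :=
  (List.range (B * len s D i)).map (asym s D B i val)

@[simp] theorem arr_length (s D B i : ℕ) (val : ℕ → ℕ) :
    (arr s D B i val : List (Sym X S r E)).length = B * len s D i := by simp [arr]

def setTy (i c : ℕ) (x : Sym X S r E) : Sym X S r E :=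
  { x with ty := fun t => if t.val = i then cap E c else x.ty t }

theorem asym_step {s D B i : ℕ} (hs : 0 < s) (hD : 0 < D) (hB : 0 < B) {q p : ℕ}
    (hq : q < side s D i) (hp : p < B * len s D i) :
    (asym s D B (i + 1) (fun _ => 0) (q * (B * len s D i) + p) : Sym X S r E) =
      setTy i (min q E) (asym s D B i (fun _ => 0) p) := by
  have e1 : (q * (B * len s D i) + p) % B = p % B := by
    rw [show q * (B * len s D i) + p = p + B * (q * len s D i) by ring, Nat.add_mul_mod_self_left]
  have e2 : (q * (B * len s D i) + p) / B = p / B + q * len s D i := by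
    rw [show q * (B * len s D i) + p = p + B * (q * len s D i) by ring, Nat.add_mul_div_left _ _ hB]
  have e3 : p / B < len s D i := by rwa [Nat.div_lt_iff_lt_mul hB, mul_comm]
  refine Sym.ext rfl rfl (by simp [asym, setTy]) (by simp [asym, setTy, e1]) ?_ rfl
  funext t
  simp only [asym, setTy, e2, tyP]
  by_cases h1 : t.val = i
  · rw [if_pos (by omega), if_pos h1]
    simp only [dig, h1]
    rw [Nat.add_mul_div_right _ _ (len_pos hs hD i), Nat.div_eq_of_lt e3, zero_add,
      Nat.mod_eq_of_lt hq]
    simp [cap]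
  · rw [if_neg h1]
    by_cases h2 : t.val < i
    · rw [if_pos (by omega), if_pos h2]
      simp only [dig]
      rw [div_mod_add (len_pos hs hD _) h2]
    · rw [if_neg (by omega), if_neg h2]

/-- build the ruler `i+1` from the ruler `i` -/
def rulStep (i : ℕ) : P X S r E :=
  .seq (.push .cnt (mk 0)) (.seq
    (each (if i = 0 then .sr else .dr) .sv1 fun _ => .pop .cnt fun c =>
      .seq (.push .cnt (mk (rd c + 1)))
        (trr (rl i) .nul .tmp (fun x _ _ => (setTy i (rd c) x, 0)) 0))
    (.seq (.pop .cnt fun _ => .skip) (move .tmp (rl (i + 1)))))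

theorem mk_cap (q : ℕ) : (mk (min q E + 1) : Sym X S r E) = mk (q + 1) := by
  refine Sym.ext rfl rfl rfl rfl rfl ?_
  simp only [mk, Fin.ext_iff]; omega

theorem rulStep_ok {s D B i : ℕ} (hs : 0 < s) (hD : 0 < D) (hB : 0 < B) (hi : i < r + 1)
    (st : Stt X S r E) (h0 : st .sv0 = []) (h1 : st .sv1 = []) (ht : st .tmp = [])
    (hn : st .nul = []) (hsr : (st .sr).length = s) (hdr : (st .dr).length = D)
    (hr : st (rl i) = arr s D B i (fun _ => 0)) (hr' : st (rl (i + 1)) = []) :
    Ok (rulStep i) st (update st (rl (i + 1)) (arr s D B (i + 1) (fun _ => 0)))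
      (30 * (B * len s D (i + 1))) := by
  set M := B * len s D i with hM
  have hM0 : 0 < M := Nat.mul_pos hB (len_pos hs hD i)
  set drv : Reg r := if i = 0 then .sr else .dr with hdrv
  have hdl : (st drv).length = side s D i := by
    simp only [hdrv, side]; split_ifs <;> assumption
  have d1 : drv ≠ .sv1 := by simp only [hdrv]; split_ifs <;> simp
  have d2 : drv ≠ .cnt := by simp only [hdrv]; split_ifs <;> simp
  have d3 : drv ≠ .tmp := by simp only [hdrv]; split_ifs <;> simp
  have d4 : drv ≠ .sv0 := by simp only [hdrv]; split_ifs <;> simp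
  have d5 : drv ≠ .car := by simp only [hdrv]; split_ifs <;> simp
  have d6 : drv ≠ rl i := by simp only [hdrv, rl]; split_ifs <;> simp
  have d7 : drv ≠ .nul := by simp only [hdrv]; split_ifs <;> simp
  let R : ℕ → Stt X S r E := fun q => update (update st .cnt (mk q :: st .cnt)) .tmp
    ((List.range (q * M)).map (asym s D B (i + 1) (fun _ => 0))).reverse
  have hE := Ok.each (k := drv) (sv := .sv1) (f := fun _ : Sym X S r E => .pop .cnt fun c =>
      .seq (.push .cnt (mk (rd c + 1)))
        (trr (rl i) .nul .tmp (fun x _ _ => (setTy i (rd c) x, 0)) 0)) d1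
    (fun _ => ⟨d2.symm, fun _ => ⟨d2.symm, av_tr _ _ _ _ _ _ d4.symm d5.symm d6.symm d7.symm d3.symm⟩⟩)
    (fun _ => ⟨by simp, fun _ => ⟨by simp, av_tr _ _ _ _ _ _ (by simp) (by simp) (by simp [rl])
      (by simp) (by simp)⟩⟩) (st drv) R (8 * M + 7) ?_
      (by simp only [R]; rw [update_of_ne d3, update_of_ne d2]) (by simp [R, h1])
  · have e0 : update st .cnt (mk 0 :: st .cnt) = R 0 := by
      funext k; cases k <;> simp [R, ht]
    have hl : len s D (i + 1) = len s D i * side s D i := rfl
    refine (Ok.seq (Ok.push _ _ _) (e0 ▸ Ok.seq hE (Ok.seq (Ok.pop (Ok.skip _))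
      (move_ok (by simp [rl]) _)))).eq ?_ ?_
    · have : (st drv).length * M = B * len s D (i + 1) := by rw [hdl, hl, hM]; ring
      funext k
      by_cases hk : k = rl (i + 1)
      · subst hk
        simp [R, rl, arr, this]
        exact hr'
      · rw [update_of_ne hk, update_of_ne hk]
        cases k <;> simp [R, ht]
    · have := side_pos hs hD i
      simp [R, hdl]
      rw [hl, ← mul_assoc B, ← hM]
      nlinarith
  · intro q hq
    rw [hdl] at hq
    have e : rd (R q .cnt).head? = min q E := by simp [R]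
    refine (Ok.pop (by
      rw [e]
      exact Ok.seq (Ok.push _ _ _) (trr_ok
        (fun _ => 0) (fun p => asym s D B (i + 1) (fun _ => 0) (q * M + p)) rfl (by simp [rl])
        (by simp [R, h0]) (by
          intro p hp
          have hp' : p < M := by simpa [R, hr] using hp
          simp only [Prod.mk.injEq, and_true]
          rw [asym_step hs hD hB hq hp']
          congr 1
          simp [R, hr, arr])))).eq ?_ ?_
    · funext k
      cases k <;> simp [R, hr, hn, mk_cap, add_mul, List.range_add,
        ← hM, Function.comp_def]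
    · simp [R, hr, ← hM]; omega

/-- the static part of the state after the set-up -/
structure Setup (s D B : ℕ) (st : Stt X S r E) : Prop where
  sv0 : st .sv0 = []
  nul : st .nul = []
  tmp : st .tmp = []
  rul : ∀ i, i < r + 2 → st (rl i) = arr s D B i (fun _ => 0)

def Data (k : Reg r) : Prop := k ≠ .sv0 ∧ k ≠ .car ∧ ∀ i, k ≠ .rul i

def takeZ (M : ℕ) (l : List (Sym X S r E)) : List (Sym X S r E) :=
  (List.range M).map fun p => l[p]?.getD z0

theorem takeZ_add (M N : ℕ) (l : List (Sym X S r E)) :
    takeZ (M + N) l = takeZ M l ++ takeZ N (l.drop M) := by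
  simp [takeZ, List.range_add, Function.comp_def]

theorem takeZ_of_le (M : ℕ) (l : List (Sym X S r E)) (h : M ≤ l.length) : takeZ M l = l.take M := by
  apply List.ext_getElem
  · simp [takeZ, h]
  · intro i h1 h2
    have : i < l.length := by simp at h2; omega
    simp [takeZ, List.getElem?_eq_getElem this]

theorem takeZ_nil (M : ℕ) : takeZ M ([] : List (Sym X S r E)) = List.replicate M z0 := by
  simp [takeZ]

def MV (src dst : Reg r) (M : ℕ) (st : Stt X S r E) : Stt X S r E :=
  update (update st src ((st src).drop M)) dst ((takeZ M (st src)).reverse ++ st dst)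

theorem MV_add {src dst : Reg r} (h : src ≠ dst) (M N : ℕ) (st : Stt X S r E) :
    MV src dst N (MV src dst M st) = MV src dst (M + N) st := by
  funext k
  by_cases k1 : k = dst
  · subst k1; simp [MV, update_of_ne h, takeZ_add]
  · by_cases k2 : k = src
    · subst k2; simp [MV, update_of_ne h]
    · simp [MV, update_of_ne k1, update_of_ne k2]

theorem MV_zero (src dst : Reg r) (st : Stt X S r E) : MV src dst 0 st = st := by
  simp [MV, takeZ]

def mv (i : ℕ) (src dst : Reg r) : P X S r E := trr (rl i) src dst (fun _ y _ => (y.getD z0, 0)) 0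

theorem mv_ok {src dst : Reg r} (h : src ≠ dst) (h1 : Data src) (h2 : Data dst) (i : ℕ)
    (st : Stt X S r E) (h0 : st .sv0 = []) :
    Ok (mv i src dst) st (MV src dst (st (rl i)).length st) (8 * (st (rl i)).length + 5) := by
  obtain ⟨a1, a2, a3⟩ := h1
  obtain ⟨b1, b2, b3⟩ := h2
  unfold mv MV takeZ
  refine trr_ok (fun _ => 0) (fun p => (st src)[p]?.getD z0) rfl ?_ h0 (fun _ _ => rfl)
  simp [rl, a1.symm, a2.symm, (a3 _).symm, b1.symm, b2.symm, (b3 _).symm, h]

def mvs (u : Fin (r + 1) → ℕ) (src dst : Reg r) : P X S r E :=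
  seqL ((List.finRange (r + 1)).map fun t => rep (u t) (mv t src dst))

theorem av_mvs (u : Fin (r + 1) → ℕ) {src dst k : Reg r} (h1 : src ≠ k) (h2 : dst ≠ k)
    (hk : Data k) : Av (mvs u src dst : P X S r E) k := by
  simp only [mvs, av_seqL, List.mem_map]
  rintro _ ⟨t, _, rfl⟩
  exact av_rep _ _ _ (av_tr _ _ _ _ _ _ hk.1.symm hk.2.1.symm (hk.2.2 _).symm h1 h2)

theorem mvs_ok {s D B : ℕ} (hs : 0 < s) (hD : 0 < D) (hB : 0 < B) (u : Fin (r + 1) → ℕ)
    {src dst : Reg r} (h : src ≠ dst) (h1 : Data src) (h2 : Data dst)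
    (st : Stt X S r E) (h0 : st .sv0 = [])
    (hr : ∀ i, i < r + 2 → st (rl i) = arr s D B i (fun _ => 0)) :
    Ok (mvs u src dst) st (MV src dst (B * idx s D u) st)
      ((r + 2) * (13 * (B * idx s D u) + 1)) := by
  have hMV : ∀ M k, k ≠ src → k ≠ dst → MV src dst M st k = st k := by
    intro M k k1 k2
    simp [MV, update_of_ne k1, update_of_ne k2]
  have := Tri.seqL (List.finRange (r + 1)) (fun t => rep (u t) (mv t src dst))
    (fun i s' => s' = MV src dst (B * (((List.finRange (r + 1)).take i).map
      fun t => u t * len s D t).sum) st) (13 * (B * idx s D u) + 1) ?_ st (by simp [MV_zero])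
  · rw [List.take_length, ← Fin.sum_univ_def] at this
    refine this.cost ?_
    simp only [List.length_finRange]
    nlinarith
  · rintro i hi _ rfl
    set t := (List.finRange (r + 1))[i] with ht
    set A := B * (((List.finRange (r + 1)).take i).map fun t => u t * len s D t).sum
    have := Ok.rep (u t) (mv t src dst) (fun j => MV src dst (A + j * (B * len s D t)) st)
      (8 * (B * len s D t) + 5) (fun j _ => by
        have e : (MV src dst (A + j * (B * len s D t)) st (rl t)).length = B * len s D t := by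
          rw [hMV _ (rl t) (h1.2.2 _).symm (h2.2.2 _).symm, hr t (by omega), arr_length]
        refine (mv_ok h h1 h2 t _ (by rw [hMV _ _ h1.1.symm h2.1.symm, h0])).eq ?_ (by rw [e])
        rw [e, MV_add h]; congr 1; ring)
    simp only [zero_mul, add_zero] at this
    refine this.eq ?_ ?_
    · rw [← List.take_append_getElem hi, List.map_append, List.sum_append]
      congr 1
      simp only [A, List.map_cons, List.map_nil, List.sum_cons, List.sum_nil, ← ht]
      ring
    · have h3 : u t * len s D t ≤ idx s D u :=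
        Finset.single_le_sum (f := fun t => u t * len s D t) (fun _ _ => Nat.zero_le _)
          (Finset.mem_univ t)
      have h4 : 1 ≤ B * len s D t := Nat.mul_pos hB (len_pos hs hD t)
      have h5 : B * (u t * len s D t) ≤ B * idx s D u := Nat.mul_le_mul_left _ h3
      have h6 : u t * 1 ≤ u t * (B * len s D t) := Nat.mul_le_mul_left _ h4
      nlinarith

/-- copy the top ruler into `F e` -/
def initF (e : Bool) : P X S r E :=
  .seq (trr (rl (r + 1)) .nul .tmp (fun x _ _ => (x, 0)) 0) (move .tmp (.F e))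

theorem copy_ok {src dst : Reg r} (h : [.sv0, .car, src, .nul, dst].Nodup) (st : Stt X S r E)
    (h0 : st .sv0 = []) (hn : st .nul = []) :
    Ok (trr src .nul dst (fun x _ _ => (x, 0)) 0) st (update st dst ((st src).reverse ++ st dst))
      (8 * (st src).length + 5) := by
  refine (trr_ok (fun _ => 0) (fun p => (st src)[p]?.getD z0) rfl h h0
    (fun i hi => by simp [List.getElem?_eq_getElem hi])).eq ?_ le_rfl
  have := takeZ_of_le (st src).length (st src) le_rfl
  rw [takeZ, List.take_length] at this
  rw [this, hn, List.drop_nil, ← hn, update_eq_self]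

/-- the set-up: `dr`, `sr`, the rulers and two zero arrays -/
def setupP (s cD cB : ℕ) : P X S r E :=
  .seq (rep cD (.push .dr z0)) (.seq (each .rho .sv1 fun _ => rep cD (.push .dr z0))
  (.seq (rep s (.push .sr z0)) (.seq (each .dr .sv1 fun _ => rep cB (.push (rl 0) z0))
  (.seq (.push (rl 0) { (z0 : Sym X S r E) with lsb := true })
  (.seq (seqL ((List.range (r + 1)).map rulStep)) (.seq (initF true) (initF false)))))))

theorem arr_zero (s D B : ℕ) : (arr s D (B + 1) 0 (fun _ => 0) : List (Sym X S r E)) =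
    { (z0 : Sym X S r E) with lsb := true } :: List.replicate B z0 := by
  apply List.ext_getElem
  · simp [len]
  · intro i h1 h2
    have hi : i < B + 1 := by simpa [len] using h1
    simp only [arr, List.getElem_map, List.getElem_range]
    cases i with
    | zero => refine Sym.ext rfl rfl (by simp [asym, z0]) (by simp [asym]) ?_ rfl
              funext t; simp [asym, tyP, z0]
    | succ i =>
      simp only [List.getElem_cons_succ, List.getElem_replicate]
      refine Sym.ext rfl rfl (by simp [asym, z0]) (by simp [asym, Nat.mod_eq_of_lt hi, z0]) ?_ rfl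
      funext t; simp [asym, tyP, z0]

theorem setupP_ok {s cD cB : ℕ} (hs : 0 < s) (hcD : 0 < cD) (ρ : ℕ) (st : Stt X S r E)
    (hrho : (st .rho).length = ρ) (h0 : st .sv0 = []) (h1 : st .sv1 = []) (ht : st .tmp = [])
    (hn : st .nul = []) (hdr : st .dr = []) (hsr : st .sr = []) (hrul : ∀ i, st (.rul i) = [])
    (hF : ∀ e, st (.F e) = []) (D B : ℕ) (hD : D = cD * (ρ + 1)) (hB : B = cB * D + 1) :
    Tri (setupP s cD cB) st (fun s' => Setup s D B s' ∧ (s' .dr).length = D ∧
      (∀ e, s' (.F e) = arr s D B (r + 1) (fun _ => 0)) ∧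
      ∀ k, k ≠ .dr → k ≠ .sr → (∀ i, k ≠ .rul i) → (∀ e, k ≠ .F e) → s' k = st k)
      ((30 * r + 100) * (B * len s D (r + 1)) + 20 * D) := by
  have hD0 : 0 < D := by rw [hD]; positivity
  have hB0 : 0 < B := by omega
  have e1 := pushN_ok Reg.dr (z0 : Sym X S r E) cD st
  have e2 := Ok.each (k := Reg.rho) (sv := .sv1) (f := fun _ : Sym X S r E => rep cD (.push .dr z0))
    (by simp) (fun _ => av_rep _ _ _ (by simp)) (fun _ => av_rep _ _ _ (by simp)) (st .rho)
    (fun i => update st .dr (List.replicate (cD * (i + 1)) z0)) (cD + 1)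
    (fun i _ => (pushN_ok _ _ _ _).eq (by simp [mul_add, add_comm]) le_rfl) (by simp) (by simp [h1])
  simp only [zero_add, mul_one, hrho, ← hD] at e2
  rw [hdr, List.append_nil] at e1
  set s1 := update st .dr (List.replicate D z0) with hs1
  have e3 := pushN_ok Reg.sr (z0 : Sym X S r E) s s1
  set s2 := update s1 .sr (List.replicate s z0 ++ s1 .sr) with hs2
  have e4 := Ok.each (k := Reg.dr) (sv := .sv1)
    (f := fun _ : Sym X S r E => rep cB (.push (rl 0) z0))
    (by simp) (fun _ => av_rep _ _ _ (by simp [rl])) (fun _ => av_rep _ _ _ (by simp [rl]))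
    (List.replicate D z0)
    (fun i => update s2 (rl 0) (List.replicate (cB * i) z0)) (cB + 1)
    (fun i _ => (pushN_ok _ _ _ _).eq (by simp [mul_add, add_comm]) le_rfl)
    (by simp [rl, hs2, hs1]) (by simp [h1, rl, hs2, hs1])
  have e0 : update s2 (rl 0) (List.replicate (cB * 0) z0) = s2 := by
    rw [update_eq_self_iff]; simp [hs2, hs1, rl, hrul]
  simp only [e0, List.length_replicate] at e4
  have e5 := Ok.push (rl 0) { (z0 : Sym X S r E) with lsb := true }
    (update s2 (rl 0) (List.replicate (cB * D) z0))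
  rw [update_self, update_idem, ← arr_zero s D, ← hB] at e5
  set s3 := update s2 (rl 0) (arr s D B 0 fun _ => 0) with hs3
  have e6 := Tri.seqL (List.range (r + 1)) rulStep (fun i (s' : Stt X S r E) =>
    (∀ j, j ≤ i → s' (rl j) = arr s D B j (fun _ => 0)) ∧ (∀ j, i < j → j < r + 2 → s' (rl j) = []) ∧
      ∀ k, (∀ i, k ≠ .rul i) → s' k = s2 k) (30 * (B * len s D (r + 1))) ?_ s3 ⟨?_, ?_, ?_⟩
  · rw [List.length_range] at e6
    have hlen : 1 ≤ len s D (r + 1) := len_pos hs hD0 _
    have hsl : s ≤ len s D (r + 1) := by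
      rw [len_succ_eq]; exact Nat.le_mul_of_pos_right _ (by positivity)
    have hBl : B ≤ B * len s D (r + 1) := Nat.le_mul_of_pos_right _ hlen
    have hsl' : len s D (r + 1) ≤ B * len s D (r + 1) := Nat.le_mul_of_pos_left _ hB0
    refine (e1.then (e2.then (e3.then (e4.then (e5.then (Tri.seq'
      (b := 2 * (10 * (B * len s D (r + 1)) + 6)) e6 ?_)))))).cost ?_
    · rintro s4 ⟨r1, -, r3⟩
      have r4 : s4 (.rul (Fin.ofNat (r + 2) (r + 1))) = arr s D B (r + 1) fun _ => 0 :=
        r1 (r + 1) le_rfl
      have q0 : s4 .sv0 = [] := by rw [r3 _ (by simp)]; simp [hs2, hs1, h0]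
      have qn : s4 .nul = [] := by rw [r3 _ (by simp)]; simp [hs2, hs1, hn]
      have qt : s4 .tmp = [] := by rw [r3 _ (by simp)]; simp [hs2, hs1, ht]
      have qF : ∀ e, s4 (.F e) = [] := by intro e; rw [r3 _ (by simp)]; simp [hs2, hs1, hF]
      have hI : ∀ (e : Bool) (s5 : Stt X S r E), s5 .sv0 = [] → s5 .nul = [] → s5 .tmp = [] →
          s5 (.F e) = [] → s5 (rl (r + 1)) = arr s D B (r + 1) (fun _ => 0) →
          Ok (initF e) s5 (update s5 (.F e) (arr s D B (r + 1) (fun _ => 0)))
            (10 * (B * len s D (r + 1)) + 6) := by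
        intro e s5 a1 a2 a3 a4 a5
        refine (Ok.seq (copy_ok (by simp [rl]) s5 a1 a2) (move_ok (by simp) _)).eq ?_ ?_
        · funext k
          by_cases hk : k = .F e
          · subst hk; simp [a3, a4, a5]
          · rw [update_of_ne hk, update_of_ne hk]
            cases k <;> simp [a3]
        · simp [a3, a5]; omega
      refine ((Ok.seq (hI true s4 q0 qn qt (qF _) r4) (hI false _ (by simp [q0]) (by simp [qn])
        (by simp [qt]) (by simp [qF]) (by simpa [rl] using r4))).tri ?_).cost (by omega)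
      refine ⟨⟨by simp [q0], by simp [qn], by simp [qt], fun i hi => ?_⟩, ?_, ?_, ?_⟩
      · simpa [rl] using r1 i (by omega)
      · simp [r3, hs2, hs1]
      · intro e; cases e <;> simp
      · intro k k1 k2 k3 k4
        rw [update_of_ne (k4 _), update_of_ne (k4 _), r3 k k3, hs2, update_of_ne k2, hs1,
          update_of_ne k1]
    · have : ρ + 1 ≤ D := by rw [hD]; exact Nat.le_mul_of_pos_left _ hcD
      have : cD ≤ D := by rw [hD]; exact Nat.le_mul_of_pos_right _ (by omega)
      have : ρ * cD ≤ D := by rw [hD]; nlinarith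
      nlinarith
  · rintro i hi s' ⟨r1, r2, r3⟩
    have hi' : i < r + 1 := by simpa using hi
    simp only [List.getElem_range]
    refine ((rulStep_ok hs hD0 hB0 hi' s' ?_ ?_ ?_ ?_ ?_ ?_ (r1 i le_rfl)
      (r2 (i + 1) (by omega) (by omega))).tri ⟨?_, ?_, ?_⟩).cost (by
        have := Nat.le_of_dvd (len_pos hs hD0 _)
          (len_dvd (s := s) (D := D) (show i + 1 ≤ r + 1 by omega))
        gcongr)
    · rw [r3 _ (by simp)]; simp [hs2, hs1, h0]
    · rw [r3 _ (by simp)]; simp [hs2, hs1, h1]
    · rw [r3 _ (by simp)]; simp [hs2, hs1, ht]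
    · rw [r3 _ (by simp)]; simp [hs2, hs1, hn]
    · rw [r3 _ (by simp)]; simp [hs2, hs1, hsr]
    · rw [r3 _ (by simp)]; simp [hs2, hs1]
    · intro j hj
      by_cases hj' : j = i + 1
      · subst hj'; simp
      · rw [update_of_ne (rl_ne (by omega) (by omega) hj'), r1 j (by omega)]
    · intro j hj hj'
      rw [update_of_ne (rl_ne (by omega) (by omega) (by omega)), r2 j (by omega) hj']
    · intro k hk
      rw [update_of_ne (show k ≠ rl (i + 1) from hk _), r3 k hk]
  · intro j hj
    obtain rfl : j = 0 := by omega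
    simp [hs3]
  · intro j hj hj'
    rw [hs3, update_of_ne (rl_ne (by omega) (by omega) (by omega))]
    simp [hs2, hs1, rl, hrul]
  · intro k hk
    rw [hs3, update_of_ne (show k ≠ rl 0 from hk _)]

end Pool.Agent.H960Z.TM
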