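import Pool.Agent.H960Z.TM.Arr

/-! Writing the Fox vector of the input into the array. -/

set_option autoImplicit false

namespace Pool.Agent.H960Z.TM

open Function

theorem add_bit (x y c0 i : ℕ) :
    (x + y + c0) / 2 ^ i % 2 =
      (x / 2 ^ i % 2 + y / 2 ^ i % 2 + (x % 2 ^ i + y % 2 ^ i + c0) / 2 ^ i) % 2 ∧
    (x % 2 ^ (i + 1) + y % 2 ^ (i + 1) + c0) / 2 ^ (i + 1) =
      (x / 2 ^ i % 2 + y / 2 ^ i % 2 + (x % 2 ^ i + y % 2 ^ i + c0) / 2 ^ i) / 2 := by
  have hm : 0 < 2 ^ i := by positivity
  constructor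
  · have : x + y + c0 = (x % 2 ^ i + y % 2 ^ i + c0) + 2 ^ i * (x / 2 ^ i + y / 2 ^ i) := by
      have h1 := Nat.mod_add_div x (2 ^ i)
      have h2 := Nat.mod_add_div y (2 ^ i)
      rw [mul_add]; omega
    conv_lhs => rw [this, Nat.add_mul_div_left _ _ hm]
    omega
  · rw [Nat.mod_pow_succ, Nat.mod_pow_succ, pow_succ, ← Nat.div_div_eq_div_mul]
    have : x % 2 ^ i + 2 ^ i * (x / 2 ^ i % 2) + (y % 2 ^ i + 2 ^ i * (y / 2 ^ i % 2)) + c0 =
      (x % 2 ^ i + y % 2 ^ i + c0) + 2 ^ i * (x / 2 ^ i % 2 + y / 2 ^ i % 2) := by ring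
    rw [this, Nat.add_mul_div_left _ _ hm]
    congr 1; ring

variable {X S : Type} [Inhabited S] {r E : ℕ}

def bv (x : Sym X S r E) : ℕ := x.bit.toNat

def setBit (x : Sym X S r E) (n : ℕ) : Sym X S r E := { x with bit := decide (n % 2 = 1) }

theorem toNat_testBit' (x i : ℕ) : (x.testBit i).toNat = x / 2 ^ i % 2 := by
  rw [Nat.testBit_eq_decide_div_mod_eq]
  rcases Nat.mod_two_eq_zero_or_one (x / 2 ^ i) with h | h <;> simp [h]

theorem bv_asym (s D B i : ℕ) (val : ℕ → ℕ) (p : ℕ) :
    bv (asym s D B i val p : Sym X S r E) = val (p / B) / 2 ^ (p % B) % 2 := toNat_testBit' _ _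

theorem setBit_asym (s D B i : ℕ) (val val' : ℕ → ℕ) (p n : ℕ)
    (h : n % 2 = val' (p / B) / 2 ^ (p % B) % 2) :
    setBit (asym s D B i val p : Sym X S r E) n = asym s D B i val' p := by
  refine Sym.ext rfl rfl ?_ rfl rfl rfl
  simp only [setBit, asym, h, Nat.testBit_eq_decide_div_mod_eq]

theorem arr_congr {s D B i : ℕ} (hB : 0 < B) {val val' : ℕ → ℕ}
    (h : ∀ k, k < len s D i → val k = val' k) :
    (arr s D B i val : List (Sym X S r E)) = arr s D B i val' := by
  refine List.map_congr_left fun p hp => ?_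
  have : p / B < len s D i := by
    rw [Nat.div_lt_iff_lt_mul hB, mul_comm]; simpa using hp
  simp only [asym, h _ this]

theorem arr_getElem? {s D B i : ℕ} {val : ℕ → ℕ} {p : ℕ} (h : p < B * len s D i) :
    (arr s D B i val : List (Sym X S r E))[p]? = some (asym s D B i val p) := by
  simp [arr, h]

/-- the array `A` with the head at position `h` -/
def Hd (st : Stt X S r E) (A : List (Sym X S r E)) (h : ℕ) : Stt X S r E :=
  update (update st (.F true) (A.drop h)) .L (A.take h).reverse

theorem MV_right (st : Stt X S r E) (A : List (Sym X S r E)) (h M : ℕ) (hM : h + M ≤ A.length) :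
    MV (.F true) .L M (Hd st A h) = Hd st A (h + M) := by
  funext k
  by_cases k1 : k = .L
  · subst k1
    simp [MV, Hd, takeZ_of_le M (A.drop h) (by simp; omega), List.take_add]
  · by_cases k2 : k = .F true
    · subst k2; simp [MV, Hd]
    · simp [MV, Hd, update_of_ne k1, update_of_ne k2]

theorem MV_left (st : Stt X S r E) (A : List (Sym X S r E)) (h M : ℕ) (hM : h + M ≤ A.length) :
    MV .L (.F true) M (Hd st A (h + M)) = Hd st A h := by
  have e : (A.take (h + M)).reverse = ((A.drop h).take M).reverse ++ (A.take h).reverse := by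
    simp [List.take_add]
  have l : ((A.drop h).take M).reverse.length = M := by simp; omega
  funext k
  by_cases k1 : k = .F true
  · subst k1
    simp only [MV, Hd, update_self, ne_eq, reduceCtorEq, not_false_eq_true, update_of_ne]
    rw [takeZ_of_le _ _ (by simp; omega), e, List.take_left' l, List.reverse_reverse,
      ← List.drop_drop, List.take_append_drop]
  · by_cases k2 : k = .L
    · subst k2
      simp only [MV, Hd, update_self, ne_eq, reduceCtorEq, not_false_eq_true, update_of_ne]
      rw [e, List.drop_left' l]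
    · simp [MV, Hd, update_of_ne k1, update_of_ne k2]

theorem av_trr {src aux dst k : Reg r}
    {δ : Sym X S r E → Option (Sym X S r E) → ℕ → Sym X S r E × ℕ} {c0 : ℕ} (h1 : .sv0 ≠ k)
    (h2 : .car ≠ k) (h3 : src ≠ k) (h4 : aux ≠ k) (h5 : dst ≠ k) :
    Av (trr src aux dst δ c0) k := av_tr _ _ _ _ _ _ h1 h2 h3 h4 h5

def incR : P X S r E :=
  trr (rl 0) (.F true) .L (fun _ y c => (setBit (y.getD z0) (bv (y.getD z0) + c),
    (bv (y.getD z0) + c) / 2)) 1

theorem incR_ok {s D B : ℕ} (hB : 0 < B) (hE : 1 ≤ E) (st : Stt X S r E) (h0 : st .sv0 = [])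
    (hr : (st (rl 0)).length = B) (val : ℕ → ℕ) (h : ℕ) (hh : h < len s D (r + 1)) :
    Ok incR (Hd st (arr s D B (r + 1) val) (B * h))
      (Hd st (arr s D B (r + 1) (update val h (val h + 1))) (B * (h + 1))) (8 * B + 5) := by
  have hr' : (Hd st (arr s D B (r + 1) val) (B * h) (rl 0)).length = B := by simp [Hd, hr]
  have hle : B * (h + 1) ≤ B * len s D (r + 1) := Nat.mul_le_mul_left _ hh
  have hdiv : ∀ i, i < B → (B * h + i) / B = h ∧ (B * h + i) % B = i := by
    intro i hi
    constructor
    · rw [add_comm, Nat.add_mul_div_left _ _ hB, Nat.div_eq_of_lt hi, zero_add]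
    · rw [add_comm, Nat.add_mul_mod_self_left, Nat.mod_eq_of_lt hi]
  refine (trr_ok (fun i => (val h % 2 ^ i + 0 % 2 ^ i + 1) / 2 ^ i)
    (fun i => asym s D B (r + 1) (update val h (val h + 1)) (B * h + i)) (by simp [Nat.mod_one])
    (by simp [rl]) (by simp [Hd, h0]) ?_).eq ?_ (by rw [hr'])
  · intro i hi
    rw [hr'] at hi
    have e1 : (Hd st (arr s D B (r + 1) val) (B * h) (.F true))[i]? =
        some (asym s D B (r + 1) val (B * h + i)) := by
      simp only [Hd, ne_eq, reduceCtorEq, not_false_eq_true, update_of_ne, update_self,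
        List.getElem?_drop]
      exact arr_getElem? (by rw [mul_add] at hle; omega)
    have e2 : (val h % 2 ^ i + 0 % 2 ^ i + 1) / 2 ^ i ≤ 1 := by
      have := Nat.mod_lt (val h) (show 0 < 2 ^ i by positivity)
      apply Nat.div_le_of_le_mul
      simp; omega
    obtain ⟨a1, a2⟩ := add_bit (val h) 0 1 i
    rw [e1, Option.getD_some, min_eq_left (e2.trans hE), bv_asym, (hdiv i hi).1, (hdiv i hi).2,
      a2, setBit_asym s D B (r + 1) val (update val h (val h + 1))]
    · simp
    · rw [(hdiv i hi).1, (hdiv i hi).2, update_self]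
      simpa using a1.symm
  · rw [hr']
    funext k
    by_cases k1 : k = .L
    · subst k1
      simp only [Hd, update_self, ne_eq, reduceCtorEq, not_false_eq_true, update_of_ne]
      rw [← List.reverse_append, List.reverse_inj]
      have hle' : B * h + B ≤ B * len s D (r + 1) := by rwa [mul_add, mul_one] at hle
      have tk : ∀ (n : ℕ) (v : ℕ → ℕ), n ≤ B * len s D (r + 1) →
          List.take n (arr s D B (r + 1) v : List (Sym X S r E)) =
            (List.range n).map (asym s D B (r + 1) v) := by
        intro n v hn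
        rw [arr, ← List.map_take, List.take_range, min_eq_left hn]
      rw [tk _ _ (by omega), tk _ _ hle, mul_add, mul_one, List.range_add, List.map_append,
        List.map_map]
      congr 1
      refine List.map_congr_left fun p hp => ?_
      have : p / B ≠ h := by
        have := (Nat.div_lt_iff_lt_mul hB).2 (show p < h * B by rw [mul_comm]; simpa using hp)
        omega
      simp [asym, update_of_ne this]
    · by_cases k2 : k = .F true
      · subst k2
        simp only [Hd, update_self, ne_eq, reduceCtorEq, not_false_eq_true, update_of_ne,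
          List.drop_drop]
        rw [show B * h + B = B * (h + 1) by ring]
        apply List.ext_getElem
        · simp
        · intro p p1 p2
          have : (B * (h + 1) + p) / B ≠ h := by
            rw [add_comm, Nat.add_mul_div_left _ _ hB]
            generalize p / B = y
            omega
          simp [arr, asym, update_of_ne this]
      · simp [Hd, update_of_ne k1, update_of_ne k2]

def e0 (r j : ℕ) : Fin (r + 1) → ℕ := Pi.single 0 j

theorem idx_e0 (s D j : ℕ) : idx s D (e0 r j) = j := by
  simp [idx, e0, Fin.sum_univ_succ, len]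

def one' (r : ℕ) : Fin (r + 1) → ℕ := fun t => if t = 0 then 0 else 1

section fill

variable (δ : S → X → S) (s0 : S) (jj : S → X → ℕ) (vp vm : X → Fin (r + 1) → ℕ)

def fillBody (t : S) (x : X) : P X S r E :=
  .seq (.push .st (sS (δ t x))) (.seq (mvs (e0 r (jj t x)) (.F true) .L) (.seq incR
    (.seq (mvs (vp x) (.F true) .L) (mvs (e0 r (jj t x + 1) + vm x) .L (.F true)))))

def fillP : P X S r E :=
  .seq (each .rho .sv1 fun _ => mvs (one' r) (.F true) .L) (.seq (.push .st (sS s0))
    (.seq (each .inp .sv1 fun x => .pop .st fun o => olift (fillBody δ jj vp vm (rdS o)) .skip x.l)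
      (.seq (.pop .st fun _ => .skip) (move .L (.F true)))))

def fillS (a : S × (Fin (r + 1) → ℕ) × ((Fin (r + 1) → ℕ) → ℕ)) (x : X) :
    S × (Fin (r + 1) → ℕ) × ((Fin (r + 1) → ℕ) → ℕ) :=
  (δ a.1 x, a.2.1 + vp x - vm x,
    update a.2.2 (a.2.1 + e0 r (jj a.1 x)) (a.2.2 (a.2.1 + e0 r (jj a.1 x)) + 1))

theorem av_fillBody (t : S) (x : X) (k : Reg r) (h1 : k = .inp ∨ k = .sv1) :
    Av (fillBody δ jj vp vm t x : P X S r E) k := by
  rcases h1 with rfl | rfl
  all_goals
    exact ⟨by simp, av_mvs _ (by simp) (by simp) (by simp [Data]),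
      av_trr (by simp) (by simp) (by simp [rl]) (by simp) (by simp),
      av_mvs _ (by simp) (by simp) (by simp [Data]), av_mvs _ (by simp) (by simp) (by simp [Data])⟩

theorem fillP_ok {s D B : ℕ} (hs : 0 < s) (hD : 0 < D) (hB : 0 < B) (hE : 1 ≤ E) (b : ℕ)
    (hj : ∀ t x, jj t x < s) (hvp : ∀ x, vp x 0 = 0 ∧ ∑ t, vp x t ≤ b) (hvm : ∀ x, ∑ t, vm x t ≤ b)
    (w : List X) (ρ : ℕ) (pos : ℕ → Fin (r + 1) → ℕ) (hp0 : pos 0 = ρ • one' r)
    (hb0 : Box s D (pos 0))
    (hpos : ∀ (i : ℕ) (hi : i < w.length), pos (i + 1) = pos i + vp w[i] - vm w[i] ∧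
      pos i 0 = 0 ∧ Box s D (pos i + vp w[i]) ∧ vm w[i] ≤ pos i + vp w[i])
    (st : Stt X S r E) (hS : Setup s D B st) (hi : st .inp = w.map enc) (h1 : st .sv1 = [])
    (hrho : (st .rho).length = ρ) (hL : st .L = [])
    (hF : st (.F true) = arr s D B (r + 1) (fun _ => 0)) :
    Ok (fillP δ s0 jj vp vm) st (update st (.F true) (arr s D B (r + 1)
      (fun k => (w.foldl (fillS δ jj vp vm) (s0, ρ • one' r, 0)).2.2 (dig s D (r + 1) k))))
      ((w.length + ρ + 1) * (60 * (r + 2) * (s + b + r + 2) * (B * len s D r)) +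
        2 * (B * len s D (r + 1))) := by
  set M := B * len s D r with hM
  have hl1 : 1 ≤ len s D r := len_pos hs hD r
  have hM1 : B ≤ M := Nat.le_mul_of_pos_right _ hl1
  have hmv : ∀ (u : Fin (r + 1) → ℕ) (c : ℕ), ∑ t, u t ≤ c → B * idx s D u ≤ c * M := by
    intro u c hc
    have := idx_le hs hD u (le_refl (r + 1))
    calc B * idx s D u ≤ B * (c * len s D r) := by gcongr; exact this.trans (by gcongr)
      _ = c * M := by rw [hM]; ring
  have hRul : ∀ (s' : Stt X S r E) A h, (∀ i, i < r + 2 → s' (rl i) = st (rl i)) →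
      ∀ i, i < r + 2 → Hd s' A h (rl i) = arr s D B i fun _ => 0 := by
    intro s' A h h' i hi
    simp [Hd, h' i hi, hS.rul i hi]
  -- initial move
  have hone : ∑ t, one' r t ≤ r + 1 := by
    calc ∑ t, one' r t ≤ ∑ _t : Fin (r + 1), 1 :=
          Finset.sum_le_sum fun t _ => by unfold one'; split_ifs <;> simp
      _ = r + 1 := by simp
  have E1 := Ok.each (k := Reg.rho) (sv := .sv1)
    (f := fun _ : Sym X S r E => mvs (one' r) (.F true) .L) (by simp)
    (fun _ => av_mvs _ (by simp) (by simp) (by simp [Data]))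
    (fun _ => av_mvs _ (by simp) (by simp) (by simp [Data])) (st .rho)
    (fun i => Hd st (arr s D B (r + 1) (fun _ => 0)) (B * idx s D (i • one' r)))
    ((r + 2) * (13 * ((r + 1) * M) + 1)) (fun i hi => by
      refine (mvs_ok hs hD hB _ (by simp) (by simp [Data]) (by simp [Data]) _
        (by simp [Hd, hS.sv0]) (hRul _ _ _ fun _ _ => rfl)).eq ?_ ?_
      · rw [MV_right, ← mul_add, ← idx_add, succ_nsmul]
        rw [← mul_add, ← idx_add, ← succ_nsmul, arr_length]
        refine Nat.mul_le_mul_left _ (le_trans (idx_mono ?_) (idx_lt _ hb0).le)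
        rw [hp0]
        exact nsmul_le_nsmul_left (fun _ => Nat.zero_le _) (by omega)
      · have := hmv _ _ hone
        gcongr) (by simp [Hd]) (by simp [Hd, h1])
  have e0' : Hd st (arr s D B (r + 1) (fun _ => 0)) (B * idx s D (0 • one' r)) = st := by
    funext k
    by_cases k1 : k = .L
    · subst k1; simp [Hd, idx, hL]
    · by_cases k2 : k = .F true
      · subst k2; simp [Hd, idx, hF]
      · simp [Hd, update_of_ne k1, update_of_ne k2]
  simp only [e0', hrho] at E1
  let R : S × (Fin (r + 1) → ℕ) × ((Fin (r + 1) → ℕ) → ℕ) → Stt X S r E := fun a =>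
    Hd (update st .st (sS a.1 :: st .st)) (arr s D B (r + 1) (fun k => a.2.2 (dig s D (r + 1) k)))
      (B * idx s D a.2.1)
  obtain ⟨E2, -⟩ := each_fold (k := Reg.inp) (sv := .sv1) (f := fun x : Sym X S r E =>
      .pop .st fun o => olift (fillBody δ jj vp vm (rdS o)) .skip x.l) (by simp)
    (fun x => ⟨by simp, fun o => by
      cases x.l
      · trivial
      · exact av_fillBody _ _ _ _ _ _ _ (Or.inl rfl)⟩)
    (fun x => ⟨by simp, fun o => by
      cases x.l
      · trivial
      · exact av_fillBody _ _ _ _ _ _ _ (Or.inr rfl)⟩)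
    (w.map enc) R (fun a x => olift (fillS δ jj vp vm a) a x.l) (s0, ρ • one' r, 0)
    (fun i a => a.2.1 = pos i) (3 * ((r + 2) * (13 * ((s + b) * M) + 1)) + 8 * B + 7) hp0.symm (by
      rintro i hi ⟨t, u, H⟩ hu
      simp only at hu
      subst hu
      have hi' : i < w.length := by simpa using hi
      obtain ⟨q1, q2, q3, q4⟩ := hpos i hi'
      simp only [List.getElem_map, enc_l, olift]
      refine ⟨q1.symm, ?_⟩
      set x := w[i]
      set j := jj t x
      have hjs : j < s := hj t x
      have bx : Box s D (pos i + e0 r j + vp x) := by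
        intro τ
        by_cases h : τ = 0
        · subst h; simp [e0, q2, (hvp x).1, side, hjs]
        · have := q3 τ
          simpa [e0, Pi.single_eq_of_ne h] using this
      have bx' : Box s D (pos i + e0 r j) := fun τ => lt_of_le_of_lt (by simp) (bx τ)
      have l1 := idx_lt _ bx
      have l2 := idx_lt _ bx'
      have l3 := idx_mono (s := s) (D := D) q4
      have l4 : idx s D (pos i + vp x - vm x) + idx s D (vm x) = idx s D (pos i) + idx s D (vp x) := by
        rw [← idx_add, ← idx_add, tsub_add_cancel_of_le q4]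
      rw [idx_add, idx_add, idx_e0] at l1
      rw [idx_add] at l3
      set st' := update st .st (sS (δ t x) :: st .st)
      have r0 : ∀ i, i < r + 2 → st' (rl i) = st (rl i) := fun i _ => by simp [st']
      set val := fun k => H (dig s D (r + 1) k)
      have m1 := mvs_ok hs hD hB (e0 r j) (src := .F true) (dst := .L) (by simp) (by simp [Data])
        (by simp [Data]) (Hd st' (arr s D B (r + 1) val) (B * idx s D (pos i)))
        (by simp [Hd, st', hS.sv0]) (hRul _ _ _ r0)
      rw [MV_right _ _ _ _ (by rw [arr_length, ← mul_add, ← idx_add]; gcongr), ← mul_add,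
        ← idx_add] at m1
      have m2 := incR_ok hB hE st' (by simp [st', hS.sv0])
        (by simp [st', hS.rul 0 (by omega), len]) val _ l2
      have ev : (arr s D B (r + 1) (update val (idx s D (pos i + e0 r j))
          (val (idx s D (pos i + e0 r j)) + 1)) : List (Sym X S r E)) =
          arr s D B (r + 1) (fun k => update H (pos i + e0 r j) (H (pos i + e0 r j) + 1)
            (dig s D (r + 1) k)) := by
        refine arr_congr hB fun k hk => ?_
        by_cases hk' : k = idx s D (pos i + e0 r j)
        · subst hk'; simp [val, dig_idx hs hD _ bx']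
        · rw [update_of_ne hk', update_of_ne]
          intro h
          rw [← h, idx_dig hk] at hk'
          exact hk' rfl
      rw [ev] at m2
      set A := (arr s D B (r + 1) (fun k => update H (pos i + e0 r j) (H (pos i + e0 r j) + 1)
            (dig s D (r + 1) k)) : List (Sym X S r E))
      have m3 := mvs_ok hs hD hB (vp x) (src := .F true) (dst := .L) (by simp) (by simp [Data])
        (by simp [Data]) (Hd st' A (B * (idx s D (pos i + e0 r j) + 1)))
        (by simp [Hd, st', hS.sv0]) (hRul _ _ _ r0)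
      have hle : B * (idx s D (pos i + e0 r j) + 1) + B * idx s D (vp x) ≤ A.length := by
        rw [arr_length, ← mul_add, idx_add, idx_e0]; gcongr; omega
      rw [MV_right _ _ _ _ hle] at m3
      have e4 : B * (idx s D (pos i + e0 r j) + 1) + B * idx s D (vp x) =
          B * idx s D (pos i + vp x - vm x) + B * idx s D (e0 r (j + 1) + vm x) := by
        rw [← mul_add, ← mul_add, idx_add, idx_add, idx_e0, idx_e0]; congr 1; omega
      rw [e4] at m3 hle
      have m4 := mvs_ok hs hD hB (e0 r (j + 1) + vm x) (src := .L) (dst := .F true) (by simp)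
        (by simp [Data]) (by simp [Data]) (Hd st' A
          (B * idx s D (pos i + vp x - vm x) + B * idx s D (e0 r (j + 1) + vm x)))
        (by simp [Hd, st', hS.sv0]) (hRul _ _ _ r0)
      rw [MV_left _ _ _ _ hle] at m4
      have e5 : rdS (R (t, pos i, H) .st).head? = t := by simp [R, Hd]
      have e6 : update (update (R (t, pos i, H)) .st (R (t, pos i, H) .st).tail) .st
          (sS (δ t x) :: (update (R (t, pos i, H)) .st (R (t, pos i, H) .st).tail) .st) =
          Hd st' (arr s D B (r + 1) val) (B * idx s D (pos i)) := by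
        funext k
        by_cases k1 : k = .st
        · subst k1; simp [R, Hd, st']
        · simp only [R, Hd, st', update_idem, update_of_ne k1]
          by_cases k2 : k = .L
          · subst k2; simp [val]
          · by_cases k3 : k = .F true
            · subst k3; simp [val]
            · simp [update_of_ne k1, update_of_ne k2, update_of_ne k3]
      refine (Ok.pop (by
        rw [e5]
        exact Ok.seq (Ok.push _ _ _) (e6 ▸ Ok.seq m1 (Ok.seq m2 (Ok.seq m3 m4))))).eq rfl ?_
      have se : ∀ j, ∑ t, e0 r j t = j := by intro j; simp [e0]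
      have c1 := hmv (e0 r j) (s + b) (by rw [se]; omega)
      have c2 := hmv (vp x) (s + b) (by have := (hvp x).2; omega)
      have c3 := hmv (e0 r (j + 1) + vm x) (s + b) (by
        have := hvm x
        simp only [Pi.add_apply, Finset.sum_add_distrib, se]; omega)
      have d1 : (r + 2) * (13 * (B * idx s D (e0 r j)) + 1) ≤ (r + 2) * (13 * ((s + b) * M) + 1) := by
        gcongr
      have d2 : (r + 2) * (13 * (B * idx s D (vp x)) + 1) ≤ (r + 2) * (13 * ((s + b) * M) + 1) := by
        gcongr
      have d3 : (r + 2) * (13 * (B * idx s D (e0 r (j + 1) + vm x)) + 1) ≤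
          (r + 2) * (13 * ((s + b) * M) + 1) := by gcongr
      omega) (by simp [R, Hd, hi]) (by simp [R, Hd, h1])
  have e1 : (w.map (enc : X → Sym X S r E)).foldl (fun a x => olift (fillS δ jj vp vm a) a x.l)
      (s0, ρ • one' r, 0) = w.foldl (fillS δ jj vp vm) (s0, ρ • one' r, 0) := by
    rw [List.foldl_map]; rfl
  rw [e1] at E2
  have e2 : update (Hd st (arr s D B (r + 1) (fun _ => 0)) (B * idx s D (ρ • one' r))) .st
      (sS s0 :: Hd st (arr s D B (r + 1) (fun _ => 0)) (B * idx s D (ρ • one' r)) .st) =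
      R (s0, ρ • one' r, 0) := by
    funext k
    by_cases k1 : k = .st
    · subst k1; simp [R, Hd]
    · simp only [R, Hd, update_of_ne k1]
      by_cases k2 : k = .L
      · subst k2; simp
      · by_cases k3 : k = .F true
        · subst k3; simp
        · simp [update_of_ne k1, update_of_ne k2, update_of_ne k3]
  refine (Ok.seq E1 (Ok.seq (Ok.push _ _ _) (e2 ▸ Ok.seq E2 (Ok.seq (Ok.pop (Ok.skip _))
    (move_ok (by simp) _))))).eq ?_ ?_
  · funext k
    by_cases k1 : k = .F true
    · subst k1; simp [R, Hd]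
    · simp only [update_of_ne k1]
      by_cases k2 : k = .L
      · subst k2; simp [hL]
      · by_cases k3 : k = .st
        · subst k3; simp [R, Hd]
        · simp [R, Hd, update_of_ne k1, update_of_ne k2, update_of_ne k3]
  · have hM0 : 1 ≤ M := le_trans hB hM1
    set Z := (r + 2) * (s + b + r + 2) * M with hZ
    have z1 : (r + 2) * ((r + 1) * M) ≤ Z := by
      rw [hZ, mul_assoc]; exact Nat.mul_le_mul_left _ (Nat.mul_le_mul_right _ (by omega))
    have z2 : (r + 2) * ((s + b) * M) ≤ Z := by
      rw [hZ, mul_assoc]; exact Nat.mul_le_mul_left _ (Nat.mul_le_mul_right _ (by omega))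
    have z3 : r + 2 ≤ Z := by rw [hZ, mul_assoc]; exact Nat.le_mul_of_pos_right _ (by positivity)
    have z4 : M ≤ Z := by rw [hZ]; exact Nat.le_mul_of_pos_left _ (by positivity)
    have y1 : (r + 2) * (13 * ((r + 1) * M) + 1) + 4 ≤ 60 * Z := by nlinarith
    have y2 : 3 * ((r + 2) * (13 * ((s + b) * M) + 1)) + 8 * B + 7 + 4 ≤ 60 * Z := by nlinarith
    have y3 := Nat.mul_le_mul_left ρ y1
    have y4 := Nat.mul_le_mul_left w.length y2
    have y5 : 60 * (r + 2) * (s + b + r + 2) * M = 60 * Z := by rw [hZ]; ring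
    rw [y5]
    simp only [List.length_map, R, Hd, update_self, ne_eq, reduceCtorEq, not_false_eq_true,
      update_of_ne, List.length_reverse, List.length_take, arr_length]
    have := min_le_right (B * idx s D (w.foldl (fillS δ jj vp vm) (s0, ρ • one' r, 0)).2.1)
      (B * len s D (r + 1))
    nlinarith

end fill

end Pool.Agent.H960Z.TM
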