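import Mathlib

/-! The word problem of a group with an abelian kernel, through Fox vectors. -/

set_option autoImplicit false

namespace Pool.Agent.H960Z.TM

theorem fg_struct (A : Type) [AddCommGroup A] [AddGroup.FG A] :
    ∃ (n : ℕ) (T : Type) (_ : AddCommGroup T) (_ : Finite T), Nonempty (A ≃+ (Fin n → ℤ) × T) := by
  obtain ⟨n, ι, _, p, hp, e, ⟨φ⟩⟩ := AddCommGroup.equiv_free_prod_directSum_zmod A
  have : ∀ i, NeZero (p i ^ e i) := fun i => ⟨pow_ne_zero _ (hp i).ne_zero⟩
  refine ⟨n, DirectSum ι fun i => ZMod (p i ^ e i), inferInstance, ?_,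
    ⟨φ.trans (AddEquiv.prodCongr Finsupp.addEquivFunOnFinite (AddEquiv.refl _))⟩⟩
  exact Finite.of_equiv _ (DirectSum.addEquivProd _).toEquiv.symm

variable {X A : Type} [AddCommGroup A]

noncomputable def fox (p : X → A) : A → List X → (A × X →₀ ℤ)
  | _, [] => 0
  | a, x :: w => Finsupp.single (a, x) 1 + fox p (a + p x) w

theorem fox_tr (p : X → A) (c : A) (w : List X) : ∀ a,
    (fox p a w).mapDomain (fun y => (y.1 + c, y.2)) = fox p (a + c) w := by
  induction w with
  | nil => intro a; simp [fox]
  | cons x w ih =>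
    intro a
    simp only [fox, Finsupp.mapDomain_add, Finsupp.mapDomain_single, ih, add_right_comm a]

theorem fox_main {G : Type} [Group G] (gx : X → G) (π : G →* Multiplicative A)
    (hπ : Function.Surjective π) (hk : ∀ a ∈ π.ker, ∀ b ∈ π.ker, a * b = b * a) :
    ∃ N : AddSubgroup (A × X →₀ ℤ),
      (∀ f ∈ N, ∀ c : A, f.mapDomain (fun y => (y.1 + c, y.2)) ∈ N) ∧
      ∀ (w : List X) (a : A), (w.map gx).prod = 1 ↔
        (w.map fun x => (π (gx x)).toAdd).sum = 0 ∧ fox (fun x => (π (gx x)).toAdd) a w ∈ N := by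
  set p : X → A := fun x => (π (gx x)).toAdd with hp
  choose sec hsec using fun a : A => hπ (Multiplicative.ofAdd a)
  letI : CommGroup π.ker := { (inferInstance : Group π.ker) with
    mul_comm := fun a b => Subtype.ext (hk a a.2 b b.2) }
  let c : A × X → π.ker := fun y => ⟨sec y.1 * gx y.2 * (sec (y.1 + p y.2))⁻¹, by
    simp [MonoidHom.mem_ker, hsec, hp]⟩
  let Ψ : (A × X →₀ ℤ) →+ Additive π.ker :=
    Finsupp.liftAddHom fun y => zmultiplesHom _ (Additive.ofMul (c y))
  have hπw : ∀ w : List X, π (w.map gx).prod = Multiplicative.ofAdd (w.map p).sum := by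
    intro w
    induction w with
    | nil => simp
    | cons x w ih => simp [ih, hp]
  have hΨ : ∀ (w : List X) (a : A), ((Ψ (fox p a w)).toMul : G) =
      sec a * (w.map gx).prod * (sec (a + (w.map p).sum))⁻¹ := by
    intro w
    induction w with
    | nil => intro a; simp [fox]
    | cons x w ih =>
      intro a
      simp only [fox, map_add, toMul_add, Subgroup.coe_mul, ih, List.map_cons, List.prod_cons,
        List.sum_cons]
      have : ((Ψ (Finsupp.single (a, x) 1)).toMul : G) = sec a * gx x * (sec (a + p x))⁻¹ := by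
        simp [Ψ, c]
      rw [this, add_assoc]
      group
  have hcl : ∀ w : List X, (w.map gx).prod = 1 → (w.map p).sum = 0 := by
    intro w h
    have := hπw w
    rw [h, map_one] at this
    exact this.symm
  refine ⟨AddSubgroup.closure {f | ∃ a w, (List.map gx w).prod = 1 ∧ f = fox p a w}, ?_, ?_⟩
  · intro f hf c
    induction hf using AddSubgroup.closure_induction with
    | mem f hf =>
      obtain ⟨a, w, h, rfl⟩ := hf
      exact AddSubgroup.subset_closure ⟨a + c, w, h, fox_tr p c w a⟩
    | zero => simp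
    | add f g _ _ h1 h2 => rw [Finsupp.mapDomain_add]; exact AddSubgroup.add_mem _ h1 h2
    | neg f _ h =>
      have := (Finsupp.mapDomain.addMonoidHom (M := ℤ) (fun y : A × X => (y.1 + c, y.2))).map_neg f
      simp only [Finsupp.mapDomain.addMonoidHom_apply] at this
      rw [this]; exact AddSubgroup.neg_mem _ h
  · intro w a
    refine ⟨fun h => ⟨hcl w h, AddSubgroup.subset_closure ⟨a, w, h, rfl⟩⟩, fun ⟨h1, h2⟩ => ?_⟩
    have h3 : AddSubgroup.closure {f | ∃ a w, (List.map gx w).prod = 1 ∧ f = fox p a w} ≤ Ψ.ker := by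
      rw [AddSubgroup.closure_le]
      rintro _ ⟨a, w, h, rfl⟩
      have := hΨ w a
      rw [h, hcl w h, add_zero, mul_one, mul_inv_cancel] at this
      have h' : (Ψ (fox p a w)).toMul = 1 := Subtype.ext this
      exact h'
    have h4 : Ψ (fox p a w) = 0 := h3 h2
    have := hΨ w a
    rw [h4, h1, add_zero] at this
    have h5 : sec a * (w.map gx).prod * (sec a)⁻¹ = 1 := this.symm
    simpa using h5

open scoped commutatorElement in
theorem metab_struct {G : Type} [Group G] (hG : derivedSeries G 2 = ⊥) {m : ℕ} (f : Fin m → G)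
    (hf : Subgroup.closure (Set.range f) = ⊤) :
    ∃ (r : ℕ) (T : Type) (_ : AddCommGroup T) (_ : Finite T)
      (π : G →* Multiplicative ((Fin r → ℤ) × T)), Function.Surjective π ∧
      ∀ a ∈ π.ker, ∀ b ∈ π.ker, a * b = b * a := by
  have : Group.FG G := ⟨⟨(Set.finite_range f).toFinset, by simpa using hf⟩⟩
  have : Group.FG (Abelianization G) :=
    Group.fg_of_surjective (f := Abelianization.of) (QuotientGroup.mk'_surjective _)
  obtain ⟨r, T, i1, i2, ⟨φ⟩⟩ := fg_struct (Additive (Abelianization G))
  let ψ : Abelianization G ≃* Multiplicative ((Fin r → ℤ) × T) := AddEquiv.toMultiplicativeRight φ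
  refine ⟨r, T, i1, i2, ψ.toMonoidHom.comp Abelianization.of,
    ψ.surjective.comp (QuotientGroup.mk'_surjective _), ?_⟩
  have hk : ∀ a ∈ (ψ.toMonoidHom.comp Abelianization.of).ker, a ∈ commutator G := by
    intro a ha
    have : ψ (Abelianization.of a) = 1 := ha
    rw [← Abelianization.ker_of]
    exact (map_eq_one_iff _ ψ.injective).1 this
  intro a ha b hb
  have h1 : ⁅a, b⁆ ∈ derivedSeries G 2 := by
    rw [derivedSeries_succ, derivedSeries_one]
    exact Subgroup.commutator_mem_commutator (hk a ha) (hk b hb)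
  rw [hG, Subgroup.mem_bot] at h1
  exact commutatorElement_eq_one_iff_mul_comm.1 h1

end Pool.Agent.H960Z.TM
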