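import Pool.Agent.H960Z.TM.Radix

/-! Strong Gröbner bases over `ℤ`, compatible with an integer weight. -/

set_option autoImplicit false

namespace Pool.Agent.H960Z.TM

open Function Filter

theorem stab {ι : Type} [Finite ι] (J : (ι → ℕ) → Ideal ℤ) (hJ : Monotone J) :
    ∃ C, ∀ C', C ≤ C' → ∀ a, J a = J (fun t => min (a t) C') := by
  suffices h : ∃ C, ∀ a, J a = J (fun t => min (a t) C) by
    obtain ⟨C, hC⟩ := h
    refine ⟨C, fun C' hC' a => ?_⟩
    rw [hC a, hC (fun t => min (a t) C')]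
    congr 1
    funext t
    omega
  by_contra h
  push Not at h
  choose a ha using h
  obtain ⟨φ, hφ⟩ := WellQuasiOrdered.exists_monotone_subseq
    (wellQuasiOrdered_le (α := ι → ℕ)) a
  obtain ⟨n, hn⟩ := (WellFoundedGT.monotone_chain_condition
    (⟨fun k => J (a (φ k)), fun i j hij => hJ (hφ i j hij)⟩ : ℕ →o Ideal ℤ))
  have := Fintype.ofFinite ι
  set m := max n (Finset.univ.sup (a (φ n))) with hm
  apply ha (φ m)
  apply le_antisymm
  · have h1 : J (a (φ n)) = J (a (φ m)) := hn m (le_max_left _ _)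
    rw [← h1]
    apply hJ
    intro t
    have h2 : a (φ n) t ≤ a (φ m) t := hφ n m (le_max_left _ _) t
    have h3 : a (φ n) t ≤ Finset.univ.sup (a (φ n)) := Finset.le_sup (Finset.mem_univ t)
    have h4 : m ≤ φ m := φ.strictMono.le_apply
    simp only [le_min_iff]
    omega
  · exact hJ fun t => min_le_left _ _

variable {r : ℕ}

/-- the term order: comparison of the weights for `hyperfilter`-most bases -/
def tlt (s : ℕ) (u v : Fin (r + 1) → ℕ) : Prop := ∀ᶠ K in hyperfilter ℕ, idx s K u < idx s K v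

theorem tlt_trans {s : ℕ} {u v w : Fin (r + 1) → ℕ} (h1 : tlt s u v) (h2 : tlt s v w) :
    tlt s u w := (h1.and h2).mono fun _ h => h.1.trans h.2

theorem tlt_add {s : ℕ} {u v : Fin (r + 1) → ℕ} (h : tlt s u v) (b : Fin (r + 1) → ℕ) :
    tlt s (u + b) (v + b) := h.mono fun K h => by rw [idx_add, idx_add]; omega

theorem ev_big (n : ℕ) : ∀ᶠ K in hyperfilter ℕ, n < K :=
  (eventually_gt_atTop n).filter_mono Nat.hyperfilter_le_atTop

theorem tlt_total {s : ℕ} {u v : Fin (r + 1) → ℕ} (hu : u 0 < s) (hv : v 0 < s) (h : u ≠ v) :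
    tlt s u v ∨ tlt s v u := by
  apply Ultrafilter.eventually_or.1
  refine (ev_big (Finset.univ.sup u + Finset.univ.sup v)).mono fun K hK => ?_
  have hb : ∀ w : Fin (r + 1) → ℕ, w 0 < s → Finset.univ.sup w < K → Box s K w := by
    intro w h0 h1 t
    unfold side
    split_ifs with ht
    · have : t = 0 := Fin.ext ht
      rwa [this]
    · exact lt_of_le_of_lt (Finset.le_sup (f := w) (Finset.mem_univ t)) h1
  have := mt (idx_inj (by omega) (by omega) (hb u hu (by omega)) (hb v hv (by omega))) h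
  omega

theorem tlt_wf (s : ℕ) : WellFounded (tlt (r := r) s) := by
  rw [wellFounded_iff_isEmpty_descending_chain]
  refine ⟨fun ⟨x, hx⟩ => ?_⟩
  obtain ⟨i, j, hij, h⟩ := wellQuasiOrdered_le (α := Fin (r + 1) → ℕ) x
  have : ∀ k, tlt s (x (i + 1 + k)) (x i) := by
    intro k
    induction k with
    | zero => exact hx i
    | succ k ih => exact tlt_trans (hx (i + 1 + k)) ih
  obtain ⟨k, rfl⟩ : ∃ k, j = i + 1 + k := ⟨j - (i + 1), by omega⟩
  obtain ⟨K, hK⟩ := (this k).exists
  exact absurd (idx_mono h) (not_le.2 hK)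

theorem tlt_max {s : ℕ} (T : Finset (Fin (r + 1) → ℕ)) (hT : T.Nonempty) (hv : ∀ u ∈ T, u 0 < s) :
    ∃ u ∈ T, ∀ v ∈ T, v = u ∨ tlt s v u := by
  induction hT using Finset.Nonempty.cons_induction with
  | singleton a => exact ⟨a, by simp, by simp⟩
  | cons a T ha hT ih =>
    obtain ⟨u, hu, h⟩ := ih fun u hu => hv u (by simp [hu])
    have hne : a ≠ u := by rintro rfl; exact ha hu
    rcases tlt_total (hv a (by simp)) (hv u (by simp [hu])) hne with h1 | h1
    · refine ⟨u, by simp [hu], fun v hv => ?_⟩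
      rcases Finset.mem_cons.1 hv with rfl | hv
      · exact Or.inr h1
      · exact h v hv
    · refine ⟨a, by simp, fun v hv => ?_⟩
      rcases Finset.mem_cons.1 hv with rfl | hv
      · exact Or.inl rfl
      · rcases h v hv with rfl | h2
        · exact Or.inr h1
        · exact Or.inr (tlt_trans h2 h1)

noncomputable def sh (b : Fin (r + 1) → ℕ) (f : (Fin (r + 1) → ℕ) →₀ ℤ) : (Fin (r + 1) → ℕ) →₀ ℤ :=
  f.mapDomain (· + b)

theorem sh_apply (b : Fin (r + 1) → ℕ) (f : (Fin (r + 1) → ℕ) →₀ ℤ) (u : Fin (r + 1) → ℕ) :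
    sh b f (u + b) = f u := Finsupp.mapDomain_apply (add_left_injective b) f u

theorem sh_ne {b : Fin (r + 1) → ℕ} {f : (Fin (r + 1) → ℕ) →₀ ℤ} {u : Fin (r + 1) → ℕ}
    (h : sh b f u ≠ 0) : ∃ v, f v ≠ 0 ∧ u = v + b := by
  by_cases hr : u ∈ Set.range (· + b)
  · obtain ⟨v, rfl⟩ := hr
    exact ⟨v, by rwa [sh_apply] at h, rfl⟩
  · exact absurd (Finsupp.mapDomain_notin_range _ _ hr) h

def base (C : ℕ) (u : Fin (r + 1) → ℕ) : Fin (r + 1) → ℕ := fun t => min (u t) C

theorem base_le (C : ℕ) (u : Fin (r + 1) → ℕ) : base C u ≤ u := fun _ => min_le_left _ _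

/-- the leading coefficient ideal -/
def lci (s : ℕ) (N : AddSubgroup ((Fin (r + 1) → ℕ) →₀ ℤ)) (u : Fin (r + 1) → ℕ) : Ideal ℤ where
  carrier := {c | ∃ f ∈ N, f u = c ∧ ∀ v, f v ≠ 0 → v = u ∨ tlt s v u}
  add_mem' := by
    rintro _ _ ⟨f, hf, rfl, h1⟩ ⟨g, hg, rfl, h2⟩
    refine ⟨f + g, N.add_mem hf hg, rfl, fun v hv => ?_⟩
    by_cases h : f v = 0
    · exact h2 v (by simpa [h] using hv)
    · exact h1 v h
  zero_mem' := ⟨0, N.zero_mem, rfl, by simp⟩
  smul_mem' := by
    rintro c _ ⟨f, hf, rfl, h1⟩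
    refine ⟨c • f, N.zsmul_mem hf c, rfl, fun v hv => h1 v ?_⟩
    intro h
    simp [h] at hv

theorem grob {s : ℕ} (hs : 0 < s) (N : AddSubgroup ((Fin (r + 1) → ℕ) →₀ ℤ))
    (hval : ∀ f ∈ N, ∀ u, f u ≠ 0 → u 0 < s)
    (hsh : ∀ f ∈ N, ∀ b : Fin (r + 1) → ℕ, b 0 = 0 → sh b f ∈ N) :
    ∃ (C K : ℕ) (g : (Fin (r + 1) → ℕ) → (Fin (r + 1) → ℕ) →₀ ℤ), s ≤ C ∧ 0 < K ∧
      (∀ u, g u ∈ N) ∧ (∀ u, 0 ≤ g u u) ∧ (∀ u, g u u = 0 → g u = 0) ∧
      (∀ u v, g (base C u) v ≠ 0 → v = base C u ∨ idx s K v < idx s K (base C u)) ∧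
      ∀ f ∈ N, ∀ u, (∀ v, f v ≠ 0 → idx s K v ≤ idx s K u) → g (base C u) (base C u) ∣ f u := by
  classical
  have hmono : ∀ u v : Fin (r + 1) → ℕ, u ≤ v → u 0 = v 0 → lci s N u ≤ lci s N v := by
    rintro u v huv h0 _ ⟨f, hf, rfl, h1⟩
    have e : v = u + (v - u) := (add_tsub_cancel_of_le huv).symm
    refine ⟨sh (v - u) f, hsh f hf _ (by simp [h0]), ?_, fun w hw => ?_⟩
    · conv_lhs => rw [e, add_tsub_cancel_left, sh_apply]
    · obtain ⟨w', h2, rfl⟩ := sh_ne hw
      rcases h1 w' h2 with rfl | h3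
      · exact Or.inl e.symm
      · right
        have := tlt_add h3 (v - u)
        rwa [← e] at this
  have hst := fun j : ℕ => stab (fun u : Fin (r + 1) → ℕ => lci s N (update u 0 j))
    (fun u v h => hmono _ _ (update_le_update_iff.2 ⟨le_rfl, fun t _ => h t⟩) (by simp))
  choose Cj hCj using hst
  set C := max s ((Finset.range s).sup Cj) with hC
  have hbase : ∀ u : Fin (r + 1) → ℕ, u 0 < s → lci s N u = lci s N (base C u) := by
    intro u hu
    have := hCj (u 0) C (le_max_of_le_right (Finset.le_sup (f := Cj) (Finset.mem_range.2 hu))) u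
    rw [update_eq_self] at this
    rw [this]
    congr 1
    refine update_eq_self_iff.2 ?_
    show u 0 = min (u 0) C
    omega
  have hg : ∀ u, ∃ g ∈ N, (∀ v, g v ≠ 0 → v = u ∨ tlt s v u) ∧ 0 ≤ g u ∧ (g u = 0 → g = 0) ∧
      ∀ c ∈ lci s N u, g u ∣ c := by
    intro u
    obtain ⟨d, hd⟩ := (IsPrincipalIdealRing.principal (lci s N u)).principal
    have hd' : ∀ c ∈ lci s N u, d ∣ c := by
      intro c hc
      rw [hd] at hc
      exact Ideal.mem_span_singleton.1 hc
    by_cases h0 : d = 0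
    · exact ⟨0, N.zero_mem, by simp, le_rfl, fun _ => rfl, fun c hc => by simpa [h0] using hd' c hc⟩
    · have : |d| ∈ lci s N u := by
        rw [hd]; exact Ideal.mem_span_singleton.2 (self_dvd_abs d)
      obtain ⟨f, hf, h1, h2⟩ := this
      refine ⟨f, hf, h2, h1 ▸ abs_nonneg d, fun h => ?_, fun c hc => ?_⟩
      · rw [h1] at h; exact absurd (abs_eq_zero.1 h) h0
      · rw [h1]; exact (abs_dvd _ _).2 (hd' c hc)
  choose g g1 g2 g3 g4 g5 using hg
  have hK : ∀ᶠ K in hyperfilter ℕ, 0 < K ∧ ∀ u ∈ Finset.Iic (fun _ : Fin (r + 1) => C),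
      ∀ v ∈ (g u).support, v = u ∨ idx s K v < idx s K u := by
    refine (ev_big 0).and ?_
    rw [eventually_all_finset]
    intro u _
    rw [eventually_all_finset]
    intro v hv
    rcases g2 u v (Finsupp.mem_support_iff.1 hv) with h | h
    · exact Eventually.of_forall fun _ => Or.inl h
    · exact h.mono fun _ h => Or.inr h
  obtain ⟨K, hK0, hK⟩ := hK.exists
  have hK' : ∀ u v, g (base C u) v ≠ 0 → v = base C u ∨ idx s K v < idx s K (base C u) :=
    fun u v h => hK _ (Finset.mem_Iic.2 fun _ => min_le_right _ _) v (Finsupp.mem_support_iff.2 h)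
  refine ⟨C, K, g, le_max_left _ _, hK0, g1, g3, g4, hK', ?_⟩
  let G : (Fin (r + 1) → ℕ) → (Fin (r + 1) → ℕ) →₀ ℤ := fun u => sh (u - base C u) (g (base C u))
  have G1 : ∀ u, G u u = g (base C u) (base C u) := by
    intro u
    have := sh_apply (u - base C u) (g (base C u)) (base C u)
    rwa [add_tsub_cancel_of_le (base_le C u)] at this
  have G2 : ∀ u v, G u v ≠ 0 → v = u ∨ (tlt s v u ∧ idx s K v < idx s K u) := by
    intro u v h
    obtain ⟨w, h1, rfl⟩ := sh_ne h
    have e := add_tsub_cancel_of_le (base_le C u)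
    by_cases hw : w = base C u
    · left; rw [hw, e]
    · right
      constructor
      · have := tlt_add ((g2 _ w h1).resolve_left hw) (u - base C u)
        rwa [e] at this
      · have := (hK' u w h1).resolve_left hw
        conv_rhs => rw [← e]
        rw [idx_add, idx_add]; omega
  have G3 : ∀ u, u 0 < s → G u ∈ N := fun u hu => hsh _ (g1 _) _ (by
    simp only [Pi.sub_apply, base]; omega)
  have hrep : ∀ u0, ∀ f ∈ N, (∀ v, f v ≠ 0 → v = u0 ∨ tlt s v u0) →
      ∃ q : (Fin (r + 1) → ℕ) →₀ ℤ, f = q.sum (fun u c => c • G u) ∧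
        ∀ u, q u ≠ 0 → g (base C u) (base C u) ≠ 0 := by
    intro u0
    induction u0 using (tlt_wf (r := r) s).induction with
    | _ u0 ih =>
    intro f hf hlt
    obtain ⟨c, hc1, hc2, hc3⟩ : ∃ c : ℤ, c • G u0 ∈ N ∧ f u0 = c * g (base C u0) (base C u0) ∧
        (c ≠ 0 → g (base C u0) (base C u0) ≠ 0) := by
      by_cases h0 : f u0 = 0
      · exact ⟨0, by simp, by simp [h0], by simp⟩
      · have hu := hval f hf u0 h0
        obtain ⟨c, hc⟩ := g5 (base C u0) (f u0) (hbase u0 hu ▸ ⟨f, hf, rfl, hlt⟩)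
        refine ⟨c, N.zsmul_mem (G3 u0 hu) c, by rw [hc, mul_comm], fun _ h => h0 ?_⟩
        rw [hc, h, zero_mul]
    have hf' : f - c • G u0 ∈ N := N.sub_mem hf hc1
    have hlt' : ∀ v, (f - c • G u0) v ≠ 0 → tlt s v u0 := by
      intro v hv
      have hne : v ≠ u0 := by
        rintro rfl
        apply hv
        simp [G1, hc2]
      by_cases h : f v = 0
      · have : G u0 v ≠ 0 := by intro h'; simp [h, h'] at hv
        exact ((G2 _ _ this).resolve_left hne).1
      · exact (hlt v h).resolve_left hne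
    obtain ⟨q, q1, q2⟩ : ∃ q : (Fin (r + 1) → ℕ) →₀ ℤ,
        f - c • G u0 = q.sum (fun u c => c • G u) ∧
        ∀ u, q u ≠ 0 → g (base C u) (base C u) ≠ 0 := by
      by_cases h0 : f - c • G u0 = 0
      · exact ⟨0, by simp [h0], by simp⟩
      · obtain ⟨u1, h1, h2⟩ := tlt_max (s := s) (f - c • G u0).support
          (Finsupp.support_nonempty_iff.2 h0)
          (fun u hu => hval _ hf' u (Finsupp.mem_support_iff.1 hu))
        exact ih u1 (hlt' u1 (Finsupp.mem_support_iff.1 h1)) _ hf'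
          (fun v hv => h2 v (Finsupp.mem_support_iff.2 hv))
    refine ⟨q + Finsupp.single u0 c, ?_, fun u hu => ?_⟩
    · rw [Finsupp.sum_add_index' (by simp) (fun _ _ _ => add_smul _ _ _),
        Finsupp.sum_single_index (by simp), ← q1]
      simp
    · by_cases h : q u = 0
      · by_cases h' : u = u0
        · subst h'; exact hc3 (by simpa [h] using hu)
        · simp [h, Finsupp.single_eq_of_ne h'] at hu
      · exact q2 u h
  intro f hf u hu
  by_cases h0 : f = 0
  · simp [h0]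
  obtain ⟨u1, -, h2⟩ := tlt_max (s := s) f.support (Finsupp.support_nonempty_iff.2 h0)
    (fun u hu => hval _ hf u (Finsupp.mem_support_iff.1 hu))
  obtain ⟨q, q1, q2⟩ := hrep u1 f hf (fun v hv => h2 v (Finsupp.mem_support_iff.2 hv))
  have key : ∀ v, (∀ w, q w ≠ 0 → idx s K w ≤ idx s K v) → f v = q v * g (base C v) (base C v) := by
    intro v hv
    rw [q1, Finsupp.sum_apply, Finsupp.sum, Finset.sum_eq_single v]
    · simp [G1]
    · intro w hw hne
      have := hv w (Finsupp.mem_support_iff.1 hw)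
      by_contra h
      have h' : G w v ≠ 0 := by intro h'; simp [h'] at h
      rcases G2 _ _ h' with h'' | h''
      · exact hne h''.symm
      · omega
    · intro h
      simp [Finsupp.notMem_support_iff.1 h]
  have hq : q.support.Nonempty := by
    rw [Finsupp.support_nonempty_iff]
    rintro rfl
    exact h0 (by simpa using q1)
  obtain ⟨w0, hw0, hmax⟩ := q.support.exists_max_image (idx s K) hq
  have h3 := key w0 (fun w hw => hmax w (Finsupp.mem_support_iff.2 hw))
  have h4 : f w0 ≠ 0 := by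
    rw [h3]
    exact mul_ne_zero (Finsupp.mem_support_iff.1 hw0) (q2 _ (Finsupp.mem_support_iff.1 hw0))
  rw [key u (fun w hw => (hmax w (Finsupp.mem_support_iff.2 hw)).trans (hu w0 h4))]
  exact Dvd.intro_left _ rfl

end Pool.Agent.H960Z.TM
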