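import Mathlib

/-! A small structured language for multi-stack machines, with exact step counts, compiled to
`Turing.TM2`. -/

set_option autoImplicit false

namespace Pool.Agent.H960Z.TM

open Function

inductive Prog (K Γ : Type) : Type
  | skip : Prog K Γ
  | push : K → Γ → Prog K Γ
  | seq : Prog K Γ → Prog K Γ → Prog K Γ
  | pop : K → (Option Γ → Prog K Γ) → Prog K Γ
  | loop : K → (Γ → Prog K Γ) → Prog K Γ

variable {K Γ : Type} [DecidableEq K]

abbrev St (K Γ : Type) := K → List Γ

inductive Run : Prog K Γ → St K Γ → St K Γ → ℕ → Prop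
  | skip (s : St K Γ) : Run .skip s s 1
  | push (k : K) (x : Γ) (s : St K Γ) : Run (.push k x) s (update s k (x :: s k)) 1
  | seq {p q : Prog K Γ} {s s' s'' : St K Γ} {a b : ℕ} :
      Run p s s' a → Run q s' s'' b → Run (.seq p q) s s'' (a + b)
  | pop {k : K} {f : Option Γ → Prog K Γ} {s s' : St K Γ} {a : ℕ} :
      Run (f (s k).head?) (update s k (s k).tail) s' a → Run (.pop k f) s s' (a + 1)
  | loop_nil {k : K} {f : Γ → Prog K Γ} {s : St K Γ} : s k = [] → Run (.loop k f) s s 1
  | loop_cons {k : K} {f : Γ → Prog K Γ} {s s' s'' : St K Γ} {x : Γ} {l : List Γ} {a b : ℕ} :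
      s k = x :: l → Run (f x) (update s k l) s' a → Run (.loop k f) s' s'' b →
      Run (.loop k f) s s'' (a + b + 1)

/-- program positions -/
def Pos : Prog K Γ → Type
  | .skip => Unit
  | .push _ _ => Unit
  | .seq p q => Pos p ⊕ Pos q
  | .pop _ f => Option (Σ o : Option Γ, Pos (f o))
  | .loop _ f => Option (Σ x : Γ, Pos (f x))

def entry : (p : Prog K Γ) → Pos p
  | .skip => ()
  | .push _ _ => ()
  | .seq p _ => Sum.inl (entry p)
  | .pop _ _ => none
  | .loop _ _ => none

omit [DecidableEq K] in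
theorem finite_pos [Finite Γ] : (p : Prog K Γ) → Finite (Pos p)
  | .skip => inferInstanceAs (Finite Unit)
  | .push _ _ => inferInstanceAs (Finite Unit)
  | .seq p q => by
      have := finite_pos p
      have := finite_pos q
      exact inferInstanceAs (Finite (Pos p ⊕ Pos q))
  | .pop _ f => by
      have := fun o => finite_pos (f o)
      exact inferInstanceAs (Finite (Option (Σ o : Option Γ, Pos (f o))))
  | .loop _ f => by
      have := fun o => finite_pos (f o)
      exact inferInstanceAs (Finite (Option (Σ o : Γ, Pos (f o))))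

open Turing.TM2 in
def code {Λ : Type} : (p : Prog K Γ) → (Pos p → Λ) → Λ → Pos p →
    Stmt (fun _ : K => Γ) Λ (Option Γ)
  | .skip, _, nxt, _ => .goto fun _ => nxt
  | .push k x, _, nxt, _ => .push k (fun _ => x) (.goto fun _ => nxt)
  | .seq p q, emb, _, Sum.inl a =>
      code p (fun a => emb (Sum.inl a)) (emb (Sum.inr (entry q))) a
  | .seq _ q, emb, nxt, Sum.inr b => code q (fun a => emb (Sum.inr a)) nxt b
  | .pop k f, emb, _, none =>
      .pop k (fun _ o => o) (.goto fun v => emb (some ⟨v, entry (f v)⟩))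
  | .pop _ f, emb, nxt, some ⟨o, a⟩ => code (f o) (fun a => emb (some ⟨o, a⟩)) nxt a
  | .loop k f, emb, nxt, none =>
      .pop k (fun _ o => o) (.goto fun v => match v with
        | none => nxt
        | some x => emb (some ⟨x, entry (f x)⟩))
  | .loop _ f, emb, _, some ⟨x, a⟩ => code (f x) (fun a => emb (some ⟨x, a⟩)) (emb none) a

open Turing.TM2 in
/-- the iterated step function -/
abbrev stp {Λ : Type} (M : Λ → Stmt (fun _ : K => Γ) Λ (Option Γ)) :
    Option (Cfg (fun _ : K => Γ) Λ (Option Γ)) → Option (Cfg (fun _ : K => Γ) Λ (Option Γ)) :=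
  fun d => d.bind (step M)

open Turing.TM2 in
theorem compile_ok {Λ : Type} (M : Λ → Stmt (fun _ : K => Γ) Λ (Option Γ))
    {p : Prog K Γ} {s s' : St K Γ} {t : ℕ} (h : Run p s s' t) :
    ∀ (emb : Pos p → Λ) (nxt : Λ), (∀ a, M (emb a) = code p emb nxt a) → ∀ v, ∃ v',
      (stp M)^[t] (some ⟨some (emb (entry p)), v, s⟩) = some ⟨some nxt, v', s'⟩ := by
  induction h with
  | skip s =>
    intro emb nxt hM v
    refine ⟨v, ?_⟩
    simp [stp, hM, code]
  | push k x s =>
    intro emb nxt hM v
    refine ⟨v, ?_⟩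
    simp [stp, hM, code]
  | @seq p q s s' s'' a b _ _ ih1 ih2 =>
    intro emb nxt hM v
    obtain ⟨v1, h1⟩ := ih1 (fun a => emb (Sum.inl a)) (emb (Sum.inr (entry q)))
      (fun a => hM (Sum.inl a)) v
    obtain ⟨v2, h2⟩ := ih2 (fun a => emb (Sum.inr a)) nxt (fun a => hM (Sum.inr a)) v1
    refine ⟨v2, ?_⟩
    rw [add_comm, Function.iterate_add_apply]
    exact (congrArg _ h1).trans h2
  | @pop k f s s' a _ ih =>
    intro emb nxt hM v
    obtain ⟨v1, h1⟩ := ih (fun a => emb (some ⟨(s k).head?, a⟩)) nxt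
      (fun a => hM (some ⟨_, a⟩)) (s k).head?
    refine ⟨v1, ?_⟩
    rw [Function.iterate_succ_apply, ← h1]
    congr 1
    have := hM none
    simp only [stp, entry, Option.bind_some, step, this, code, stepAux]
  | @loop_nil k f s hk =>
    intro emb nxt hM v
    refine ⟨none, ?_⟩
    have := hM none
    simp only [stp, entry, Function.iterate_one, Option.bind_some, step, this, code, stepAux, hk,
      List.head?_nil, List.tail_nil]
    rw [← hk, Function.update_eq_self]
  | @loop_cons k f s s' s'' x l a b hk _ _ ih1 ih2 =>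
    intro emb nxt hM v
    obtain ⟨v1, h1⟩ := ih1 (fun a => emb (some ⟨x, a⟩)) (emb none)
      (fun a => hM (some ⟨_, a⟩)) (some x)
    obtain ⟨v2, h2⟩ := ih2 emb nxt hM v1
    refine ⟨v2, ?_⟩
    rw [Function.iterate_succ_apply, add_comm, Function.iterate_add_apply]
    have := hM none
    have e : stp M (some ⟨some (emb (entry (Prog.loop k f))), v, s⟩) =
        some ⟨some (emb (some ⟨x, entry (f x)⟩)), some x, update s k l⟩ := by
      simp only [stp, entry, Option.bind_some, step, this, code, stepAux, hk,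
        List.head?_cons, List.tail_cons]
    rw [e]
    exact (congrArg _ h1).trans h2

/-- Hoare triple with cost -/
def Tri (p : Prog K Γ) (s : St K Γ) (Q : St K Γ → Prop) (c : ℕ) : Prop :=
  ∃ s' t, Run p s s' t ∧ t ≤ c ∧ Q s'

theorem Tri.mono {p : Prog K Γ} {s : St K Γ} {Q Q' : St K Γ → Prop} {c c' : ℕ}
    (h : Tri p s Q c) (hQ : ∀ s', Q s' → Q' s') (hc : c ≤ c') : Tri p s Q' c' := by
  obtain ⟨s', t, h1, h2, h3⟩ := h
  exact ⟨s', t, h1, h2.trans hc, hQ _ h3⟩

theorem Tri.cost {p : Prog K Γ} {s : St K Γ} {Q : St K Γ → Prop} {c c' : ℕ}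
    (h : Tri p s Q c) (hc : c ≤ c') : Tri p s Q c' := h.mono (fun _ h => h) hc

theorem Tri.post {p : Prog K Γ} {s : St K Γ} {Q Q' : St K Γ → Prop} {c : ℕ}
    (h : Tri p s Q c) (hQ : ∀ s', Q s' → Q' s') : Tri p s Q' c := h.mono hQ le_rfl

theorem Tri.skip {s : St K Γ} {Q : St K Γ → Prop} (h : Q s) : Tri .skip s Q 1 :=
  ⟨s, 1, .skip s, le_rfl, h⟩

theorem Tri.push {k : K} {x : Γ} {s : St K Γ} {Q : St K Γ → Prop}
    (h : Q (update s k (x :: s k))) : Tri (.push k x) s Q 1 :=
  ⟨_, 1, .push k x s, le_rfl, h⟩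

theorem Tri.seq {p q : Prog K Γ} {s : St K Γ} {Q : St K Γ → Prop} {a b : ℕ}
    (h : Tri p s (fun s' => Tri q s' Q b) a) : Tri (.seq p q) s Q (a + b) := by
  obtain ⟨s', t, h1, h2, s'', t', h3, h4, h5⟩ := h
  exact ⟨s'', t + t', .seq h1 h3, by omega, h5⟩

theorem Tri.seq' {p q : Prog K Γ} {s : St K Γ} {R Q : St K Γ → Prop} {a b : ℕ}
    (h : Tri p s R a) (h' : ∀ s', R s' → Tri q s' Q b) : Tri (.seq p q) s Q (a + b) :=
  Tri.seq (h.post h')

theorem Tri.pop {k : K} {f : Option Γ → Prog K Γ} {s : St K Γ} {Q : St K Γ → Prop} {a : ℕ}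
    (h : Tri (f (s k).head?) (update s k (s k).tail) Q a) : Tri (.pop k f) s Q (a + 1) := by
  obtain ⟨s', t, h1, h2, h3⟩ := h
  exact ⟨s', t + 1, .pop h1, by omega, h3⟩

/-- Loop rule, invariant indexed by the number of iterations done. -/
theorem Tri.loop {k : K} {f : Γ → Prog K Γ} (L : List Γ) (I : ℕ → St K Γ → Prop) (c : ℕ)
    (hstep : ∀ (i : ℕ) (hi : i < L.length) (s : St K Γ), I i s → s k = L.drop i →
      Tri (f L[i]) (update s k (L.drop (i + 1))) (fun s' => I (i + 1) s' ∧ s' k = L.drop (i + 1)) c)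
    (s : St K Γ) (h0 : I 0 s) (hk : s k = L) :
    Tri (.loop k f) s (fun s' => I L.length s' ∧ s' k = []) (L.length * (c + 1) + 1) := by
  have key : ∀ (j i : ℕ), i + j = L.length → ∀ s, I i s → s k = L.drop i →
      Tri (.loop k f) s (fun s' => I L.length s' ∧ s' k = []) (j * (c + 1) + 1) := by
    intro j
    induction j with
    | zero =>
      intro i hi s hI hs
      have hi' : i = L.length := by omega
      subst hi'
      have hs' : s k = [] := by simpa using hs
      exact ⟨s, 1, .loop_nil hs', by simp, hI, hs'⟩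
    | succ j ih =>
      intro i hi s hI hs
      have hlt : i < L.length := by omega
      obtain ⟨s1, t1, r1, c1, I1, k1⟩ := hstep i hlt s hI hs
      obtain ⟨s2, t2, r2, c2, I2⟩ := ih (i + 1) (by omega) s1 I1 k1
      refine ⟨s2, t1 + t2 + 1, .loop_cons (x := L[i]) (l := L.drop (i + 1)) ?_ r1 r2, ?_, I2⟩
      · rw [hs, List.drop_eq_getElem_cons hlt]
      · nlinarith
  exact key L.length 0 (by simp) s h0 (by simpa using hk)

/-- deterministic specification -/
def Ok (p : Prog K Γ) (s s' : St K Γ) (c : ℕ) : Prop := Tri p s (fun x => x = s') c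

theorem Ok.tri {p : Prog K Γ} {s s' : St K Γ} {c : ℕ} (h : Ok p s s' c) {Q : St K Γ → Prop}
    (hQ : Q s') : Tri p s Q c := Tri.post h (fun _ e => e ▸ hQ)

theorem Ok.then {p q : Prog K Γ} {s s' : St K Γ} {Q : St K Γ → Prop} {a b : ℕ}
    (h : Ok p s s' a) (h' : Tri q s' Q b) : Tri (.seq p q) s Q (a + b) :=
  Tri.seq (h.tri h')

/-- sequence of a list of programs -/
def seqL : List (Prog K Γ) → Prog K Γ
  | [] => .skip
  | p :: l => .seq p (seqL l)

theorem Tri.seqL {ι : Type} (L : List ι) (f : ι → Prog K Γ) (I : ℕ → St K Γ → Prop) (c : ℕ)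
    (hstep : ∀ (i : ℕ) (hi : i < L.length) (s : St K Γ), I i s → Tri (f L[i]) s (I (i + 1)) c)
    (s : St K Γ) (h0 : I 0 s) :
    Tri (seqL (L.map f)) s (I L.length) (L.length * c + 1) := by
  induction L generalizing I s with
  | nil => simpa [TM.seqL] using Tri.skip h0
  | cons x L ih =>
    have h1 := hstep 0 (by simp) s h0
    have := Tri.seq' h1 (fun s' hs' => ih (fun i => I (i + 1))
      (fun i hi s hs => hstep (i + 1) (by simpa using hi) s hs) s' hs')
    refine Tri.cost this (le_of_eq ?_)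
    simp only [List.length_cons]; ring

/-- `n`-fold repetition -/
def rep (n : ℕ) (p : Prog K Γ) : Prog K Γ := seqL ((List.range n).map fun _ => p)

theorem Tri.rep (n : ℕ) (p : Prog K Γ) (I : ℕ → St K Γ → Prop) (c : ℕ)
    (hstep : ∀ (i : ℕ), i < n → ∀ (s : St K Γ), I i s → Tri p s (I (i + 1)) c)
    (s : St K Γ) (h0 : I 0 s) : Tri (rep n p) s (I n) (n * c + 1) := by
  have := Tri.seqL (List.range n) (fun _ => p) I c
    (fun i hi s hs => hstep i (by simpa using hi) s hs) s h0
  rw [List.length_range] at this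
  exact this

open Turing.TM2 in
/-- Compile a program: it accepts iff the stack `bad` is empty at the end. -/
theorem machine_of {X : Type} [Fintype K] [Fintype Γ] (p : Prog K Γ) (k0 bad : K) (enc : X → Γ)
    (P : List X → Prop) (c : List X → ℕ)
    (h : ∀ w, Tri p (update (fun _ => []) k0 (w.map enc)) (fun s => s bad = [] ↔ P w) (c w)) :
    ∃ (Λ : Type) (_ : Inhabited Λ) (_ : Fintype Λ)
      (M : Λ → Stmt (fun _ : K => Γ) Λ (Option Γ)) (acc : Option Γ → Bool) (T : List X → ℕ),
      (∀ w : List X,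
        (∃ d : Cfg (fun _ : K => Γ) Λ (Option Γ),
          (fun d : Option (Cfg (fun _ : K => Γ) Λ (Option Γ)) => d.bind (step M))^[T w]
              (some (init k0 (w.map enc))) = some d ∧ d.l = none ∧ (acc d.var = true ↔ P w)) ∧
        (∀ t < T w, ∀ d : Cfg (fun _ : K => Γ) Λ (Option Γ),
          (fun d : Option (Cfg (fun _ : K => Γ) Λ (Option Γ)) => d.bind (step M))^[t]
              (some (init k0 (w.map enc))) = some d → d.l ≠ none)) ∧
      ∀ w, T w ≤ c w + 1 := by
  classical
  have := finite_pos p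
  let Λ := Option (Pos p)
  let M : Λ → Stmt (fun _ : K => Γ) Λ (Option Γ) := fun l => match l with
    | none => .pop bad (fun _ o => o) .halt
    | some a => code p some none a
  choose s' t hr hc hP using h
  letI : Inhabited Λ := ⟨some (entry p)⟩
  refine ⟨Λ, inferInstance, Fintype.ofFinite _, M, Option.isNone, fun w => t w + 1, ?_,
    fun w => by have := hc w; simpa using this⟩
  intro w
  obtain ⟨v', hv⟩ := compile_ok M (hr w) some none (fun a => rfl) default
  have hfin : (stp M)^[t w + 1] (some (init k0 (w.map enc))) =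
      some ⟨none, (s' w bad).head?, update (s' w) bad (s' w bad).tail⟩ := by
    rw [Function.iterate_succ_apply']
    have : (init k0 (w.map enc) : Cfg (fun _ : K => Γ) Λ (Option Γ)) =
      ⟨some (some (entry p)), default, update (fun _ => []) k0 (w.map enc)⟩ := rfl
    rw [this, hv]
    simp [stp, M]
  refine ⟨⟨_, hfin, rfl, ?_⟩, ?_⟩
  · have := hP w
    simp only at this
    rw [← this]
    cases s' w bad <;> simp
  · intro t' ht' d hd hl
    simp only at ht'
    obtain ⟨e, he⟩ : ∃ e, t w + 1 = e + 1 + t' := ⟨t w - t', by omega⟩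
    rw [he, Function.iterate_add_apply] at hfin
    change (stp M)^[t'] _ = _ at hd
    rw [hd, Function.iterate_succ_apply] at hfin
    obtain ⟨l, v, S⟩ := d
    simp only at hl
    subst hl
    have : stp M (some ⟨none, v, S⟩) = none := rfl
    rw [this, Function.iterate_fixed (by rfl)] at hfin
    cases hfin

end Pool.Agent.H960Z.TM
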