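import Pool.Agent.H960Z.TM.Rho

/-! Random walk estimates: moments of the maximum, and anti-concentration. -/

set_option autoImplicit false

namespace Pool.Agent.H960Z.TM

open Function Finset

variable {X : Type} [Fintype X]

noncomputable def sumW (n : ℕ) (φ : List X → ℝ) : ℝ := ∑ v : Fin n → X, φ (List.ofFn v)

theorem sumW_zero (φ : List X → ℝ) : sumW 0 φ = φ [] := by simp [sumW]

theorem sumW_succ (n : ℕ) (φ : List X → ℝ) :
    sumW (n + 1) φ = ∑ x, sumW n fun w => φ (x :: w) := by
  unfold sumW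
  rw [← Fintype.sum_prod_type', ← (Fin.consEquiv fun _ : Fin (n + 1) => X).sum_comp]
  refine Finset.sum_congr rfl fun p _ => ?_
  simp [Fin.consEquiv, List.ofFn_succ]

theorem sumW_mono {n : ℕ} {φ ψ : List X → ℝ} (h : ∀ w, w.length = n → φ w ≤ ψ w) :
    sumW n φ ≤ sumW n ψ := Finset.sum_le_sum fun v _ => h _ (by simp)

theorem sumW_add (n : ℕ) (φ ψ : List X → ℝ) :
    sumW n (fun w => φ w + ψ w) = sumW n φ + sumW n ψ := Finset.sum_add_distrib

theorem sumW_mul (n : ℕ) (c : ℝ) (φ : List X → ℝ) :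
    sumW n (fun w => c * φ w) = c * sumW n φ := (Finset.mul_sum _ _ _).symm

theorem sumW_sum {ι : Type} (T : Finset ι) (n : ℕ) (φ : ι → List X → ℝ) :
    sumW n (fun w => ∑ i ∈ T, φ i w) = ∑ i ∈ T, sumW n (φ i) := Finset.sum_comm

theorem sumW_comm (a b : ℕ) (φ : List X → List X → ℝ) :
    sumW a (fun u => sumW b (φ u)) = sumW b (fun w => sumW a (fun u => φ u w)) := Finset.sum_comm

theorem sumW_split (a b : ℕ) (φ : List X → ℝ) :
    sumW (a + b) φ = sumW a fun u => sumW b fun w => φ (u ++ w) := by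
  induction a generalizing φ with
  | zero => simp [sumW_zero]
  | succ a ih =>
    rw [show a + 1 + b = a + b + 1 by ring, sumW_succ, sumW_succ]
    simp only [ih, List.cons_append]

omit [Fintype X] in
theorem mx_append (y : X → ℤ) (u w : List X) : mx y (u ++ w) ≤ mx y u + mx y w := by
  induction u with
  | nil => simp [mx]
  | cons x u ih => simp only [List.cons_append, mx]; omega

theorem cosh_mx (y : X → ℤ) (σ : X ≃ X) (hσ : ∀ x, y (σ x) = -y x) (b : ℕ)
    (hb : ∀ x, (y x).natAbs ≤ b) (l : ℝ) (hl : 0 ≤ l) (n : ℕ) :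
    sumW n (fun w => Real.cosh (l * mx y w)) ≤ (Fintype.card X * Real.cosh (l * b)) ^ n := by
  induction n with
  | zero => simp [sumW_zero, mx]
  | succ n ih =>
    rw [sumW_succ]
    have h1 : ∑ x, Real.sinh (l * y x) = 0 := by
      have := σ.sum_comp fun x => Real.sinh (l * y x)
      simp only [hσ, Int.cast_neg, mul_neg, Real.sinh_neg, Finset.sum_neg_distrib] at this
      linarith
    have h2 : ∑ x, Real.cosh (l * y x) ≤ Fintype.card X * Real.cosh (l * b) := by
      rw [← nsmul_eq_mul, ← Finset.card_univ]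
      refine Finset.sum_le_card_nsmul _ _ _ fun x _ => ?_
      rw [Real.cosh_le_cosh, abs_mul, abs_mul]
      refine mul_le_mul_of_nonneg_left ?_ (abs_nonneg _)
      have := hb x
      rw [← Int.cast_abs, Nat.abs_cast]
      have : |y x| ≤ (b : ℤ) := by rw [Int.abs_eq_natAbs]; exact_mod_cast this
      exact_mod_cast this
    calc ∑ x, sumW n (fun w => Real.cosh (l * mx y (x :: w)))
        ≤ ∑ x, (Real.cosh (l * y x) * sumW n (fun w => Real.cosh (l * mx y w)) +
          Real.sinh (l * y x) * sumW n (fun w => Real.sinh (l * mx y w))) := by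
          refine Finset.sum_le_sum fun x _ => ?_
          rw [← sumW_mul, ← sumW_mul, ← sumW_add]
          refine sumW_mono fun w _ => ?_
          rw [← Real.cosh_add, ← mul_add]
          simp only [mx]
          by_cases h : 0 ≤ y x + mx y w
          · have : (((y x + mx y w).toNat : ℕ) : ℝ) = y x + mx y w := by
              rw [← Int.cast_natCast, Int.toNat_of_nonneg h]; push_cast; ring
            rw [this]
          · rw [Int.toNat_of_nonpos (by omega)]
            simpa using Real.one_le_cosh _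
      _ = (∑ x, Real.cosh (l * y x)) * sumW n (fun w => Real.cosh (l * mx y w)) := by
          rw [Finset.sum_add_distrib, ← Finset.sum_mul, ← Finset.sum_mul, h1]; ring
      _ ≤ _ := by
          rw [pow_succ']
          exact mul_le_mul h2 ih (Finset.sum_nonneg fun _ _ => (Real.cosh_pos _).le) (by positivity)

theorem mom_mx (y : X → ℤ) (σ : X ≃ X) (hσ : ∀ x, y (σ x) = -y x) (b : ℕ)
    (hb : ∀ x, (y x).natAbs ≤ b) (p n N : ℕ) (hn : n ≤ N) :
    sumW n (fun w => (mx y w : ℝ) ^ p) ≤
      (2 * p.factorial * Real.exp (b ^ 2 / 2)) * √(N + 1) ^ p * Fintype.card X ^ n := by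
  set q := √((N : ℝ) + 1) with hq
  have hq0 : 0 < q := Real.sqrt_pos.2 (by positivity)
  have hq2 : q ^ 2 = N + 1 := Real.sq_sqrt (by positivity)
  have h1 := cosh_mx y σ hσ b hb q⁻¹ (by positivity) n
  have h2 : Real.cosh (q⁻¹ * b) ^ n ≤ Real.exp (b ^ 2 / 2) := by
    refine (pow_le_pow_left₀ (Real.cosh_pos _).le (Real.cosh_le_exp_half_sq _) n).trans ?_
    rw [← Real.exp_nat_mul, Real.exp_le_exp, mul_pow, inv_pow, hq2]
    have : (n : ℝ) * ((N : ℝ) + 1)⁻¹ ≤ 1 := by
      rw [← div_eq_mul_inv, div_le_one (by positivity)]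
      have : (n : ℝ) ≤ N := by exact_mod_cast hn
      linarith
    nlinarith [sq_nonneg (b : ℝ)]
  calc sumW n (fun w => (mx y w : ℝ) ^ p)
      ≤ sumW n (fun w => (2 * p.factorial * q ^ p) * Real.cosh (q⁻¹ * mx y w)) := by
        refine sumW_mono fun w _ => ?_
        have h3 := Real.pow_div_factorial_le_exp (q⁻¹ * mx y w) (by positivity) p
        have h4 : Real.exp (q⁻¹ * mx y w) ≤ 2 * Real.cosh (q⁻¹ * mx y w) := by
          rw [Real.cosh_eq]; linarith [Real.exp_pos (-(q⁻¹ * mx y w))]
        rw [div_le_iff₀ (by positivity), mul_pow, inv_pow, inv_mul_le_iff₀ (by positivity)] at h3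
        refine h3.trans ?_
        have : q ^ p * (Real.exp (q⁻¹ * mx y w) * p.factorial) ≤
          q ^ p * (2 * Real.cosh (q⁻¹ * mx y w) * p.factorial) := by gcongr
        linarith
    _ ≤ (2 * p.factorial * q ^ p) * (Fintype.card X ^ n * Real.exp (b ^ 2 / 2)) := by
        rw [sumW_mul]
        refine mul_le_mul_of_nonneg_left (h1.trans ?_) (by positivity)
        rw [mul_pow]; gcongr
    _ = _ := by ring

section anti

variable {A : Type} [AddCommGroup A]

noncomputable def tau (a : A) : Module.End ℝ (A → ℝ) := LinearMap.funLeft ℝ ℝ (· + a)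

theorem tau_apply (a : A) (φ : A → ℝ) (x : A) : tau a φ x = φ (x + a) := rfl

theorem tau_mul (a b : A) : tau a * tau b = tau (a + b) := by
  ext φ x; simp [tau_apply, add_assoc]

theorem tau_comm (a b : A) : Commute (tau a) (tau b) := by
  rw [Commute, SemiconjBy, tau_mul, tau_mul, add_comm]

theorem tau_pow (a : A) (n : ℕ) : tau a ^ n = tau (n • a) := by
  induction n with
  | zero => ext φ x; simp [tau_apply]
  | succ n ih => rw [pow_succ, ih, tau_mul, succ_nsmul]

noncomputable def Top (T : Finset X) (v : X → A) : Module.End ℝ (A → ℝ) := ∑ x ∈ T, tau (v x)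

omit [Fintype X] in
theorem Top_apply (T : Finset X) (v : X → A) (φ : A → ℝ) (a : A) :
    Top T v φ a = ∑ x ∈ T, φ (a + v x) := by
  simp [Top, LinearMap.sum_apply, Finset.sum_apply, tau_apply]

omit [Fintype X] in
theorem Top_comm (T T' : Finset X) (v : X → A) : Commute (Top T v) (Top T' v) :=
  Commute.sum_left _ _ _ fun _ _ => Commute.sum_right _ _ _ fun _ _ => tau_comm _ _

omit [Fintype X] in
theorem Top_pow_mono (T : Finset X) (v : X → A) (n : ℕ) {φ ψ : A → ℝ} (h : φ ≤ ψ) :
    (Top T v ^ n) φ ≤ (Top T v ^ n) ψ := by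
  induction n with
  | zero => simpa using h
  | succ n ih =>
    intro a
    rw [pow_succ', Module.End.mul_apply, Module.End.mul_apply, Top_apply, Top_apply]
    exact Finset.sum_le_sum fun x _ => ih _

omit [Fintype X] in
theorem Top_pow_le (T : Finset X) (v : X → A) (n : ℕ) {φ : A → ℝ} {c : ℝ} (h : ∀ a, φ a ≤ c)
    (a : A) : (Top T v ^ n) φ a ≤ T.card ^ n * c := by
  induction n generalizing a with
  | zero => simpa using h a
  | succ n ih =>
    rw [pow_succ', Module.End.mul_apply, Top_apply]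
    refine (Finset.sum_le_card_nsmul _ _ _ fun x _ => ih _).trans (le_of_eq ?_)
    rw [nsmul_eq_mul]; ring

theorem sumW_Top (v : X → A) (φ : A → ℝ) (n : ℕ) (a : A) :
    sumW n (fun w => φ (a + (w.map v).sum)) = (Top univ v ^ n) φ a := by
  induction n generalizing a with
  | zero => simp [sumW_zero]
  | succ n ih =>
    rw [sumW_succ, pow_succ', Module.End.mul_apply, Top_apply]
    refine Finset.sum_congr rfl fun x _ => ?_
    rw [← ih]
    simp [add_assoc]

theorem le_of_sq_le_sq' {a b : ℝ} (h : a ^ 2 ≤ b ^ 2) (hb : 0 ≤ b) : a ≤ b :=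
  (abs_le_of_sq_le_sq' h hb).2

theorem central_sq (n : ℕ) : (Nat.centralBinom n) ^ 2 * (2 * n + 1) ≤ 16 ^ n := by
  induction n with
  | zero => simp
  | succ n ih =>
    have h := Nat.succ_mul_centralBinom_succ n
    have h1 : ((n + 1) * Nat.centralBinom (n + 1)) ^ 2 * (2 * (n + 1) + 1) ≤
        (n + 1) ^ 2 * 16 ^ (n + 1) := by
      rw [h]
      calc (2 * (2 * n + 1) * n.centralBinom) ^ 2 * (2 * (n + 1) + 1)
          = (4 * ((2 * n + 1) * (2 * n + 3))) * (n.centralBinom ^ 2 * (2 * n + 1)) := by ring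
        _ ≤ (16 * (n + 1) ^ 2) * 16 ^ n := Nat.mul_le_mul (by nlinarith) ih
        _ = _ := by ring
    rw [mul_pow, mul_assoc] at h1
    exact Nat.le_of_mul_le_mul_left h1 (by positivity)

theorem choose_sq (N t : ℕ) : (N.choose t) ^ 2 * (N + 1) ≤ 2 * 4 ^ N := by
  obtain ⟨n, rfl | rfl⟩ := Nat.even_or_odd' N
  · have h1 := Nat.choose_le_centralBinom t n
    have h2 := central_sq n
    have h3 : (16 : ℕ) ^ n = 4 ^ (2 * n) := by rw [pow_mul]; norm_num
    have : ((2 * n).choose t) ^ 2 * (2 * n + 1) ≤ n.centralBinom ^ 2 * (2 * n + 1) := by gcongr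
    omega
  · have h1 : (2 * n + 1).choose t ≤ 2 * n.centralBinom := by
      cases t with
      | zero => have := Nat.centralBinom_pos n; simp; omega
      | succ t =>
        rw [Nat.choose_succ_succ]
        have := Nat.choose_le_centralBinom t n
        have := Nat.choose_le_centralBinom (t + 1) n
        simp only [Nat.succ_eq_add_one]; omega
    have h2 := central_sq n
    have h3 : (16 : ℕ) ^ n * 4 = 4 ^ (2 * n + 1) := by rw [pow_succ, pow_mul]; norm_num
    have : ((2 * n + 1).choose t) ^ 2 * (2 * n + 1 + 1) ≤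
      (2 * n.centralBinom) ^ 2 * (2 * (2 * n + 1)) := by gcongr; omega
    nlinarith

theorem choose_le_am (N t : ℕ) (q : ℝ) (hq : 0 < q) :
    (N.choose t : ℝ) ≤ 2 ^ N * (q / (N + 1) + 1 / q) := by
  have h : ((N.choose t : ℝ)) ^ 2 * (N + 1) ≤ 2 * 4 ^ N := by exact_mod_cast choose_sq N t
  have h4 : (4 : ℝ) ^ N = (2 ^ N) ^ 2 := by rw [← pow_mul, mul_comm, pow_mul]; norm_num
  refine le_of_sq_le_sq' ?_ (by positivity)
  rw [mul_pow, ← h4]
  have h1 : 4 / ((N : ℝ) + 1) ≤ (q / (N + 1) + 1 / q) ^ 2 := by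
    have : 4 / ((N : ℝ) + 1) = 4 * (q / (N + 1)) * (1 / q) := by field_simp
    rw [this]; nlinarith [sq_nonneg (q / (N + 1) - 1 / q)]
  have h2 : (N.choose t : ℝ) ^ 2 ≤ 4 ^ N * (4 / (N + 1)) := by
    rw [← mul_div_assoc, le_div_iff₀ (by positivity)]
    have : (0 : ℝ) ≤ 4 ^ N := by positivity
    linarith
  exact h2.trans (mul_le_mul_of_nonneg_left h1 (by positivity))

theorem gamma_le (l k : ℕ) :
    ∑ N ∈ range (l + 1), (l.choose N : ℝ) * (2 ^ N * (√(l + 1) / (N + 1) + 1 / √(l + 1))) *
      k ^ (l - N) ≤ (k + 3) * (k + 2) ^ l / √(l + 1) := by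
  set q := √((l : ℝ) + 1) with hq
  have hq0 : 0 < q := Real.sqrt_pos.2 (by positivity)
  have hq2 : q * q = l + 1 := Real.mul_self_sqrt (by positivity)
  have h1 : ∑ N ∈ range (l + 1), (l.choose N : ℝ) * 2 ^ N * k ^ (l - N) = (k + 2) ^ l := by
    rw [add_comm (k : ℝ), add_pow]
    exact Finset.sum_congr rfl fun N _ => by ring
  have h2 : ∑ N ∈ range (l + 1), ((l + 1).choose (N + 1) : ℝ) * 2 ^ N * k ^ (l - N) ≤
      (k + 2) ^ (l + 1) := by
    rw [add_comm (k : ℝ), add_pow, Finset.sum_range_succ' _ (l + 1)]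
    refine le_add_of_le_of_nonneg (Finset.sum_le_sum fun N _ => ?_) (by positivity)
    rw [Nat.add_sub_add_right, pow_succ]
    have : (0 : ℝ) ≤ ((l + 1).choose (N + 1) : ℝ) * 2 ^ N * k ^ (l - N) := by positivity
    linarith
  have h3 : ∀ N ∈ range (l + 1), (l.choose N : ℝ) * (2 ^ N * (q / (N + 1) + 1 / q)) * k ^ (l - N) =
      (((l + 1).choose (N + 1) : ℝ) * 2 ^ N * k ^ (l - N) + (l.choose N : ℝ) * 2 ^ N * k ^ (l - N)) / q := by
    intro N _
    have h : ((l : ℝ) + 1) * l.choose N = (l + 1).choose (N + 1) * (N + 1) := by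
      exact_mod_cast Nat.add_one_mul_choose_eq l N
    have : ((l + 1).choose (N + 1) : ℝ) = q * q * l.choose N / (N + 1) := by
      rw [hq2, h]; field_simp
    rw [this]; field_simp
  rw [Finset.sum_congr rfl h3, ← Finset.sum_div, Finset.sum_add_distrib, h1]
  refine div_le_div_of_nonneg_right ?_ hq0.le
  rw [pow_succ] at h2
  linarith

open Classical in
noncomputable def ind (H : AddSubgroup A) : A → ℝ := fun a => if a ∈ H then 1 else 0

theorem anti_step (v : X → A) (σ : X ≃ X) (hσ : ∀ x, v (σ x) = -v x) (hσ' : ∀ x, σ x ≠ x) (x : X)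
    (H H' : AddSubgroup A) (hH : H ≤ H') (hx : v x ∈ H') (hi : ∀ t : ℤ, t • v x ∈ H → t = 0)
    (j l : ℕ) (c : ℝ) (hc0 : 0 ≤ c) (hc : ∀ a, (Top univ v ^ j) (ind H') a ≤ c) (a : A) :
    (Top univ v ^ (j + l)) (ind H) a ≤
      (Fintype.card X + 1) * Fintype.card X ^ l / √(l + 1) * c := by
  classical
  set q := √((l : ℝ) + 1) with hq
  have hq0 : 0 < q := Real.sqrt_pos.2 (by positivity)
  set T := (univ : Finset X) \ {x, σ x} with hT
  have hcard : Fintype.card X = T.card + 2 := by
    have h1 : ({x, σ x} : Finset X).card = 2 := Finset.card_pair (hσ' x).symm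
    have h2 := Finset.card_sdiff_add_card_eq_card (Finset.subset_univ ({x, σ x} : Finset X))
    rw [h1, Finset.card_univ, ← hT] at h2
    omega
  have e1 : Top univ v = Top {x, σ x} v + Top T v := by
    rw [Top, ← Finset.sum_sdiff (Finset.subset_univ ({x, σ x} : Finset X)), add_comm]; rfl
  have hU : ∀ N : ℕ, (Top {x, σ x} v ^ N) (ind H) ≤ (2 ^ N * (q / (N + 1) + 1 / q)) • ind H' := by
    intro N a
    rw [Top, Finset.sum_pair (hσ' x).symm, (tau_comm _ _).add_pow, LinearMap.sum_apply,
      Finset.sum_apply]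
    simp only [tau_pow, tau_mul, hσ, Module.End.mul_apply, Module.End.natCast_apply, map_nsmul,
      Pi.smul_apply, tau_apply, smul_eq_mul]
    simp only [nsmul_eq_mul]
    by_cases h : ∃ t ∈ range (N + 1), a + (t • v x + (N - t) • -v x) ∈ H
    · obtain ⟨t, ht, h⟩ := h
      have ha : a ∈ H' := by
        have := H'.sub_mem (hH h) (H'.add_mem (H'.nsmul_mem hx t) (H'.nsmul_mem (H'.neg_mem hx) (N - t)))
        simpa using this
      rw [Finset.sum_eq_single_of_mem t ht]
      · simp only [ind, if_pos h, if_pos ha, mul_one]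
        exact choose_le_am N t q hq0
      · intro t' ht' hne
        rw [ind, if_neg, mul_zero]
        intro h'
        have h1 := H.sub_mem h' h
        have h2 : a + (t' • v x + (N - t') • -v x) - (a + (t • v x + (N - t) • -v x)) =
            (2 * ((t' : ℤ) - t)) • v x := by
          have a1 : t ≤ N := Nat.lt_succ_iff.1 (Finset.mem_range.1 ht)
          have a2 : t' ≤ N := Nat.lt_succ_iff.1 (Finset.mem_range.1 ht')
          simp only [← natCast_zsmul, Nat.cast_sub a1, Nat.cast_sub a2]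
          module
        rw [h2] at h1
        have := hi _ h1
        omega
    · push Not at h
      rw [Finset.sum_eq_zero fun t ht => by rw [ind, if_neg (h t ht), mul_zero]]
      have : 0 ≤ ind H' a := by unfold ind; split_ifs <;> norm_num
      positivity
  have hc1 : ∀ N k, Top univ v ^ j * (Top {x, σ x} v ^ N * Top T v ^ k) =
      Top T v ^ k * (Top univ v ^ j * Top {x, σ x} v ^ N) := by
    intro N k
    rw [← mul_assoc]
    exact (Commute.mul_left ((Top_comm _ _ _).pow_pow _ _) ((Top_comm _ _ _).pow_pow _ _)).eq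
  rw [pow_add]
  conv_lhs => rw [show Top univ v ^ l = (Top {x, σ x} v + Top T v) ^ l by rw [← e1],
    (Top_comm _ _ _).add_pow, Finset.mul_sum, LinearMap.sum_apply, Finset.sum_apply]
  have hg := gamma_le l T.card
  rw [hcard]
  push_cast
  rw [show (T.card : ℝ) + 2 + 1 = T.card + 3 by ring]
  refine le_trans ?_ (mul_le_mul_of_nonneg_right hg hc0)
  rw [Finset.sum_mul]
  refine Finset.sum_le_sum fun N _ => ?_
  rw [← mul_assoc, hc1, Module.End.mul_apply, Module.End.natCast_apply, map_nsmul, Pi.smul_apply,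
    nsmul_eq_mul, Module.End.mul_apply, Module.End.mul_apply]
  have h1 : ∀ a, (Top univ v ^ j) ((Top {x, σ x} v ^ N) (ind H)) a ≤
      (2 ^ N * (q / (N + 1) + 1 / q)) * c := by
    intro a
    refine (Top_pow_mono _ _ j (hU N) a).trans ?_
    rw [map_smul, Pi.smul_apply, smul_eq_mul]
    exact mul_le_mul_of_nonneg_left (hc a) (by positivity)
  have h2 := Top_pow_le T v (l - N) h1 a
  refine (mul_le_mul_of_nonneg_left h2 (by positivity)).trans (le_of_eq ?_)
  ring

theorem anti_chain (v : X → A) (σ : X ≃ X) (hσ : ∀ x, v (σ x) = -v x) (hσ' : ∀ x, σ x ≠ x)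
    (l : ℕ) (j : ℕ) : ∀ (x : Fin j → X) (H : AddSubgroup A),
    (∀ t : Fin j → ℤ, ∑ k, t k • v (x k) ∈ H → t = 0) → ∀ (n : ℕ) (a : A),
    (Top univ v ^ (n + j * l)) (ind H) a ≤
      ((Fintype.card X + 1) / √(l + 1)) ^ j * Fintype.card X ^ (n + j * l) := by
  induction j with
  | zero =>
    intro x H _ n a
    have := Top_pow_le univ v n (φ := ind H) (c := 1) (fun a => by unfold ind; split_ifs <;> norm_num) a
    simpa using this
  | succ j ih =>
    intro x H hH n a
    have h1 := ih (fun k => x k.succ) (H ⊔ AddSubgroup.zmultiples (v (x 0))) (by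
      intro t ht
      obtain ⟨h, hh, _, ⟨z, rfl⟩, e⟩ := AddSubgroup.mem_sup.1 ht
      have := hH (Fin.cons (-z) t) (by
        rw [Fin.sum_univ_succ]
        simp only [Fin.cons_zero, Fin.cons_succ, ← e]
        simpa using hh)
      funext k
      simpa using congrFun this k.succ) n
    have h2 := anti_step v σ hσ hσ' (x 0) H (H ⊔ AddSubgroup.zmultiples (v (x 0))) le_sup_left
      (AddSubgroup.mem_sup_right (AddSubgroup.mem_zmultiples _)) (by
        intro t ht
        have := hH (Pi.single 0 t) (by simpa [Fin.sum_univ_succ] using ht)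
        simpa using congrFun this 0) (n + j * l) l _ (by positivity) h1 a
    rw [show n + (j + 1) * l = n + j * l + l by ring]
    refine h2.trans (le_of_eq ?_)
    ring

end anti

theorem anti {r : ℕ} (v : X → Fin r → ℤ) (σ : X ≃ X) (hσ : ∀ x, v (σ x) = -v x)
    (hσ' : ∀ x, σ x ≠ x) (hv : AddSubgroup.closure (Set.range v) = ⊤) :
    ∃ c : ℝ, 0 ≤ c ∧ ∀ (n : ℕ) (a : Fin r → ℤ),
      sumW n (fun w => if (w.map v).sum = a then 1 else 0) ≤
        c * Fintype.card X ^ n / √(n + 1) ^ r := by
  classical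
  let ι : (Fin r → ℤ) →+ (Fin r → ℚ) := (Int.castAddHom ℚ).compLeft (Fin r)
  obtain ⟨κ, a, -, hspan, hli⟩ := exists_linearIndependent' ℚ (fun x => ι (v x))
  have hfin : Finite κ := hli.finite
  have := Fintype.ofFinite κ
  have htop : Submodule.span ℚ (Set.range fun x => ι (v x)) = ⊤ := by
    rw [eq_top_iff, ← (Pi.basisFun ℚ (Fin r)).span_eq, Submodule.span_le]
    rintro _ ⟨i, rfl⟩
    have h1 : ∀ z ∈ AddSubgroup.closure (Set.range v),
        ι z ∈ Submodule.span ℚ (Set.range fun x => ι (v x)) := by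
      intro z hz
      induction hz using AddSubgroup.closure_induction with
      | mem x hx => obtain ⟨y, rfl⟩ := hx; exact Submodule.subset_span ⟨y, rfl⟩
      | zero => simp
      | add x y _ _ h1 h2 => rw [map_add]; exact Submodule.add_mem _ h1 h2
      | neg x _ h => rw [map_neg]; exact Submodule.neg_mem _ h
    have h2 := h1 (Pi.single i 1) (hv ▸ AddSubgroup.mem_top _)
    have e : Pi.basisFun ℚ (Fin r) i = ι (Pi.single i 1) := by
      funext k
      by_cases h : k = i
      · subst h; simp [ι]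
      · simp [ι, h]
    rw [e]
    exact h2
  have hcard : Fintype.card κ = r := by
    have := finrank_span_eq_card hli
    rw [hspan, htop, finrank_top, Module.finrank_fin_fun] at this
    exact this.symm
  let e : Fin r ≃ κ := (Fintype.equivFinOfCardEq hcard).symm
  have hind : ∀ t : Fin r → ℤ, ∑ k, t k • v (a (e k)) ∈ (⊥ : AddSubgroup (Fin r → ℤ)) → t = 0 := by
    intro t ht
    have h1 := Fintype.linearIndependent_iff.1 (hli.comp e e.injective) (fun k => (t k : ℚ)) (by
      have := congrArg ι (AddSubgroup.mem_bot.1 ht)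
      rw [map_sum, map_zero] at this
      rw [← this]
      refine Finset.sum_congr rfl fun k _ => ?_
      rw [map_zsmul, Int.cast_smul_eq_zsmul]; rfl)
    funext k
    exact_mod_cast h1 k
  refine ⟨((Fintype.card X + 1) * √(r + 1)) ^ r, by positivity, fun n b => ?_⟩
  set l := n / (r + 1) with hl
  have hn : n = (n - r * l) + r * l := by
    have : (r + 1) * l ≤ n := Nat.mul_div_le n (r + 1)
    rw [add_mul] at this
    omega
  have h1 := anti_chain v σ hσ hσ' l r (fun k => a (e k)) ⊥ hind (n - r * l) (-b)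
  rw [← hn, ← sumW_Top] at h1
  have h2 : (fun w : List X => if (w.map v).sum = b then (1 : ℝ) else 0) =
      fun w => ind ⊥ (-b + (w.map v).sum) := by
    funext w
    simp only [ind, AddSubgroup.mem_bot, neg_add_eq_zero, eq_comm]
  rw [h2]
  refine h1.trans ?_
  rw [mul_div_right_comm, ← div_pow]
  refine mul_le_mul_of_nonneg_right (pow_le_pow_left₀ (by positivity) ?_ _) (by positivity)
  rw [div_le_div_iff₀ (by positivity) (by positivity), mul_assoc, ← Real.sqrt_mul (by positivity)]
  refine mul_le_mul_of_nonneg_left (Real.sqrt_le_sqrt ?_) (by positivity)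
  have : n < (r + 1) * (l + 1) := Nat.lt_mul_div_succ n (by omega)
  exact_mod_cast this

theorem main_sum {r : ℕ} (v : X → Fin r → ℤ) (σ : X ≃ X) (hσ : ∀ x, v (σ x) = -v x)
    (hσ' : ∀ x, σ x ≠ x) (hv : AddSubgroup.closure (Set.range v) = ⊤) :
    ∃ C : ℕ, ∀ n : ℕ, ∑ f : Fin n → X, (if ((List.ofFn f).map v).sum = 0 then
      (Nat.sqrt (2 * n) + ∑ i : Fin r, (mx (-fun x => v x i) (List.ofFn f) +
        mx (fun x => v x i) (List.ofFn f)) + 1) ^ (r + 2) else 0) ≤
      C * (n + 1) * Fintype.card X ^ n := by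
  classical
  obtain ⟨c, hc0, hc⟩ := anti v σ hσ hσ' hv
  set b := univ.sup fun p : X × Fin r => (v p.1 p.2).natAbs with hb
  have hb' : ∀ i x, (v x i).natAbs ≤ b := fun i x =>
    Finset.le_sup (f := fun p : X × Fin r => (v p.1 p.2).natAbs) (Finset.mem_univ (x, i))
  let h : List X → ℝ := fun w => ∑ i : Fin r, ((mx (-fun x => v x i) w : ℝ) + mx (fun x => v x i) w)
  have h0 : ∀ w, 0 ≤ h w := fun w => Finset.sum_nonneg fun _ _ => by positivity
  set Cp : ℝ := 2 * (r + 2).factorial * Real.exp (b ^ 2 / 2) with hCp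
  set C1 : ℝ := r ^ (r + 1) * (r * (2 ^ (r + 1) * (2 * Cp))) with hC1
  have hm : ∀ n N : ℕ, n ≤ N → sumW n (fun w => h w ^ (r + 2)) ≤
      C1 * √(N + 1) ^ (r + 2) * Fintype.card X ^ n := by
    intro n N hn
    calc sumW n (fun w => h w ^ (r + 2))
        ≤ sumW n (fun w => r ^ (r + 1) * ∑ i : Fin r, 2 ^ (r + 1) *
          ((mx (-fun x => v x i) w : ℝ) ^ (r + 2) + (mx (fun x => v x i) w : ℝ) ^ (r + 2))) := by
          refine sumW_mono fun w _ => ?_
          refine (pow_sum_le_card_mul_sum_pow (fun _ _ => by positivity) (r + 1)).trans ?_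
          rw [Finset.card_univ, Fintype.card_fin]
          refine mul_le_mul_of_nonneg_left (Finset.sum_le_sum fun i _ => ?_) (by positivity)
          exact add_pow_le (by positivity) (by positivity) (r + 2)
      _ ≤ r ^ (r + 1) * ∑ _i : Fin r, 2 ^ (r + 1) *
          (2 * (Cp * √(N + 1) ^ (r + 2) * Fintype.card X ^ n)) := by
          rw [sumW_mul, sumW_sum]
          refine mul_le_mul_of_nonneg_left (Finset.sum_le_sum fun i _ => ?_) (by positivity)
          rw [sumW_mul, sumW_add]
          refine mul_le_mul_of_nonneg_left ?_ (by positivity)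
          have a1 := mom_mx (-fun x => v x i) σ (fun x => by simp [hσ]) b
            (fun x => by simpa using hb' i x) (r + 2) n N hn
          have a2 := mom_mx (fun x => v x i) σ (fun x => by simp [hσ]) b
            (fun x => hb' i x) (r + 2) n N hn
          linarith
      _ = _ := by rw [Finset.sum_const, Finset.card_univ, Fintype.card_fin, nsmul_eq_mul, hC1]; ring
  have hC10 : 0 ≤ C1 := by positivity
  refine ⟨⌈(4 : ℝ) ^ (r + 1) * (3 ^ (r + 2) * c + 2 * (C1 * c * 2 ^ r))⌉₊, fun n => ?_⟩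
  have hceil := Nat.le_ceil ((4 : ℝ) ^ (r + 1) * (3 ^ (r + 2) * c + 2 * (C1 * c * 2 ^ r)))
  rw [← Nat.cast_le (α := ℝ)]
  push_cast
  refine le_trans ?_ (mul_le_mul_of_nonneg_right (mul_le_mul_of_nonneg_right hceil (by positivity))
    (by positivity))
  set q := √((n : ℝ) + 1) with hq
  have hq0 : 0 < q := Real.sqrt_pos.2 (by positivity)
  have hq2 : q ^ 2 = n + 1 := Real.sq_sqrt (by positivity)
  have hα : (Nat.sqrt (2 * n) : ℝ) + 1 ≤ 3 * q := by
    have h1 : (Nat.sqrt (2 * n) : ℝ) ^ 2 ≤ 2 * n := by exact_mod_cast Nat.sqrt_le' (2 * n)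
    have h2 : (Nat.sqrt (2 * n) : ℝ) ≤ 2 * q := by
      refine le_of_sq_le_sq' ?_ (by positivity)
      nlinarith
    have h3 : 1 ≤ q := by
      rw [hq]; exact Real.one_le_sqrt.2 (by linarith [Nat.cast_nonneg (α := ℝ) n])
    linarith
  set a := n / 2 with ha
  set a' := n - a with ha'
  have hn : n = a + a' := by omega
  have hanti : ∀ k : ℕ, n ≤ 2 * k + 1 → ∀ z, sumW k (fun w => if (w.map v).sum = z then 1 else 0) ≤
      c * 2 ^ r * Fintype.card X ^ k / q ^ r := by
    intro k hk z
    refine (hc k z).trans ?_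
    have h1 : q ≤ 2 * √(k + 1) := by
      refine le_of_sq_le_sq' ?_ (by positivity)
      rw [hq2, mul_pow, Real.sq_sqrt (by positivity)]
      have : (n : ℝ) ≤ 2 * k + 1 := by exact_mod_cast hk
      linarith [Nat.cast_nonneg (α := ℝ) k]
    rw [div_le_div_iff₀ (by positivity) (by positivity)]
    have h2 := pow_le_pow_left₀ hq0.le h1 r
    rw [mul_pow] at h2
    have := mul_le_mul_of_nonneg_left h2 (show 0 ≤ c * Fintype.card X ^ k by positivity)
    linarith
  have key : ∀ k k' : ℕ, k + k' = n → n ≤ 2 * k' + 1 →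
      sumW k (fun u => sumW k' fun w => h u ^ (r + 2) *
        if (w.map v).sum = -(u.map v).sum then 1 else 0) ≤
      C1 * c * 2 ^ r * (n + 1) * Fintype.card X ^ n := by
    intro k k' hk hk'
    calc _ ≤ sumW k (fun u => (c * 2 ^ r * Fintype.card X ^ k' / q ^ r) * h u ^ (r + 2)) := by
          refine sumW_mono fun u _ => ?_
          rw [sumW_mul, mul_comm]
          exact mul_le_mul_of_nonneg_right (hanti k' hk' _) (pow_nonneg (h0 _) _)
      _ ≤ (c * 2 ^ r * Fintype.card X ^ k' / q ^ r) * (C1 * q ^ (r + 2) * Fintype.card X ^ k) := by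
          rw [sumW_mul]
          exact mul_le_mul_of_nonneg_left (hm k n (by omega)) (by positivity)
      _ = _ := by
          rw [← hq2, ← hk]; field_simp; ring
  have t1 : sumW n (fun w => (3 * q) ^ (r + 2) * if (w.map v).sum = 0 then 1 else 0) ≤
      3 ^ (r + 2) * c * (n + 1) * Fintype.card X ^ n := by
    rw [sumW_mul]
    refine (mul_le_mul_of_nonneg_left (hc n 0) (by positivity)).trans (le_of_eq ?_)
    rw [← hq, ← hq2]; field_simp; ring
  have t2 := key a a' hn.symm (by omega)
  have t3 := key a' a (by omega) (by omega)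
  rw [sumW_comm] at t3
  rw [hn, sumW_split, ← hn] at t1
  change sumW n (fun w => if (w.map v).sum = 0 then ((Nat.sqrt (2 * n) : ℝ) + h w + 1) ^ (r + 2)
    else 0) ≤ _
  have e : sumW n (fun w => if (w.map v).sum = 0 then ((Nat.sqrt (2 * n) : ℝ) + h w + 1) ^ (r + 2)
    else 0) = sumW a fun u => sumW a' fun w => if ((u ++ w).map v).sum = 0 then
      ((Nat.sqrt (2 * n) : ℝ) + h (u ++ w) + 1) ^ (r + 2) else 0 := by
    conv_lhs => rw [hn, sumW_split, ← hn]
  rw [e]
  have t4 := mul_le_mul_of_nonneg_left (add_le_add (add_le_add t1 t2) t3)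
    (show (0 : ℝ) ≤ 4 ^ (r + 1) by positivity)
  refine le_trans ?_ (t4.trans (le_of_eq (by ring)))
  rw [← sumW_add, ← sumW_add, ← sumW_mul]
  refine sumW_mono fun u _ => ?_
  rw [← sumW_add, ← sumW_add, ← sumW_mul]
  refine sumW_mono fun w _ => ?_
  by_cases hz : ((u ++ w).map v).sum = 0
  · have hz' := hz
    rw [List.map_append, List.sum_append] at hz'
    rw [if_pos hz, if_pos hz, if_pos (eq_neg_of_add_eq_zero_right hz'),
      if_pos (eq_neg_of_add_eq_zero_left hz')]
    have h1 : h (u ++ w) ≤ h u + h w := by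
      simp only [h]
      rw [← Finset.sum_add_distrib]
      refine Finset.sum_le_sum fun i _ => ?_
      have a1 : (mx (-fun x => v x i) (u ++ w) : ℝ) ≤
        mx (-fun x => v x i) u + mx (-fun x => v x i) w := by exact_mod_cast mx_append _ u w
      have a2 : (mx (fun x => v x i) (u ++ w) : ℝ) ≤
        mx (fun x => v x i) u + mx (fun x => v x i) w := by exact_mod_cast mx_append _ u w
      linarith
    have h2 : ((Nat.sqrt (2 * n) : ℝ) + h (u ++ w) + 1) ^ (r + 2) ≤ (3 * q + (h u + h w)) ^ (r + 2) :=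
      pow_le_pow_left₀ (by have := h0 (u ++ w); positivity) (by linarith) _
    have h3 := add_pow_le (show 0 ≤ 3 * q by positivity) (add_nonneg (h0 u) (h0 w)) (r + 2)
    have h4 := add_pow_le (h0 u) (h0 w) (r + 2)
    simp only [show r + 2 - 1 = r + 1 by omega] at h3 h4
    have h5 : (4 : ℝ) ^ (r + 1) = 2 ^ (r + 1) * 2 ^ (r + 1) := by rw [← mul_pow]; norm_num
    have h6 : (1 : ℝ) ≤ 2 ^ (r + 1) := one_le_pow₀ (by norm_num)
    have h7 : (3 * q) ^ (r + 2) ≤ 2 ^ (r + 1) * (3 * q) ^ (r + 2) :=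
      le_mul_of_one_le_left (by positivity) h6
    rw [h5, mul_assoc]
    refine h2.trans (h3.trans (mul_le_mul_of_nonneg_left ?_ (by positivity)))
    simp only [mul_one]
    linarith
  · rw [if_neg hz]
    have := h0 u
    have := h0 w
    positivity

end Pool.Agent.H960Z.TM
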