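import Pool.Agent.H960Z.TM.Stage2
import Pool.Agent.H960Z.TM.Prob

/-! Linear average-case complexity of the word problem in metabelian groups. -/

set_option autoImplicit false

namespace Pool.Agent.H960Z.TM

open Function

def Goal (m : ℕ) (Pr : List (Fin m × Bool) → Prop) : Prop :=
  ∃ (K : Type) (_ : DecidableEq K) (_ : Fintype K)
    (Γ : K → Type) (_ : ∀ k, Fintype (Γ k))
    (Λ : Type) (_ : Inhabited Λ) (_ : Fintype Λ)
    (σ : Type) (_ : Inhabited σ) (_ : Fintype σ)
    (M : Λ → Turing.TM2.Stmt Γ Λ σ) (k0 : K) (enc : Fin m × Bool → Γ k0)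
    (acc : σ → Bool) (T : List (Fin m × Bool) → ℕ) (C : ℕ),
    Function.Injective enc ∧
    (∀ w : List (Fin m × Bool),
      (∃ c : Turing.TM2.Cfg Γ Λ σ,
        (fun d : Option (Turing.TM2.Cfg Γ Λ σ) => d.bind (Turing.TM2.step M))^[T w]
            (some (Turing.TM2.init k0 (w.map enc) : Turing.TM2.Cfg Γ Λ σ)) = some c ∧
          c.l = none ∧ (acc c.var = true ↔ Pr w)) ∧
      (∀ t < T w, ∀ c : Turing.TM2.Cfg Γ Λ σ,
        (fun d : Option (Turing.TM2.Cfg Γ Λ σ) => d.bind (Turing.TM2.step M))^[t]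
            (some (Turing.TM2.init k0 (w.map enc) : Turing.TM2.Cfg Γ Λ σ)) = some c →
          c.l ≠ none)) ∧
    (∀ n : ℕ, ∑ v : Fin n → Fin m × Bool, T (List.ofFn v) ≤ C * (n + 1) * (2 * m) ^ n)

theorem goal_of {m : ℕ} {S : Type} [Inhabited S] [Finite S] {r E : ℕ}
    (Q : P (Fin m × Bool) S r E) (Pr : List (Fin m × Bool) → Prop) (c0 C : ℕ)
    (c : List (Fin m × Bool) → ℕ)
    (h : ∀ w, Tri Q (update (fun _ => []) .inp (w.map enc)) (fun s => s .bad = [] ↔ Pr w)
      (c0 * (w.length + 1) + c w))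
    (hc : ∀ n : ℕ, ∑ v : Fin n → Fin m × Bool, c (List.ofFn v) ≤ C * (n + 1) * (2 * m) ^ n) :
    Goal m Pr := by
  letI : Fintype (Sym (Fin m × Bool) S r E) := Fintype.ofFinite _
  obtain ⟨Λ, i1, i2, M, acc, T, h1, h2⟩ := machine_of Q .inp .bad enc Pr _ h
  refine ⟨Reg r, inferInstance, inferInstance, fun _ => Sym (Fin m × Bool) S r E,
    fun _ => inferInstance, Λ, i1, i2, Option (Sym (Fin m × Bool) S r E), inferInstance,
    inferInstance, M, .inp, enc, acc, T, c0 + 1 + C, enc_inj, h1, fun n => ?_⟩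
  calc ∑ v : Fin n → Fin m × Bool, T (List.ofFn v)
      ≤ ∑ v : Fin n → Fin m × Bool, ((c0 + 1) * (n + 1) + c (List.ofFn v)) := by
        refine Finset.sum_le_sum fun v _ => (h2 _).trans ?_
        rw [List.length_ofFn, add_mul c0]
        omega
    _ = (c0 + 1) * (n + 1) * (2 * m) ^ n + ∑ v : Fin n → Fin m × Bool, c (List.ofFn v) := by
        rw [Finset.sum_add_distrib]
        simp [mul_comm]
    _ ≤ _ := by
        have := hc n
        rw [add_mul (c0 + 1) C, add_mul ((c0 + 1) * (n + 1))]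
        omega

section

variable {X : Type}

theorem tot_const {S : Type} (δ : S → X → S) (y : X → ℤ) (w : List X) :
    ∀ s, tot δ (fun _ x => y x) s w = (w.map y).sum := by
  induction w with
  | nil => intro s; rfl
  | cons x w ih => intro s; simp [tot, ih]

theorem foldl_add' {T : Type} [AddCommGroup T] (y : X → T) (w : List X) :
    ∀ t, w.foldl (fun t x => t + y x) t = t + (w.map y).sum := by
  induction w with
  | nil => intro t; simp
  | cons x w ih => intro t; simp [ih, add_assoc]

theorem sum_prod' {A T : Type} [AddCommGroup A] [AddCommGroup T] (p : X → A × T) (w : List X) :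
    (w.map p).sum = ((w.map fun x => (p x).1).sum, (w.map fun x => (p x).2).sum) := by
  induction w with
  | nil => rfl
  | cons x w ih => simp only [List.map_cons, List.sum_cons, ih]; rfl

theorem sum_pi' {r : ℕ} (v : X → Fin r → ℤ) (w : List X) (i : Fin r) :
    (w.map v).sum i = (w.map fun x => v x i).sum := by
  induction w with
  | nil => rfl
  | cons x w ih => simp [ih]

theorem fin_case {A T' : Type} [AddCommGroup A] [AddCommGroup T'] {k : ℕ} (p : X → A)
    (θ : (A × X →₀ ℤ) →+ (Fin k → ℤ) × T') (w : List X) : ∀ (a : A) (t : T'),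
    w.foldl (fun (s : A × T') x => (s.1 + p x, s.2 + (θ (Finsupp.single (s.1, x) 1)).2)) (a, t) =
      (a + (w.map p).sum, t + (θ (fox p a w)).2) ∧
    ∀ i, tot (fun (s : A × T') x => (s.1 + p x, s.2 + (θ (Finsupp.single (s.1, x) 1)).2))
      (fun s x => (θ (Finsupp.single (s.1, x) 1)).1 i) (a, t) w = (θ (fox p a w)).1 i := by
  induction w with
  | nil => intro a t; simp [fox, tot]
  | cons x w ih =>
    intro a t
    obtain ⟨h1, h2⟩ := ih (a + p x) (t + (θ (Finsupp.single (a, x) 1)).2)
    refine ⟨?_, fun i => ?_⟩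
    · simp [h1, fox, add_assoc]
    · simp [tot, h2, fox]

end

theorem case_fin {m : ℕ} {A : Type} [AddCommGroup A] [Finite A] (p : Fin m × Bool → A)
    (N : AddSubgroup (A × (Fin m × Bool) →₀ ℤ)) :
    Goal m fun w => (w.map p).sum = 0 ∧ fox p 0 w ∈ N := by
  classical
  have : AddGroup.FG (A × (Fin m × Bool) →₀ ℤ) := Module.Finite.iff_addGroup_fg.1 inferInstance
  have : AddGroup.FG ((A × (Fin m × Bool) →₀ ℤ) ⧸ N) :=
    AddGroup.fg_of_surjective (f := QuotientAddGroup.mk' N) (QuotientAddGroup.mk'_surjective _)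
  obtain ⟨k, T', i1, i2, ⟨φ⟩⟩ := fg_struct ((A × (Fin m × Bool) →₀ ℤ) ⧸ N)
  let θ : (A × (Fin m × Bool) →₀ ℤ) →+ (Fin k → ℤ) × T' :=
    φ.toAddMonoidHom.comp (QuotientAddGroup.mk' N)
  have hθ : ∀ f, θ f = 0 ↔ f ∈ N := by
    intro f
    simp [θ]
  letI : Inhabited (A × T') := ⟨0⟩
  letI := Fintype.ofFinite A
  set b := Finset.univ.sup fun y : (A × (Fin m × Bool)) × Fin k =>
    ((θ (Finsupp.single y.1 1)).1 y.2).natAbs with hb
  let us : List (A × T' → Fin m × Bool → ℤ) := List.ofFn fun (i : Fin k) (s : A × T') x =>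
    (θ (Finsupp.single (s.1, x) 1)).1 i
  refine goal_of (r := 0) (E := 0) (stage1
    (fun (s : A × T') x => (s.1 + p x, s.2 + (θ (Finsupp.single (s.1, x) 1)).2)) (0, 0)
    (fun s => s = (0, 0)) us) _ ((us.length + 1) * (12 * b + 10) + 1) 0 (fun _ => 0) (fun w => ?_)
    (by simp)
  obtain ⟨l, o1, o2⟩ := stage1_ok (r := 0) (E := 0)
    (fun (s : A × T') x => (s.1 + p x, s.2 + (θ (Finsupp.single (s.1, x) 1)).2)) (0, 0)
    (fun s => s = (0, 0)) us b (by
      intro u hu s x
      obtain ⟨i, rfl⟩ := List.mem_ofFn.1 hu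
      exact Finset.le_sup (f := fun y : (A × (Fin m × Bool)) × Fin k =>
        ((θ (Finsupp.single y.1 1)).1 y.2).natAbs) (Finset.mem_univ ((s.1, x), i))) w
    (update (fun _ => []) .inp (w.map enc)) (by simp) (by simp) (by simp) (by simp) (by simp)
  refine (o1.tri ?_).cost (by rw [← mul_assoc, add_mul ((us.length + 1) * (12 * b + 10))]; omega)
  obtain ⟨h1, h2⟩ := fin_case p θ w 0 0
  simp only [update_self, ne_eq, reduceCtorEq, not_false_eq_true, update_of_ne, List.append_nil]
  rw [o2, h1, ← hθ]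
  simp only [us, List.forall_mem_ofFn_iff, h2, zero_add, Prod.mk.injEq, Prod.ext_iff, funext_iff,
    Prod.fst_zero, Prod.snd_zero, Pi.zero_apply]
  tauto

theorem case_inf {m r : ℕ} {T : Type} [AddCommGroup T] [Finite T] (hr : 1 ≤ r)
    (p : Fin m × Bool → (Fin r → ℤ) × T) (hp : ∀ x, p (x.1, !x.2) = -p x)
    (hv : AddSubgroup.closure (Set.range fun x => (p x).1) = ⊤)
    (N : AddSubgroup (((Fin r → ℤ) × T) × (Fin m × Bool) →₀ ℤ))
    (hN : ∀ f ∈ N, ∀ c, f.mapDomain (fun y => (y.1 + c, y.2)) ∈ N) :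
    Goal m fun w => (w.map p).sum = 0 ∧ fox p 0 w ∈ N := by
  classical
  letI := Fintype.ofFinite T
  letI : Inhabited T := ⟨0⟩
  have : Nonempty (Fin m × Bool) := by
    by_contra h
    rw [not_nonempty_iff] at h
    rw [Set.range_eq_empty, AddSubgroup.closure_empty] at hv
    have : (Pi.single ⟨0, hr⟩ 1 : Fin r → ℤ) ∈ (⊥ : AddSubgroup (Fin r → ℤ)) :=
      hv ▸ AddSubgroup.mem_top _
    simpa using congrFun (AddSubgroup.mem_bot.1 this) ⟨0, hr⟩
  obtain ⟨E, Q, C2, hQ⟩ := stage2 hr p N hN
  let σ : Fin m × Bool ≃ Fin m × Bool :=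
    Function.Involutive.toPerm (fun x => (x.1, !x.2)) (fun x => by simp)
  obtain ⟨C, hC⟩ := main_sum (fun x => (p x).1) σ (fun x => by
    show (p (x.1, !x.2)).1 = _
    rw [hp]; rfl) (fun x h => by simpa [σ] using congrArg Prod.snd h) hv
  set b := Finset.univ.sup fun y : (Fin m × Bool) × Fin r => ((p y.1).1 y.2).natAbs with hb
  let us : List (T → Fin m × Bool → ℤ) := List.ofFn fun (i : Fin r) _ x => (p x).1 i
  refine goal_of (.seq (stage1 (fun t x => t + (p x).2) 0 (fun t => t = 0) us)
    (.pop .bad fun o => if o.isNone then Q else .push .bad z0)) _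
    ((us.length + 1) * (12 * b + 10) + 3) (C2 * C) (fun w => C2 *
      if (w.map fun x => (p x).1).sum = 0 then (Nat.sqrt (2 * w.length) +
        ∑ i : Fin r, (mx (-fun x => (p x).1 i) w + mx (fun x => (p x).1 i) w) + 1) ^ (r + 2) else 0)
    (fun w => ?_) (fun n => ?_)
  · obtain ⟨l, o1, o2⟩ := stage1_ok (r := r) (E := E) (fun t x => t + (p x).2) 0 (fun t => t = 0)
      us b (by
        intro u hu s x
        obtain ⟨i, rfl⟩ := List.mem_ofFn.1 hu
        exact Finset.le_sup (f := fun y : (Fin m × Bool) × Fin r => ((p y.1).1 y.2).natAbs)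
          (Finset.mem_univ (x, i))) w
      (update (fun _ => []) .inp (w.map enc)) (by simp) (by simp) (by simp) (by simp) (by simp)
    have o3 : l = [] ↔ (w.map p).sum = 0 := by
      rw [o2, sum_prod', foldl_add']
      simp only [us, List.forall_mem_ofFn_iff, tot_const, zero_add, Prod.mk_eq_zero, funext_iff,
        sum_pi', Pi.zero_apply]
    by_cases hl : l = []
    · obtain ⟨ρ, r1, r2⟩ := hQ w
      have h0 := o3.1 hl
      have h1 : (w.map fun x => (p x).1).sum = 0 := by
        rw [sum_prod'] at h0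
        exact congrArg Prod.fst h0
      subst hl
      refine (o1.then (Tri.pop (a := C2 * (ρ + 1) ^ (r + 2)) ?_)).cost ?_
      · rw [if_pos (by simp)]
        have e : ∀ s0 : Stt (Fin m × Bool) T r E, s0 .bad = [] →
            update (update s0 .bad ([] ++ s0 .bad)) .bad
              (update s0 .bad ([] ++ s0 .bad) .bad).tail = s0 := by
          intro s0 h
          rw [update_idem, update_self, h, update_eq_self_iff, h]; rfl
        rw [e _ (by simp)]
        refine r2.post fun s' h => ?_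
        rw [h]
        simp only [h0, true_and]
        constructor
        · intro h
          have := hN _ h (-(fun _ => (ρ : ℤ), 0))
          rwa [fox_tr, add_neg_cancel] at this
        · intro h
          have := hN _ h (fun _ => (ρ : ℤ), 0)
          rwa [fox_tr, zero_add] at this
      · rw [if_pos h1, ← mul_assoc, add_mul ((us.length + 1) * (12 * b + 10))]
        have : C2 * (ρ + 1) ^ (r + 2) ≤ C2 * (Nat.sqrt (2 * w.length) +
          ∑ i : Fin r, (mx (-fun x => (p x).1 i) w + mx (fun x => (p x).1 i) w) + 1) ^ (r + 2) := by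
          gcongr
        omega
    · refine (o1.then (Tri.pop (a := 1) ?_)).cost ?_
      · rw [if_neg (by simpa using hl)]
        refine Tri.push ?_
        simp [← o3, hl]
      · rw [← mul_assoc, add_mul ((us.length + 1) * (12 * b + 10))]
        omega
  · rw [← Finset.mul_sum, mul_assoc, mul_assoc]
    refine Nat.mul_le_mul_left _ ?_
    have := hC n
    simp only [List.length_ofFn]
    rw [← mul_assoc]
    simpa [mul_comm m 2] using this

theorem main (G : Type) [Group G] (hG : derivedSeries G 2 = ⊥) (m : ℕ) (f : Fin m → G)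
    (hf : Subgroup.closure (Set.range f) = ⊤) :
    Goal m fun w => FreeGroup.lift f (FreeGroup.mk w) = 1 := by
  obtain ⟨r, T, i1, i2, π, hπ, hk⟩ := metab_struct hG f hf
  obtain ⟨N, hN, hw⟩ := fox_main (fun x : Fin m × Bool => cond x.2 (f x.1) (f x.1)⁻¹) π hπ hk
  have e : (fun w => FreeGroup.lift f (FreeGroup.mk w) = 1) = fun w : List (Fin m × Bool) =>
      (w.map fun x => (π (cond x.2 (f x.1) (f x.1)⁻¹)).toAdd).sum = 0 ∧
        fox (fun x => (π (cond x.2 (f x.1) (f x.1)⁻¹)).toAdd) 0 w ∈ N := by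
    funext w
    rw [FreeGroup.lift_mk, hw w 0]
  rw [e]
  rcases Nat.eq_zero_or_pos r with rfl | hr
  · exact case_fin _ N
  · refine case_inf hr _ ?_ ?_ N hN
    · rintro ⟨i, _ | _⟩ <;> simp
    · rw [eq_top_iff]
      intro z _
      obtain ⟨g, hg⟩ := hπ (Multiplicative.ofAdd (z, 0))
      have : z = (π g).toAdd.1 := by rw [hg]; rfl
      rw [this]
      have hg' : g ∈ Subgroup.closure (Set.range f) := hf ▸ Subgroup.mem_top g
      clear this hg
      induction hg' using Subgroup.closure_induction with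
      | mem x hx =>
        obtain ⟨i, rfl⟩ := hx
        exact AddSubgroup.subset_closure ⟨(i, true), rfl⟩
      | one => simp
      | mul x y _ _ h1 h2 => simpa using AddSubgroup.add_mem _ h1 h2
      | inv x _ h => simpa using AddSubgroup.neg_mem _ h

end Pool.Agent.H960Z.TM
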