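import Pool.Agent.H960Z.TM.Fill

/-! Parallel reduction passes on the array. -/

set_option autoImplicit false

namespace Pool.Agent.H960Z.TM

open Function

structure Rule (r E : ℕ) : Type where
  τ : Fin (r + 1) → Fin (E + 1)
  src : Bool
  dst : Bool
  up : Fin (r + 1) → ℕ
  down : Fin (r + 1) → ℕ
  d : ℕ

theorem div_bit (v d t : ℕ) (hd : 0 < d) :
    (2 * (v / 2 ^ (t + 1) % d) + v / 2 ^ t % 2) / d = v / d / 2 ^ t % 2 ∧
    (2 * (v / 2 ^ (t + 1) % d) + v / 2 ^ t % 2) % d = v / 2 ^ t % d := by
  rw [Nat.div_div_eq_div_mul v d, mul_comm d, ← Nat.div_div_eq_div_mul, pow_succ,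
    ← Nat.div_div_eq_div_mul]
  generalize v / 2 ^ t = a
  have h1 := Nat.mod_add_div (a / 2) d
  have h2 := Nat.mod_lt (a / 2) hd
  have h3 : a = (2 * (a / 2 % d) + a % 2) + d * (2 * (a / 2 / d)) := by
    have : d * (2 * (a / 2 / d)) = 2 * (d * (a / 2 / d)) := by ring
    omega
  have h4 : (2 * (a / 2 % d) + a % 2) / d < 2 := by
    rw [Nat.div_lt_iff_lt_mul hd]; omega
  constructor
  · conv_rhs => rw [h3, Nat.add_mul_div_left _ _ hd]
    rw [Nat.add_mul_mod_self_left, Nat.mod_eq_of_lt h4]
  · conv_rhs => rw [h3, Nat.add_mul_mod_self_left]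

variable {X S : Type} [Inhabited S] {r E : ℕ}

def bitSym (b : Bool) : Sym X S r E := { (z0 : Sym X S r E) with bit := b }

def qarr (B M : ℕ) (qv : ℕ → ℕ) : List (Sym X S r E) :=
  (List.range M).map fun p => bitSym ((qv (p / B)).testBit (p % B))

def divP (τ : Fin (r + 1) → Fin (E + 1)) (d : ℕ) : P X S r E :=
  trr .Fr .nul .Q (fun x _ c => (bitSym (decide (x.ty = τ ∧ (2 * c + bv x) / d = 1)),
    if x.lsb then 0 else (2 * c + bv x) % d)) 0

theorem divP_ok {s D B : ℕ} (hB : 0 < B) (τ : Fin (r + 1) → Fin (E + 1)) {d : ℕ} (hd : 0 < d)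
    (hdE : d ≤ E) (st : Stt X S r E) (h0 : st .sv0 = []) (hn : st .nul = []) (hQ : st .Q = [])
    (val : ℕ → ℕ) (hv : ∀ k, val k < 2 ^ B) (hF : st .Fr = (arr s D B (r + 1) val).reverse) :
    Ok (divP τ d) st (update st .Q (qarr B (B * len s D (r + 1))
      (fun k => if tyP s D r E (r + 1) k = τ then val k / d else 0)))
      (8 * (B * len s D (r + 1)) + 5) := by
  set M := B * len s D (r + 1) with hM
  have hl : (st .Fr).length = M := by simp [hF, hM]
  have htop : ∀ p, p % B + 1 = B → val (p / B) / 2 ^ (p % B + 1) % d = 0 := by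
    intro p hp
    rw [hp, Nat.div_eq_of_lt (hv _), Nat.zero_mod]
  refine (trr_ok (fun i => if i < M then val ((M - 1 - i) / B) / 2 ^ ((M - 1 - i) % B + 1) % d else 0)
    (fun i => bitSym ((if tyP s D r E (r + 1) ((M - 1 - i) / B) = τ then
      val ((M - 1 - i) / B) / d else 0).testBit ((M - 1 - i) % B))) ?_
    (by simp) h0 ?_).eq ?_ (by rw [hl])
  · split_ifs with h
    · apply htop
      have : M - 1 - 0 = (B - 1) + B * (len s D (r + 1) - 1) := by
        have h1 : 1 ≤ len s D (r + 1) := by
          rcases Nat.eq_zero_or_pos (len s D (r + 1)) with h' | h'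
          · simp [hM, h'] at h
          · exact h'
        obtain ⟨y, hy⟩ := Nat.exists_eq_add_of_le h1
        rw [hM, hy]; simp [mul_add]; omega
      rw [this, Nat.add_mul_mod_self_left, Nat.mod_eq_of_lt (by omega)]
      omega
    · rfl
  · intro i hi
    have hi' : i < M := by omega
    have e1 : (st .Fr)[i] = asym s D B (r + 1) val (M - 1 - i) := by
      simp [hF, arr, hM]
    set p := M - 1 - i with hp
    obtain ⟨a1, a2⟩ := div_bit (val (p / B)) d (p % B) hd
    have hc := Nat.mod_lt (val (p / B) / 2 ^ (p % B + 1)) hd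
    rw [e1, if_pos hi', min_eq_left (by omega), bv_asym, a1, a2]
    refine Prod.ext ?_ ?_
    · simp only [asym]
      congr 1
      split_ifs with h
      · simp [h, Nat.testBit_eq_decide_div_mod_eq]
      · simp [h]
    · simp only [asym, decide_eq_true_eq]
      have hdm := Nat.mod_add_div p B
      have hlt := Nat.mod_lt p hB
      by_cases h : p % B = 0
      · rw [if_pos h]
        split_ifs with h'
        · symm
          apply htop
          have h1 : 1 ≤ p / B := by
            rcases Nat.eq_zero_or_pos (p / B) with h'' | h''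
            · rw [h'', h] at hdm; omega
            · exact h''
          obtain ⟨y, hy⟩ := Nat.exists_eq_add_of_le h1
          have : M - 1 - (i + 1) = (B - 1) + B * y := by
            rw [hy, h, mul_add] at hdm; omega
          rw [this, Nat.add_mul_mod_self_left, Nat.mod_eq_of_lt (by omega)]
          omega
        · rfl
      · rw [if_neg h, if_pos (by
          have : p ≠ 0 := by rintro h0; rw [h0] at h; simp at h
          omega)]
        have : M - 1 - (i + 1) = (p % B - 1) + B * (p / B) := by omega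
        rw [this, Nat.add_mul_mod_self_left, Nat.add_mul_div_left _ _ hB,
          Nat.mod_eq_of_lt (by omega : p % B - 1 < B), Nat.div_eq_of_lt (by omega : p % B - 1 < B),
          zero_add, show p % B - 1 + 1 = p % B by omega]
  · rw [hl, hn, List.drop_nil, ← hn, update_eq_self, hQ, List.append_nil]
    congr 1
    apply List.ext_getElem
    · simp [qarr]
    · intro p p1 p2
      have : p < M := by simpa [qarr] using p2
      simp only [qarr, List.getElem_reverse, List.getElem_map, List.getElem_range,
        List.length_map, List.length_range]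
      rw [show M - 1 - (M - 1 - p) = p by omega]

theorem bv_shift {B N : ℕ} (hB : 0 < B) (qv : ℕ → ℕ) (up dn p : ℕ) :
    bv (((List.replicate (B * up) z0 ++ (qarr B (B * N) qv : List (Sym X S r E))).drop
      (B * dn))[p]?.getD z0) =
    (if up ≤ p / B + dn ∧ p / B + dn - up < N then qv (p / B + dn - up) else 0) / 2 ^ (p % B) % 2 := by
  have hdm := Nat.mod_add_div p B
  have hlt := Nat.mod_lt p hB
  rw [List.getElem?_drop]
  by_cases h1 : up ≤ p / B + dn
  · obtain ⟨y, hy⟩ := Nat.exists_eq_add_of_le h1
    have e : B * dn + p - B * up = p % B + B * y := by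
      have : B * (p / B + dn) = B * (up + y) := by rw [hy]
      rw [mul_add, mul_add] at this
      omega
    have e' : B * up ≤ B * dn + p := by
      have : B * (p / B + dn) = B * (up + y) := by rw [hy]
      rw [mul_add, mul_add] at this
      omega
    rw [List.getElem?_append_right (by simpa using e'), List.length_replicate, e,
      show p / B + dn - up = y by omega]
    by_cases h2 : y < N
    · have : p % B + B * y < B * N := by
        have : B * (y + 1) ≤ B * N := Nat.mul_le_mul_left _ h2
        rw [mul_add] at this; omega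
      rw [if_pos ⟨h1, h2⟩]
      simp only [qarr, List.getElem?_map, List.getElem?_range this, Option.map_some,
        Option.getD_some, bv, bitSym]
      rw [toNat_testBit', Nat.add_mul_mod_self_left, Nat.add_mul_div_left _ _ hB,
        Nat.mod_eq_of_lt hlt, Nat.div_eq_of_lt hlt, zero_add]
    · have : B * N ≤ B * y := Nat.mul_le_mul_left _ (by omega)
      rw [if_neg (by omega), List.getElem?_eq_none (by simp [qarr]; omega)]
      simp [bv, z0]
  · have : B * (p / B + dn + 1) ≤ B * up := Nat.mul_le_mul_left _ (by omega)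
    rw [mul_add, mul_add] at this
    rw [if_neg (by omega), List.getElem?_append_left (by simp; omega)]
    rw [List.getElem?_replicate, if_pos (by omega)]
    simp [bv, z0]

def addP (e : Bool) : P X S r E :=
  trr (.G e) .Q .tmp (fun x y c => (setBit x (bv x + bv (y.getD z0) + c),
    (bv x + bv (y.getD z0) + c) / 2)) 0

theorem addP_ok {s D B : ℕ} (hB : 0 < B) (hE : 1 ≤ E) (e : Bool) (st : Stt X S r E)
    (h0 : st .sv0 = []) (acc sh : ℕ → ℕ) (hv : ∀ k, acc k + sh k < 2 ^ B)
    (hG : st (.G e) = arr s D B (r + 1) acc)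
    (hQ : ∀ p, bv ((st .Q)[p]?.getD z0) = sh (p / B) / 2 ^ (p % B) % 2) :
    Ok (addP e) st (update (update st .Q ((st .Q).drop (B * len s D (r + 1)))) .tmp
      ((arr s D B (r + 1) (fun k => acc k + sh k)).reverse ++ st .tmp))
      (8 * (B * len s D (r + 1)) + 5) := by
  have hl : (st (.G e)).length = B * len s D (r + 1) := by simp [hG]
  refine (trr_ok (fun p => (acc (p / B) % 2 ^ (p % B) + sh (p / B) % 2 ^ (p % B) + 0) / 2 ^ (p % B))
    (fun p => asym s D B (r + 1) (fun k => acc k + sh k) p) (by simp [Nat.mod_one])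
    (by simp) h0 ?_).eq (by rw [hl]; rfl) (by rw [hl])
  intro p hp
  have e1 : (st (.G e))[p] = asym s D B (r + 1) acc p := by simp [hG, arr]
  have e2 : (acc (p / B) % 2 ^ (p % B) + sh (p / B) % 2 ^ (p % B) + 0) / 2 ^ (p % B) ≤ 1 := by
    have h1 := Nat.mod_lt (acc (p / B)) (show 0 < 2 ^ (p % B) by positivity)
    have h2 := Nat.mod_lt (sh (p / B)) (show 0 < 2 ^ (p % B) by positivity)
    apply Nat.le_of_lt_succ
    rw [Nat.div_lt_iff_lt_mul (by positivity)]
    omega
  obtain ⟨a1, a2⟩ := add_bit (acc (p / B)) (sh (p / B)) 0 (p % B)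
  rw [e1, hQ, bv_asym, min_eq_left (e2.trans hE), ← a2,
    setBit_asym s D B (r + 1) acc (fun k => acc k + sh k) p _ a1.symm]
  congr 1
  have hdm := Nat.mod_add_div p B
  have hlt := Nat.mod_lt p hB
  by_cases h : p % B + 1 = B
  · have : p + 1 = 0 + B * (p / B + 1) := by rw [mul_add]; omega
    rw [this, Nat.add_mul_mod_self_left, h]
    have h1 := hv (p / B)
    rw [Nat.mod_eq_of_lt (by omega : acc (p / B) < 2 ^ B),
      Nat.mod_eq_of_lt (by omega : sh (p / B) < 2 ^ B), Nat.div_eq_of_lt (by omega)]
    simp [Nat.mod_one]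
  · have : p + 1 = (p % B + 1) + B * (p / B) := by omega
    rw [this, Nat.add_mul_mod_self_left, Nat.add_mul_div_left _ _ hB,
      Nat.mod_eq_of_lt (by omega : p % B + 1 < B), Nat.div_eq_of_lt (by omega : p % B + 1 < B),
      zero_add]

def ruleP (ρ : Rule r E) : P X S r E :=
  .seq (trr (.F ρ.src) .nul .Fr (fun x _ _ => (x, 0)) 0) (.seq (divP ρ.τ ρ.d) (.seq (clear .Fr)
  (.seq (mvs ρ.up .nul .Q) (.seq (mvs ρ.down .Q .tmp) (.seq (clear .tmp)
  (.seq (addP ρ.dst) (.seq (clear (.G ρ.dst)) (.seq (move .tmp (.G ρ.dst)) (clear .Q)))))))))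

def contrib (s D : ℕ) (ρ : Rule r E) (val : Bool → ℕ → ℕ) (k : ℕ) : ℕ :=
  if idx s D ρ.up ≤ k + idx s D ρ.down ∧ k + idx s D ρ.down - idx s D ρ.up < len s D (r + 1) then
    (if tyP s D r E (r + 1) (k + idx s D ρ.down - idx s D ρ.up) = ρ.τ then
      val ρ.src (k + idx s D ρ.down - idx s D ρ.up) / ρ.d else 0) else 0

theorem contrib_le (s D : ℕ) (ρ : Rule r E) (val : Bool → ℕ → ℕ) (m : ℕ)
    (hm : ∀ e k, val e k ≤ m) (k : ℕ) : contrib s D ρ val k ≤ m := by
  unfold contrib
  split_ifs
  · exact (Nat.div_le_self _ _).trans (hm _ _)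
  · exact Nat.zero_le _
  · exact Nat.zero_le _

theorem ruleP_ok {s D B : ℕ} (hs : 0 < s) (hD : 0 < D) (hB : 0 < B) (ρ : Rule r E) (b : ℕ)
    (hd : 0 < ρ.d) (hdE : ρ.d ≤ E) (hu : ∑ t, ρ.up t ≤ b) (hdn : ∑ t, ρ.down t ≤ b)
    (st : Stt X S r E) (hS : Setup s D B st) (hQ : st .Q = []) (hFr : st .Fr = [])
    (val : Bool → ℕ → ℕ) (hv : ∀ e k, val e k < 2 ^ B) (acc : ℕ → ℕ)
    (ha : ∀ k, acc k + contrib s D ρ val k < 2 ^ B)
    (hF : st (.F ρ.src) = arr s D B (r + 1) (val ρ.src))
    (hG : st (.G ρ.dst) = arr s D B (r + 1) acc) :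
    Ok (ruleP ρ) st (update st (.G ρ.dst) (arr s D B (r + 1) fun k => acc k + contrib s D ρ val k))
      (60 * (r + 2) * (b + 1) * (B * len s D (r + 1))) := by
  set M := B * len s D (r + 1) with hM
  have hl1 : 1 ≤ len s D (r + 1) := len_pos hs hD _
  have hM1 : 1 ≤ M := Nat.mul_pos hB hl1
  have hmv : ∀ (u : Fin (r + 1) → ℕ), ∑ t, u t ≤ b → B * idx s D u ≤ b * M := by
    intro u hc
    have := idx_le hs hD u (m := r + 1) (by omega)
    calc B * idx s D u ≤ B * (b * len s D (r + 1)) := by gcongr; exact this.trans (by gcongr)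
      _ = b * M := by rw [hM]; ring
  have m1 := copy_ok (src := .F ρ.src) (dst := .Fr) (by simp) st hS.sv0 hS.nul
  rw [hF, hFr, List.append_nil, arr_length] at m1
  have m2 := divP_ok (s := s) (D := D) hB ρ.τ hd hdE
    (update st .Fr (arr s D B (r + 1) (val ρ.src)).reverse)
    (by simp [hS.sv0]) (by simp [hS.nul]) (by simp [hQ]) (val ρ.src) (hv _) (by simp)
  set QQ : List (Sym X S r E) := qarr B (B * len s D (r + 1))
      (fun k => if tyP s D r E (r + 1) k = ρ.τ then val ρ.src k / ρ.d else 0) with hQQ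
  have m3 := clear_ok Reg.Fr
    (update (update st .Fr (arr s D B (r + 1) (val ρ.src)).reverse) .Q QQ)
  have e3 : update (update (update st .Fr (arr s D B (r + 1) (val ρ.src)).reverse) .Q QQ) .Fr [] =
      update st .Q QQ := by
    funext k; cases k <;> simp [hFr]
  rw [e3] at m3
  have m4 := mvs_ok hs hD hB ρ.up (src := .nul) (dst := .Q) (by simp) (by simp [Data])
    (by simp [Data]) (update st .Q QQ) (by simp [hS.sv0]) (fun i hi => by simp [hS.rul i hi])
  have e4 : MV .nul .Q (B * idx s D ρ.up) (update st .Q QQ) =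
      update st .Q (List.replicate (B * idx s D ρ.up) z0 ++ QQ) := by
    funext k; cases k <;> simp [MV, hS.nul, takeZ_nil]
  rw [e4] at m4
  have m5 := mvs_ok hs hD hB ρ.down (src := .Q) (dst := .tmp) (by simp) (by simp [Data])
    (by simp [Data]) (update st .Q (List.replicate (B * idx s D ρ.up) z0 ++ QQ))
    (by simp [hS.sv0]) (fun i hi => by simp [hS.rul i hi])
  have m6 := clear_ok Reg.tmp (MV .Q .tmp (B * idx s D ρ.down)
    (update st .Q (List.replicate (B * idx s D ρ.up) z0 ++ QQ)))
  set Q1 := (List.replicate (B * idx s D ρ.up) z0 ++ QQ).drop (B * idx s D ρ.down) with hQ1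
  have e6 : update (MV .Q .tmp (B * idx s D ρ.down)
      (update st .Q (List.replicate (B * idx s D ρ.up) z0 ++ QQ))) .tmp [] = update st .Q Q1 := by
    funext k; cases k <;> simp [MV, hS.tmp, hQ1]
  rw [e6] at m6
  have m7 := addP_ok (s := s) (D := D) hB (hd.trans_le hdE) ρ.dst (update st .Q Q1) (by simp [hS.sv0])
    acc (contrib s D ρ val) ha (by simp [hG]) (fun p => by
      rw [update_self, hQ1, hQQ, bv_shift hB]; rfl)
  refine (Ok.seq m1 (Ok.seq m2 (Ok.seq m3 (Ok.seq m4 (Ok.seq m5 (Ok.seq m6 (Ok.seq m7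
    (Ok.seq (clear_ok _ _) (Ok.seq (move_ok (by simp) _) (clear_ok _ _)))))))))).eq ?_ ?_
  · funext k
    by_cases k1 : k = .G ρ.dst
    · subst k1; simp [hS.tmp]
    · cases k <;> simp [hS.tmp, hQ, update_of_ne k1]
  · have c1 := hmv _ hu
    have c2 := hmv _ hdn
    have l1 : QQ.length = M := by simp [hQQ, qarr, hM]
    have l2 : Q1.length ≤ b * M + M := by simp [hQ1, l1]; omega
    have d1 : (r + 2) * (13 * (B * idx s D ρ.up) + 1) ≤ (r + 2) * (13 * (b * M) + 1) := by gcongr
    have d2 : (r + 2) * (13 * (B * idx s D ρ.down) + 1) ≤ (r + 2) * (13 * (b * M) + 1) := by gcongr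
    simp [MV, takeZ, hS.tmp, hG, ← hM]
    have : Q1.length - M ≤ b * M := by omega
    have h1 : (r + 2) * 1 ≤ (r + 2) * M := by gcongr
    nlinarith [Nat.zero_le (r * M), Nat.zero_le (r * (b * M)), Nat.zero_le (b * M)]

def passV (s D : ℕ) (rules : List (Rule r E)) (val : Bool → ℕ → ℕ) (e : Bool) (k : ℕ) : ℕ :=
  val e k + (rules.map fun ρ => if ρ.dst = e then contrib s D ρ val k else 0).sum

theorem passV_le (s D : ℕ) (rules : List (Rule r E)) (val : Bool → ℕ → ℕ) (m : ℕ)
    (hm : ∀ e k, val e k ≤ m) (e : Bool) (k : ℕ) :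
    passV s D rules val e k ≤ (rules.length + 1) * m := by
  have h1 := hm e k
  have h2 : (rules.map fun ρ => if ρ.dst = e then contrib s D ρ val k else 0).sum ≤
      rules.length * m := by
    have := List.sum_le_card_nsmul (rules.map fun ρ => if ρ.dst = e then contrib s D ρ val k else 0)
      m (by
        simp only [List.mem_map]
        rintro _ ⟨ρ, _, rfl⟩
        split_ifs
        · exact contrib_le s D ρ val m hm k
        · exact Nat.zero_le _)
    simpa using this
  unfold passV
  nlinarith

def cpFG (e : Bool) : P X S r E :=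
  .seq (trr (.F e) .nul .tmp (fun x _ _ => (x, 0)) 0) (move .tmp (.G e))

def cpGF (e : Bool) : P X S r E :=
  .seq (clear (.F e)) (.seq (move (.G e) .tmp) (move .tmp (.F e)))

def passP (rules : List (Rule r E)) : P X S r E :=
  .seq (cpFG true) (.seq (cpFG false) (.seq (seqL (rules.map ruleP))
    (.seq (cpGF true) (cpGF false))))

theorem cpFG_ok (e : Bool) (st : Stt X S r E) (h0 : st .sv0 = []) (hn : st .nul = [])
    (ht : st .tmp = []) (hG : st (.G e) = []) :
    Ok (cpFG e) st (update st (.G e) (st (.F e))) (10 * (st (.F e)).length + 6) := by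
  refine (Ok.seq (copy_ok (by simp) st h0 hn) (move_ok (by simp) _)).eq ?_ ?_
  · funext k
    by_cases k1 : k = .G e
    · subst k1; simp [ht, hG]
    · cases k <;> simp [ht, update_of_ne k1]
  · simp [ht]; omega

theorem cpGF_ok (e : Bool) (st : Stt X S r E) (ht : st .tmp = []) :
    Ok (cpGF e) st (update (update st (.G e) []) (.F e) (st (.G e)))
      (2 * (st (.F e)).length + 4 * (st (.G e)).length + 3) := by
  refine (Ok.seq (clear_ok _ _) (Ok.seq (move_ok (by simp) _) (move_ok (by simp) _))).eq ?_ ?_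
  · funext k
    by_cases k1 : k = .F e
    · subst k1; simp [ht]
    · by_cases k2 : k = .G e
      · subst k2; simp
      · cases k <;> simp [ht, update_of_ne k1, update_of_ne k2]
  · simp [ht]; omega

def FF (st : Stt X S r E) (s D B : ℕ) (val : Bool → ℕ → ℕ) : Stt X S r E :=
  update (update st (.F true) (arr s D B (r + 1) (val true))) (.F false)
    (arr s D B (r + 1) (val false))

theorem passP_ok {s D B : ℕ} (hs : 0 < s) (hD : 0 < D) (hB : 0 < B) (rules : List (Rule r E))
    (b : ℕ) (hr : ∀ ρ ∈ rules, 0 < ρ.d ∧ ρ.d ≤ E ∧ ∑ t, ρ.up t ≤ b ∧ ∑ t, ρ.down t ≤ b)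
    (st : Stt X S r E) (hS : Setup s D B st) (hQ : st .Q = []) (hFr : st .Fr = [])
    (hG : ∀ e, st (.G e) = []) (val : Bool → ℕ → ℕ) (m : ℕ) (hm : ∀ e k, val e k ≤ m)
    (hv : (rules.length + 1) * m < 2 ^ B) :
    Ok (passP rules) (FF st s D B val) (FF st s D B (passV s D rules val))
      ((60 * (r + 2) * (b + 1) * rules.length + 60) * (B * len s D (r + 1))) := by
  set M := B * len s D (r + 1) with hM
  have hM1 : 1 ≤ M := Nat.mul_pos hB (len_pos hs hD _)
  have m1 := cpFG_ok true (FF st s D B val) (by simp [FF, hS.sv0]) (by simp [FF, hS.nul])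
    (by simp [FF, hS.tmp]) (by simp [FF, hG])
  have m2 := cpFG_ok false (update (FF st s D B val) (.G true) (FF st s D B val (.F true)))
    (by simp [FF, hS.sv0]) (by simp [FF, hS.nul]) (by simp [FF, hS.tmp]) (by simp [FF, hG])
  let R : ℕ → Stt X S r E := fun i => update (update (FF st s D B val) (.G true)
    (arr s D B (r + 1) (passV s D (rules.take i) val true))) (.G false)
    (arr s D B (r + 1) (passV s D (rules.take i) val false))
  have e0 : passV s D ([] : List (Rule r E)) val = val := by funext e k; simp [passV]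
  have e2 : update (update (FF st s D B val) (.G true) (FF st s D B val (.F true))) (.G false)
      (update (FF st s D B val) (.G true) (FF st s D B val (.F true)) (.F false)) = R 0 := by
    simp [R, FF, e0]
  rw [e2] at m2
  have m3 := Tri.seqL rules ruleP (fun i s' => s' = R i) (60 * (r + 2) * (b + 1) * M) ?_ (R 0) rfl
  · refine (Ok.seq m1 (Ok.seq m2 (Ok.seq (show Ok _ _ (R rules.length) _ from m3)
      (Ok.seq (cpGF_ok true _ (by simp [R, FF, hS.tmp]))
        (cpGF_ok false _ (by simp [R, FF, hS.tmp])))))).eq ?_ ?_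
    · funext k
      cases k with
      | F e => cases e <;> simp [R, FF]
      | G e => cases e <;> simp [R, FF, hG]
      | _ => simp [R, FF]
    · simp [R, FF, ← hM]
      nlinarith
  · rintro i hi _ rfl
    obtain ⟨q1, q2, q3, q4⟩ := hr _ (List.getElem_mem hi)
    have ep : ∀ e k, passV s D (rules.take (i + 1)) val e k = passV s D (rules.take i) val e k +
        if rules[i].dst = e then contrib s D rules[i] val k else 0 := by
      intro e k
      rw [← List.take_append_getElem hi]
      simp only [passV, List.map_append, List.sum_append, List.map_cons, List.map_nil,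
        List.sum_cons, List.sum_nil]
      ring
    refine (ruleP_ok hs hD hB rules[i] b q1 q2 q3 q4 (R i) ⟨by simp [R, FF, hS.sv0],
      by simp [R, FF, hS.nul], by simp [R, FF, hS.tmp], fun j hj => by simp [R, FF, hS.rul j hj]⟩
      (by simp [R, FF, hQ]) (by simp [R, FF, hFr]) val
      (fun e k => lt_of_le_of_lt ((hm e k).trans (Nat.le_mul_of_pos_left _ (by omega))) hv)
      (passV s D (rules.take i) val rules[i].dst) (fun k => ?_) ?_ ?_).tri ?_
    · have h1 := ep rules[i].dst k
      rw [if_pos rfl] at h1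
      rw [← h1]
      refine lt_of_le_of_lt ((passV_le s D _ val m hm _ _).trans ?_) hv
      exact Nat.mul_le_mul_right _ (by simp)
    · cases rules[i].src <;> simp [R, FF]
    · cases rules[i].dst <;> simp [R]
    · funext k
      cases k with
      | G e =>
        have ep' : passV s D (rules.take (i + 1)) val e = fun k =>
          passV s D (rules.take i) val e k +
            if rules[i].dst = e then contrib s D rules[i] val k else 0 := funext (ep e)
        cases e <;> cases h : rules[i].dst <;> simp [R, ep', h]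
      | _ => simp [R]

theorem av_ruleP (ρ : Rule r E) (k : Reg r) (h1 : k = .dr ∨ k = .sv1) :
    Av (ruleP ρ : P X S r E) k := by
  rcases h1 with rfl | rfl
  all_goals
    exact ⟨av_trr (by simp) (by simp) (by simp) (by simp) (by simp),
      av_trr (by simp) (by simp) (by simp) (by simp) (by simp), av_clear (by simp),
      av_mvs _ (by simp) (by simp) (by simp [Data]), av_mvs _ (by simp) (by simp) (by simp [Data]),
      av_clear (by simp), av_trr (by simp) (by simp) (by simp) (by simp) (by simp),
      av_clear (by simp), av_move (by simp) (by simp), av_clear (by simp)⟩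

theorem av_passP (rules : List (Rule r E)) (k : Reg r) (h1 : k = .dr ∨ k = .sv1) :
    Av (passP rules : P X S r E) k := by
  refine ⟨?_, ?_, ?_, ?_, ?_⟩
  · rcases h1 with rfl | rfl <;>
    exact ⟨av_trr (by simp) (by simp) (by simp) (by simp) (by simp), av_move (by simp) (by simp)⟩
  · rcases h1 with rfl | rfl <;>
    exact ⟨av_trr (by simp) (by simp) (by simp) (by simp) (by simp), av_move (by simp) (by simp)⟩
  · simp only [av_seqL, List.mem_map]
    rintro _ ⟨ρ, _, rfl⟩
    exact av_ruleP ρ k h1
  · rcases h1 with rfl | rfl <;>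
    exact ⟨av_clear (by simp), av_move (by simp) (by simp), av_move (by simp) (by simp)⟩
  · rcases h1 with rfl | rfl <;>
    exact ⟨av_clear (by simp), av_move (by simp) (by simp), av_move (by simp) (by simp)⟩

def cmpF : P X S r E :=
  each (.F true) .sv0 fun x => .pop (.F false) fun y =>
    if x.bit = (y.getD z0).bit then .skip else .push .bad z0

theorem cmpF_ok {s D B : ℕ} (hB : 0 < B) (st : Stt X S r E) (h0 : st .sv0 = [])
    (hb : st .bad = []) (val : Bool → ℕ → ℕ) (hv : ∀ e k, val e k < 2 ^ B) :
    Tri cmpF (FF st s D B val)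
      (fun s' => s' .bad = [] ↔ ∀ k, k < len s D (r + 1) → val true k = val false k)
      (6 * (B * len s D (r + 1)) + 2) := by
  have := Tri.each (k := Reg.F true) (sv := .sv0) (f := fun x : Sym X S r E =>
    .pop (.F false) fun y => if x.bit = (y.getD z0).bit then .skip else .push .bad z0)
    (by simp) (by simp) (by simp) (arr s D B (r + 1) (val true))
    (fun i s' => s' (.F false) = (arr s D B (r + 1) (val false)).drop i ∧ (s' .bad = [] ↔
      ∀ p, p < i → (val true (p / B)).testBit (p % B) = (val false (p / B)).testBit (p % B))) 2 ?_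
    (FF st s D B val) (by simp [FF, hb]) (by simp [FF]) (by simp [FF, h0])
  · refine this.mono ?_ (by simp; omega)
    rintro s' ⟨-, h⟩
    rw [h, arr_length]
    constructor
    · intro h k hk
      apply Nat.eq_of_testBit_eq
      intro t
      by_cases ht : t < B
      · have := h (t + B * k) (by
          have : B * (k + 1) ≤ B * len s D (r + 1) := Nat.mul_le_mul_left _ hk
          rw [mul_add] at this; omega)
        rwa [Nat.add_mul_mod_self_left, Nat.add_mul_div_left _ _ hB,
          Nat.mod_eq_of_lt ht, Nat.div_eq_of_lt ht, zero_add] at this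
      · have h2 : 2 ^ B ≤ 2 ^ t := Nat.pow_le_pow_right (by omega) (by omega)
        rw [Nat.testBit_eq_false_of_lt ((hv _ _).trans_le h2),
          Nat.testBit_eq_false_of_lt ((hv _ _).trans_le h2)]
    · intro h p hp
      rw [h _ (by rwa [Nat.div_lt_iff_lt_mul hB, mul_comm])]
  · rintro i hi s' ⟨h1, h2⟩
    have hi' : i < B * len s D (r + 1) := by simpa using hi
    have e1 : (s' (.F false)).head? = some (asym s D B (r + 1) (val false) i) := by
      rw [h1, List.head?_drop, arr_getElem? hi']
    have e2 : (arr s D B (r + 1) (val true) : List (Sym X S r E))[i] =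
      asym s D B (r + 1) (val true) i := by simp [arr]
    refine Tri.pop ?_
    rw [e1, e2]
    simp only [Option.getD_some, asym]
    split_ifs with h
    · refine Tri.skip ⟨by simp [h1], ?_⟩
      simp only [ne_eq, reduceCtorEq, not_false_eq_true, update_of_ne, h2]
      constructor
      · intro h' p hp
        rcases Nat.lt_succ_iff_lt_or_eq.1 hp with hp | rfl
        · exact h' p hp
        · exact h
      · exact fun h' p hp => h' p (by omega)
    · refine Tri.push ⟨by simp [h1], ?_⟩
      simp only [update_self, reduceCtorEq, false_iff]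
      exact fun h' => h (h' i (by omega))

def redP (rules : List (Rule r E)) : P X S r E :=
  .seq (each .dr .sv1 fun _ => passP rules) cmpF

theorem redP_ok {s D B : ℕ} (hs : 0 < s) (hD : 0 < D) (hB : 0 < B) (rules : List (Rule r E))
    (b : ℕ) (hr : ∀ ρ ∈ rules, 0 < ρ.d ∧ ρ.d ≤ E ∧ ∑ t, ρ.up t ≤ b ∧ ∑ t, ρ.down t ≤ b)
    (st : Stt X S r E) (hS : Setup s D B st) (hQ : st .Q = []) (hFr : st .Fr = [])
    (hG : ∀ e, st (.G e) = []) (h1 : st .sv1 = []) (hb : st .bad = []) (hdr : (st .dr).length = D)
    (val : Bool → ℕ → ℕ) (m : ℕ) (hm : ∀ e k, val e k ≤ m)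
    (hv : (rules.length + 1) ^ D * m < 2 ^ B) :
    Tri (redP rules) (FF st s D B val)
      (fun s' => s' .bad = [] ↔ ∀ k, k < len s D (r + 1) →
        (passV s D rules)^[D] val true k = (passV s D rules)^[D] val false k)
      ((60 * (r + 2) * (b + 1) * rules.length + 80) * D * (B * len s D (r + 1))) := by
  have hle : ∀ i e k, (passV s D rules)^[i] val e k ≤ (rules.length + 1) ^ i * m := by
    intro i
    induction i with
    | zero => simpa using hm
    | succ i ih =>
      intro e k
      rw [Function.iterate_succ_apply', pow_succ', mul_assoc]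
      exact passV_le s D rules _ _ ih e k
  have m1 := Ok.each (k := Reg.dr) (sv := .sv1) (f := fun _ : Sym X S r E => passP rules) (by simp)
    (fun _ => av_passP _ _ (Or.inl rfl)) (fun _ => av_passP _ _ (Or.inr rfl)) (st .dr)
    (fun i => FF st s D B ((passV s D rules)^[i] val))
    ((60 * (r + 2) * (b + 1) * rules.length + 60) * (B * len s D (r + 1))) (fun i hi => by
      rw [Function.iterate_succ_apply']
      refine passP_ok hs hD hB rules b hr st hS hQ hFr hG _ _ (hle i) (lt_of_le_of_lt ?_ hv)
      rw [← mul_assoc, ← pow_succ']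
      exact Nat.mul_le_mul_right _ (Nat.pow_le_pow_right (by omega) (by omega)))
    (by simp [FF]) (by simp [FF, h1])
  rw [hdr] at m1
  refine (m1.then (cmpF_ok hB st hS.sv0 hb _ (fun e k => (hle D e k).trans_lt hv))).cost ?_
  have hM1 : 1 ≤ B * len s D (r + 1) := Nat.mul_pos hB (len_pos hs hD _)
  generalize B * len s D (r + 1) = M at hM1
  generalize 60 * (r + 2) * (b + 1) * rules.length = A
  have h2 : D * 1 ≤ D * M := Nat.mul_le_mul_left _ hM1
  have h3 : 1 * M ≤ D * M := Nat.mul_le_mul_right _ hD
  nlinarith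

end Pool.Agent.H960Z.TM
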