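import Pool.Agent.H960Z.TM.Lang

/-! Frame rule and basic macros. -/

set_option autoImplicit false

namespace Pool.Agent.H960Z.TM

open Function

variable {K Γ : Type} [DecidableEq K]

/-- `p` does not mention the stack `k` -/
def Av : Prog K Γ → K → Prop
  | .skip, _ => True
  | .push k' _, k => k' ≠ k
  | .seq p q, k => Av p k ∧ Av q k
  | .pop k' f, k => k' ≠ k ∧ ∀ o, Av (f o) k
  | .loop k' f, k => k' ≠ k ∧ ∀ o, Av (f o) k

omit [DecidableEq K] in
@[simp] theorem av_skip (k : K) : Av (.skip : Prog K Γ) k ↔ True := Iff.rfl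
omit [DecidableEq K] in
@[simp] theorem av_push (k k' : K) (x : Γ) : Av (.push k' x) k ↔ k' ≠ k := Iff.rfl
omit [DecidableEq K] in
@[simp] theorem av_seq (k : K) (p q : Prog K Γ) : Av (.seq p q) k ↔ Av p k ∧ Av q k := Iff.rfl
omit [DecidableEq K] in
@[simp] theorem av_pop (k k' : K) (f : Option Γ → Prog K Γ) :
    Av (.pop k' f) k ↔ k' ≠ k ∧ ∀ o, Av (f o) k := Iff.rfl
omit [DecidableEq K] in
@[simp] theorem av_loop (k k' : K) (f : Γ → Prog K Γ) :
    Av (.loop k' f) k ↔ k' ≠ k ∧ ∀ o, Av (f o) k := Iff.rfl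
omit [DecidableEq K] in
@[simp] theorem av_seqL (k : K) (L : List (Prog K Γ)) : Av (seqL L) k ↔ ∀ p ∈ L, Av p k := by
  induction L with
  | nil => simp [seqL]
  | cons p L ih => simp [seqL, ih]
omit [DecidableEq K] in
theorem av_rep (k : K) (n : ℕ) (p : Prog K Γ) (h : Av p k) : Av (rep n p) k := by
  simp only [rep, av_seqL, List.mem_map]
  rintro _ ⟨_, _, rfl⟩
  exact h
omit [DecidableEq K] in
@[simp] theorem av_ite (k : K) (c : Prop) [Decidable c] (p q : Prog K Γ) :
    Av (if c then p else q) k ↔ (c → Av p k) ∧ (¬ c → Av q k) := by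
  split_ifs with h <;> simp [h]

theorem Run.frame {p : Prog K Γ} {s s' : St K Γ} {t : ℕ} (h : Run p s s' t) (k : K) :
    Av p k → s' k = s k ∧ ∀ l, Run p (update s k l) (update s' k l) t := by
  induction h with
  | skip s => exact fun _ => ⟨rfl, fun l => .skip _⟩
  | push k' x s =>
    intro h
    have h' : k' ≠ k := h
    refine ⟨update_of_ne h'.symm _ _, fun l => ?_⟩
    have := Run.push k' x (update s k l)
    rwa [update_of_ne h', update_comm h'.symm] at this
  | seq _ _ ih1 ih2 =>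
    intro h
    obtain ⟨a1, a2⟩ := ih1 h.1
    obtain ⟨b1, b2⟩ := ih2 h.2
    exact ⟨b1.trans a1, fun l => .seq (a2 l) (b2 l)⟩
  | @pop k' f s s' a _ ih =>
    intro h
    have h' : k' ≠ k := h.1
    obtain ⟨a1, a2⟩ := ih (h.2 _)
    refine ⟨a1.trans (update_of_ne h'.symm _ _), fun l => .pop ?_⟩
    rw [update_of_ne h', update_comm h'.symm]
    exact a2 l
  | @loop_nil k' f s hk =>
    intro h
    have h' : k' ≠ k := h.1
    exact ⟨rfl, fun l => .loop_nil (by rw [update_of_ne h', hk])⟩
  | @loop_cons k' f s s' s'' x l a b hk _ _ ih1 ih2 =>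
    intro h
    have h' : k' ≠ k := h.1
    obtain ⟨a1, a2⟩ := ih1 (h.2 _)
    obtain ⟨b1, b2⟩ := ih2 h
    refine ⟨b1.trans (a1.trans (update_of_ne h'.symm _ _)), fun l' =>
      .loop_cons (x := x) (l := l) (by rw [update_of_ne h', hk]) ?_ (b2 l')⟩
    rw [update_comm h'.symm]
    exact a2 l'

theorem Tri.keep {p : Prog K Γ} {s : St K Γ} {Q : St K Γ → Prop} {c : ℕ} (h : Tri p s Q c)
    (k : K) (hk : Av p k) : Tri p s (fun s' => Q s' ∧ s' k = s k) c := by
  obtain ⟨s', t, h1, h2, h3⟩ := h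
  exact ⟨s', t, h1, h2, h3, (h1.frame k hk).1⟩

theorem Tri.frame {p : Prog K Γ} {s : St K Γ} {Q : St K Γ → Prop} {c : ℕ} (h : Tri p s Q c)
    (k : K) (hk : Av p k) (l : List Γ) :
    Tri p (update s k l) (fun s' => ∃ s0, Q s0 ∧ s0 k = s k ∧ s' = update s0 k l) c := by
  obtain ⟨s', t, h1, h2, h3⟩ := h
  exact ⟨_, t, (h1.frame k hk).2 l, h2, s', h3, (h1.frame k hk).1, rfl⟩

/-- move the content of `a` on top of `b`, reversing it -/
def move (a b : K) : Prog K Γ := .loop a fun x => .push b x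

omit [DecidableEq K] in
theorem av_move {a b k : K} (h1 : a ≠ k) (h2 : b ≠ k) : Av (move a b : Prog K Γ) k :=
  ⟨h1, fun _ => h2⟩

theorem move_ok {a b : K} (hab : a ≠ b) (s : St K Γ) :
    Ok (move a b) s (update (update s a []) b ((s a).reverse ++ s b)) (2 * (s a).length + 1) := by
  have := Tri.loop (k := a) (f := fun x => Prog.push b x) (s a)
    (fun i s' => ∀ k, k ≠ a → s' k = update s b (((s a).take i).reverse ++ s b) k) 1 ?_ s ?_ rfl
  · refine this.mono ?_ (by omega)
    rintro s' ⟨h1, h2⟩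
    funext k
    by_cases hk : k = a
    · subst hk; rw [h2, update_of_ne hab]; simp
    · rw [h1 k hk]
      by_cases hb : k = b
      · subst hb; simp
      · simp [update_of_ne hb, update_of_ne hk]
  · intro i hi s' hI _
    refine Tri.push ⟨fun k hk => ?_, ?_⟩
    · by_cases hb : k = b
      · subst hb
        rw [update_self, update_self, update_of_ne hk, hI k hk, update_self,
          ← List.take_append_getElem hi, List.reverse_append]
        rfl
      · rw [update_of_ne hb, update_of_ne hk, update_of_ne hb, hI k hk, update_of_ne hb]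
    · rw [update_of_ne hab, update_self]
  · intro k _
    simp

def clear (a : K) : Prog K Γ := .loop a fun _ => .skip

omit [DecidableEq K] in
theorem av_clear {a k : K} (h1 : a ≠ k) : Av (clear a : Prog K Γ) k := ⟨h1, fun _ => trivial⟩

theorem clear_ok (a : K) (s : St K Γ) :
    Ok (clear a) s (update s a []) (2 * (s a).length + 1) := by
  have := Tri.loop (k := a) (f := fun _ => Prog.skip) (s a)
    (fun _ s' => ∀ k, k ≠ a → s' k = s k) 1 ?_ s (fun _ _ => rfl) rfl
  · refine this.mono ?_ (by omega)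
    rintro s' ⟨h1, h2⟩
    funext k
    by_cases hk : k = a
    · subst hk; rw [h2]; simp
    · rw [h1 k hk, update_of_ne hk]
  · intro i hi s' hI _
    refine Tri.skip ⟨fun k hk => ?_, by simp⟩
    rw [update_of_ne hk, hI k hk]

/-- run `f x` for each symbol `x` of the stack `k`, which is restored (through `sv`) -/
def each (k sv : K) (f : Γ → Prog K Γ) : Prog K Γ :=
  .seq (.loop k fun x => .seq (.push sv x) (f x)) (move sv k)

omit [DecidableEq K] in
theorem av_each {k sv k' : K} {f : Γ → Prog K Γ} (h1 : k ≠ k') (h2 : sv ≠ k')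
    (h3 : ∀ x, Av (f x) k') : Av (each k sv f) k' :=
  ⟨⟨h1, fun x => ⟨h2, h3 x⟩⟩, av_move h2 h1⟩

theorem Tri.each {k sv : K} {f : Γ → Prog K Γ} (hne : k ≠ sv) (h1 : ∀ x, Av (f x) k)
    (h2 : ∀ x, Av (f x) sv) (L : List Γ) (I : ℕ → St K Γ → Prop) (c : ℕ)
    (hstep : ∀ (i : ℕ) (hi : i < L.length) (s : St K Γ), I i s → Tri (f L[i]) s (I (i + 1)) c)
    (s : St K Γ) (h0 : I 0 s) (hk : s k = L) (hs : s sv = []) :
    Tri (each k sv f) s (I L.length) (L.length * (c + 4) + 2) := by
  have := Tri.loop (k := k) (f := fun x => Prog.seq (.push sv x) (f x)) L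
    (fun i s' => ∃ s0, I i s0 ∧ s0 k = L ∧ s0 sv = [] ∧
      ∀ j, j ≠ k → s' j = update s0 sv (L.take i).reverse j) (1 + c) ?_ s ?_ hk
  · refine (Tri.seq' (b := 2 * L.length + 1) this ?_).cost (by nlinarith)
    rintro s' ⟨⟨s0, hI, e1, e2, e3⟩, e4⟩
    have hsv : s' sv = L.reverse := by rw [e3 sv hne.symm]; simp
    refine ((move_ok hne.symm s').tri ?_).cost (by simp [hsv])
    convert hI using 1
    funext j
    by_cases hj : j = k
    · subst hj; simp [hsv, e4, e1]
    · rw [update_of_ne hj]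
      by_cases hj' : j = sv
      · subst hj'; simp [e2]
      · rw [update_of_ne hj', e3 j hj, update_of_ne hj']
  · rintro i hi s' ⟨s0, hI, e1, e2, e3⟩ _
    refine Tri.seq (Tri.push ?_)
    have hst : update (update s' k (L.drop (i + 1))) sv
        (L[i] :: update s' k (L.drop (i + 1)) sv) =
        update (update s0 k (L.drop (i + 1))) sv (L.take (i + 1)).reverse := by
      funext j
      by_cases hj' : j = sv
      · subst hj'
        rw [update_self, update_self, update_of_ne hne.symm, e3 j hne.symm, update_self,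
          ← List.take_append_getElem hi, List.reverse_append]
        rfl
      · rw [update_of_ne hj', update_of_ne hj']
        by_cases hj : j = k
        · subst hj; simp
        · rw [update_of_ne hj, update_of_ne hj, e3 j hj, update_of_ne hj']
    rw [hst]
    refine (((hstep i hi s0 hI).frame k (h1 _) (L.drop (i + 1))).frame sv (h2 _) _).post ?_
    rintro s3 ⟨s2, ⟨s1, hI1, f1, rfl⟩, f2, rfl⟩
    rw [update_of_ne hne.symm, update_of_ne hne.symm] at f2
    refine ⟨⟨s1, hI1, f1.trans e1, f2.trans e2, fun j hj => ?_⟩, ?_⟩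
    · by_cases hj' : j = sv
      · subst hj'; simp
      · rw [update_of_ne hj', update_of_ne hj', update_of_ne hj]
    · rw [update_of_ne hne, update_self]
  · refine ⟨s, h0, hk, hs, fun j _ => ?_⟩
    by_cases hj' : j = sv
    · subst hj'; simp [hs]
    · rw [update_of_ne hj']

/-- deterministic version of the `each` rule -/
theorem Ok.each {k sv : K} {f : Γ → Prog K Γ} (hne : k ≠ sv) (h1 : ∀ x, Av (f x) k)
    (h2 : ∀ x, Av (f x) sv) (L : List Γ) (S : ℕ → St K Γ) (c : ℕ)
    (hstep : ∀ (i : ℕ) (hi : i < L.length), Ok (f L[i]) (S i) (S (i + 1)) c)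
    (hk : S 0 k = L) (hs : S 0 sv = []) :
    Ok (each k sv f) (S 0) (S L.length) (L.length * (c + 4) + 2) :=
  Tri.each hne h1 h2 L (fun i s => s = S i) c (fun i hi _ h => h ▸ hstep i hi) _ rfl hk hs

theorem Ok.rep (n : ℕ) (p : Prog K Γ) (S : ℕ → St K Γ) (c : ℕ)
    (hstep : ∀ (i : ℕ), i < n → Ok p (S i) (S (i + 1)) c) : Ok (rep n p) (S 0) (S n) (n * c + 1) :=
  Tri.rep n p (fun i s => s = S i) c (fun i hi _ h => h ▸ hstep i hi) _ rfl

theorem Ok.seq {p q : Prog K Γ} {s s' s'' : St K Γ} {a b : ℕ}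
    (h : Ok p s s' a) (h' : Ok q s' s'' b) : Ok (.seq p q) s s'' (a + b) := h.then h'

theorem Ok.cost {p : Prog K Γ} {s s' : St K Γ} {a b : ℕ}
    (h : Ok p s s' a) (h' : a ≤ b) : Ok p s s' b := Tri.cost h h'

theorem Ok.eq {p : Prog K Γ} {s s' s'' : St K Γ} {a b : ℕ}
    (h : Ok p s s' a) (e : s' = s'') (h' : a ≤ b) : Ok p s s'' b := e ▸ Tri.cost h h'

theorem Ok.push (k : K) (x : Γ) (s : St K Γ) :
    Ok (.push k x) s (update s k (x :: s k)) 1 := Tri.push rfl

theorem Ok.pop {k : K} {f : Option Γ → Prog K Γ} {s s' : St K Γ} {a : ℕ}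
    (h : Ok (f (s k).head?) (update s k (s k).tail) s' a) : Ok (.pop k f) s s' (a + 1) :=
  Tri.pop h

theorem Ok.skip (s : St K Γ) : Ok .skip s s 1 := Tri.skip rfl

/-- push `n` copies of a symbol -/
theorem pushN_ok (k : K) (x : Γ) (n : ℕ) (s : St K Γ) :
    Ok (rep n (.push k x)) s (update s k (List.replicate n x ++ s k)) (n + 1) := by
  have := Ok.rep n (.push k x) (fun i => update s k (List.replicate i x ++ s k)) 1
    (fun i _ => (Ok.push k x _).eq (by simp [List.replicate_succ]) le_rfl)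
  simpa using this

section tr

variable (sv car : K) (mk : ℕ → Γ) (rd : Option Γ → ℕ)

/-- finite-state transduction driven by `src` (restored), reading `aux`, writing `dst` -/
def tr (src aux dst : K) (δ : Γ → Option Γ → ℕ → Γ × ℕ) (c0 : ℕ) : Prog K Γ :=
  .seq (.push car (mk c0)) (.seq
    (each src sv fun x => .pop aux fun y => .pop car fun c =>
      .seq (.push car (mk (δ x y (rd c)).2)) (.push dst (δ x y (rd c)).1))
    (.pop car fun _ => .skip))

omit [DecidableEq K] in
theorem av_tr {src aux dst k : K} (δ : Γ → Option Γ → ℕ → Γ × ℕ) (c0 : ℕ) (h1 : sv ≠ k)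
    (h2 : car ≠ k) (h3 : src ≠ k) (h4 : aux ≠ k) (h5 : dst ≠ k) :
    Av (tr sv car mk rd src aux dst δ c0) k :=
  ⟨h2, av_each h3 h1 (fun _ => ⟨h4, fun _ => ⟨h2, fun _ => ⟨h2, h5⟩⟩⟩), h2, fun _ => trivial⟩

theorem tr_ok {src aux dst : K} (hd : [sv, car, src, aux, dst].Nodup)
    (δ : Γ → Option Γ → ℕ → Γ × ℕ) (s : St K Γ) (hsv : s sv = []) (c : ℕ → ℕ) (o : ℕ → Γ)
    (hδ : ∀ (i : ℕ) (hi : i < (s src).length),
      δ (s src)[i] (s aux)[i]? (rd (some (mk (c i)))) = (o i, c (i + 1))) :
    Ok (tr sv car mk rd src aux dst δ (c 0)) s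
      (update (update s aux ((s aux).drop (s src).length)) dst
        (((List.range (s src).length).map o).reverse ++ s dst)) (8 * (s src).length + 5) := by
  simp only [List.nodup_cons, List.mem_cons, not_or, List.not_mem_nil, not_false_eq_true,
    and_true, List.nodup_nil] at hd
  obtain ⟨⟨a1, a2, a3, a4⟩, ⟨b2, b3, b4⟩, ⟨c3, c4⟩, d4⟩ := hd
  let S : ℕ → St K Γ := fun i => update (update (update s aux ((s aux).drop i)) dst
    (((List.range i).map o).reverse ++ s dst)) car (mk (c i) :: s car)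
  have h0 : update s car (mk (c 0) :: s car) = S 0 := by simp [S]
  have hE := Ok.each (k := src) (sv := sv) (f := fun x => .pop aux fun y => .pop car fun c =>
      .seq (.push car (mk (δ x y (rd c)).2)) (.push dst (δ x y (rd c)).1)) (Ne.symm a2)
    (fun _ => ⟨Ne.symm c3, fun _ => ⟨b2, fun _ => ⟨b2, Ne.symm c4⟩⟩⟩)
    (fun _ => ⟨Ne.symm a3, fun _ => ⟨Ne.symm a1, fun _ => ⟨Ne.symm a1, Ne.symm a4⟩⟩⟩)
    (s src) S 4 ?_ ?_ ?_
  · refine (Ok.seq (Ok.push _ _ _) (h0 ▸ Ok.seq hE (Ok.pop (Ok.skip _)))).eq ?_ (by omega)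
    simp only [S, update_self, List.tail_cons, update_idem]
    rw [update_eq_self_iff.2]
    rw [update_of_ne b4, update_of_ne b3]
  · intro i hi
    have e1 : S i aux = (s aux).drop i := by
      simp only [S]; rw [update_of_ne (Ne.symm b3), update_of_ne d4, update_self]
    refine (Ok.pop (Ok.pop (Ok.seq (Ok.push _ _ _) (Ok.push _ _ _)))).eq ?_ le_rfl
    have e2 : update (S i) aux (S i aux).tail car = mk (c i) :: s car := by
      rw [update_of_ne b3]; simp [S]
    have e3 : (S i aux).head? = (s aux)[i]? := by rw [e1]; simp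
    rw [e2, e3, List.head?_cons, hδ i hi, e1]
    funext j
    simp only [S, List.tail_cons, update_idem, update_self, List.tail_drop]
    by_cases j1 : j = dst
    · subst j1
      simp [update_of_ne (Ne.symm b4), update_of_ne (Ne.symm d4), List.range_succ]
    · by_cases j2 : j = car
      · subst j2; simp [update_of_ne j1]
      · by_cases j3 : j = aux
        · subst j3; simp [update_of_ne j1, update_of_ne j2]
        · simp [update_of_ne j1, update_of_ne j2, update_of_ne j3]
  · simp only [S]; rw [update_of_ne (Ne.symm b2), update_of_ne c4, update_of_ne c3]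
  · simp only [S]; rw [update_of_ne a1, update_of_ne a4, update_of_ne a3, hsv]

end tr

end Pool.Agent.H960Z.TM
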