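import Pool.Agent.H960Z.TM.Pass
import Pool.Agent.H960Z.TM.Grob

/-! Correctness of the parallel reduction as a membership test. -/

set_option autoImplicit false

namespace Pool.Agent.H960Z.TM

open Function

variable {r E : ℕ}

open Classical in
noncomputable def contribH (ρ : Rule r E) (H : Bool → (Fin (r + 1) → ℕ) → ℕ) (u : Fin (r + 1) → ℕ) : ℕ :=
  if ρ.up ≤ u + ρ.down ∧ cty E (u + ρ.down - ρ.up) = ρ.τ then
    H ρ.src (u + ρ.down - ρ.up) / ρ.d else 0

noncomputable def stepH (rules : List (Rule r E)) (H : Bool → (Fin (r + 1) → ℕ) → ℕ) (e : Bool)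
    (u : Fin (r + 1) → ℕ) : ℕ :=
  H e u + (rules.map fun ρ => if ρ.dst = e then contribH ρ H u else 0).sum

def RuleOK (s K : ℕ) (ρ : Rule r E) : Prop := ∀ u, cty E u = ρ.τ → u 0 < s →
  ρ.down ≤ u ∧ (u - ρ.down + ρ.up) 0 < s ∧ idx s K (u - ρ.down + ρ.up) ≤ idx s K u

def Supp (s K W : ℕ) (H : Bool → (Fin (r + 1) → ℕ) → ℕ) : Prop :=
  ∀ e u, H e u ≠ 0 → u 0 < s ∧ idx s K u ≤ W

theorem box_of {s K W D : ℕ} (hs : 0 < s) (hK : 0 < K) (hD : W < D) {u : Fin (r + 1) → ℕ}
    (h0 : u 0 < s) (h : idx s K u ≤ W) : Box s D u := by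
  intro t
  unfold side
  split_ifs with ht
  · have : t = 0 := Fin.ext ht
    rwa [this]
  · exact lt_of_le_of_lt ((le_idx hs hK u t).trans h) hD

theorem contribH_ne {ρ : Rule r E} {H : Bool → (Fin (r + 1) → ℕ) → ℕ} {u : Fin (r + 1) → ℕ}
    (h : contribH ρ H u ≠ 0) : ρ.up ≤ u + ρ.down ∧ cty E (u + ρ.down - ρ.up) = ρ.τ ∧
      H ρ.src (u + ρ.down - ρ.up) ≠ 0 := by
  unfold contribH at h
  split_ifs at h with h1
  · refine ⟨h1.1, h1.2, fun h2 => h ?_⟩
    rw [h2, Nat.zero_div]
  · exact absurd rfl h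

theorem supp_step {s K W : ℕ} {rules : List (Rule r E)} (hr : ∀ ρ ∈ rules, RuleOK s K ρ)
    {H : Bool → (Fin (r + 1) → ℕ) → ℕ} (hH : Supp s K W H) : Supp s K W (stepH rules H) := by
  intro e u h
  by_cases h0 : H e u = 0
  · simp only [stepH, h0, zero_add] at h
    obtain ⟨x, hx, hx0⟩ := List.exists_mem_ne_zero_of_sum_ne_zero h
    obtain ⟨ρ, hρ, rfl⟩ := List.mem_map.1 hx
    have h1 : contribH ρ H u ≠ 0 := by
      intro h1; simp [h1] at hx0
    obtain ⟨a1, a2, a3⟩ := contribH_ne h1
    obtain ⟨b1, b2⟩ := hH _ _ a3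
    obtain ⟨c1, c2, c3⟩ := hr ρ hρ _ a2 b1
    have e : u + ρ.down - ρ.up - ρ.down + ρ.up = u := by
      funext t
      have : ρ.up t ≤ (u + ρ.down) t := a1 t
      have : ρ.down t ≤ (u + ρ.down - ρ.up) t := c1 t
      simp only [Pi.add_apply, Pi.sub_apply] at *
      omega
    rw [e] at c2 c3
    exact ⟨c2, c3.trans b2⟩
  · exact hH e u h0

theorem contrib_eq {s K W D : ℕ} (hs : 0 < s) (hK : 0 < K) (hD : W < D) {ρ : Rule r E}
    (hr : RuleOK s K ρ) {H : Bool → (Fin (r + 1) → ℕ) → ℕ} (hH : Supp s K W H)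
    {val : Bool → ℕ → ℕ} (hv : ∀ e k, k < len s D (r + 1) → val e k = H e (dig s D (r + 1) k))
    {k : ℕ} (hk : k < len s D (r + 1)) : contrib s D ρ val k = contribH ρ H (dig s D (r + 1) k) := by
  have hD0 : 0 < D := by omega
  set u := dig s D (r + 1) k with hu
  have hub : Box s D u := box_dig hs hD0 _ _
  have huk : idx s D u = k := idx_dig hk
  set k' := k + idx s D ρ.down - idx s D ρ.up with hk'
  by_cases h : (idx s D ρ.up ≤ k + idx s D ρ.down ∧ k' < len s D (r + 1)) ∧
      cty E (dig s D (r + 1) k') = ρ.τ ∧ H ρ.src (dig s D (r + 1) k') ≠ 0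
  · obtain ⟨h1, h2, h3⟩ := h
    set u' := dig s D (r + 1) k' with hu'
    obtain ⟨b1, b2⟩ := hH _ _ h3
    obtain ⟨c1, c2, c3⟩ := hr _ h2 b1
    have e1 : u' - ρ.down + ρ.up = u := by
      apply idx_inj hs hD0 (box_of hs hK hD c2 (c3.trans b2)) hub
      have : idx s D (u' - ρ.down) + idx s D ρ.down = k' := by
        rw [← idx_add, tsub_add_cancel_of_le c1, idx_dig h1.2]
      rw [idx_add, huk]
      omega
    have e2 : u + ρ.down - ρ.up = u' := by
      funext t
      have := congrFun e1 t
      have : ρ.down t ≤ u' t := c1 t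
      simp only [Pi.add_apply, Pi.sub_apply] at *
      omega
    have e3 : ρ.up ≤ u + ρ.down := by
      intro t
      have := congrFun e1 t
      simp only [Pi.add_apply, Pi.sub_apply] at *
      omega
    rw [contrib, contribH, if_pos h1, tyP_top, if_pos h2, e2, if_pos ⟨e3, h2⟩, hv _ _ h1.2]
  · have e1 : contrib s D ρ val k = 0 := by
      unfold contrib
      split_ifs with h1 h2
      · rw [tyP_top] at h2
        rw [hv _ _ h1.2]
        have : H ρ.src (dig s D (r + 1) k') = 0 := by
          by_contra h3; exact h ⟨h1, h2, h3⟩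
        rw [this, Nat.zero_div]
      · rfl
      · rfl
    rw [e1]
    by_contra h1
    obtain ⟨a1, a2, a3⟩ := contribH_ne (Ne.symm h1)
    obtain ⟨b1, b2⟩ := hH _ _ a3
    have hb := box_of hs hK hD b1 b2
    have e2 : idx s D (u + ρ.down - ρ.up) + idx s D ρ.up = k + idx s D ρ.down := by
      rw [← idx_add, tsub_add_cancel_of_le a1, idx_add, huk]
    have e3 : k' = idx s D (u + ρ.down - ρ.up) := by omega
    apply h
    rw [e3, dig_idx hs hD0 _ hb]
    exact ⟨⟨by omega, idx_lt _ hb⟩, a2, a3⟩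

theorem passV_iter {s K W D : ℕ} (hs : 0 < s) (hK : 0 < K) (hD : W < D) {rules : List (Rule r E)}
    (hr : ∀ ρ ∈ rules, RuleOK s K ρ) {H : Bool → (Fin (r + 1) → ℕ) → ℕ} (hH : Supp s K W H)
    {val : Bool → ℕ → ℕ} (hv : ∀ e k, k < len s D (r + 1) → val e k = H e (dig s D (r + 1) k))
    (i : ℕ) : Supp s K W ((stepH rules)^[i] H) ∧ ∀ e k, k < len s D (r + 1) →
      (passV s D rules)^[i] val e k = (stepH rules)^[i] H e (dig s D (r + 1) k) := by
  induction i with
  | zero => exact ⟨hH, hv⟩
  | succ i ih =>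
    rw [Function.iterate_succ_apply', Function.iterate_succ_apply']
    refine ⟨supp_step hr ih.1, fun e k hk => ?_⟩
    rw [passV, stepH, ih.2 e k hk]
    congr 2
    refine List.map_congr_left fun ρ hρ => ?_
    rw [contrib_eq hs hK hD (hr ρ hρ) ih.1 ih.2 hk]

section rules

variable (C : ℕ) (g : (Fin (r + 1) → ℕ) → (Fin (r + 1) → ℕ) →₀ ℤ)

def bt (C : ℕ) (τ : Fin (r + 1) → Fin (E + 1)) : Fin (r + 1) → ℕ := fun t => min (τ t) C

theorem bt_cty {C : ℕ} (h : C ≤ E) (u : Fin (r + 1) → ℕ) : bt C (cty E u) = base C u := by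
  funext t
  simp only [bt, cty, cap, base]
  omega

def mkRule (τ : Fin (r + 1) → Fin (E + 1)) (e : Bool) (m : Fin (r + 1) → ℕ) : Rule r E :=
  ⟨τ, e, if 0 < g (bt C τ) m then !e else e, m, bt C τ, (g (bt C τ) (bt C τ)).toNat⟩

noncomputable def rulesOf (E : ℕ) : List (Rule r E) :=
  (Finset.univ : Finset ((Fin (r + 1) → Fin (E + 1)) × Bool)).toList.flatMap fun p =>
    (g (bt C p.1)).support.toList.flatMap fun m =>
      List.replicate (g (bt C p.1) m).natAbs (mkRule C g p.1 p.2 m)

theorem mem_rulesOf {ρ : Rule r E} (h : ρ ∈ rulesOf C g E) :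
    ∃ τ e m, g (bt C τ) m ≠ 0 ∧ ρ = mkRule C g τ e m := by
  simp only [rulesOf, List.mem_flatMap, List.mem_replicate, Finset.mem_toList,
    Finsupp.mem_support_iff] at h
  obtain ⟨p, -, m, h1, -, h2⟩ := h
  exact ⟨p.1, p.2, m, h1, h2⟩

theorem sum_flatMap' {α β : Type} (L : List α) (f : α → List β) (h : β → ℤ) :
    ((L.flatMap f).map h).sum = (L.map fun a => ((f a).map h).sum).sum := by
  induction L with
  | nil => simp
  | cons a L ih => simp [ih]

theorem sum_rulesOf (h : Rule r E → ℤ) : ((rulesOf C g E).map h).sum =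
    ∑ τ : Fin (r + 1) → Fin (E + 1), ∑ e : Bool, ∑ m ∈ (g (bt C τ)).support,
      |g (bt C τ) m| * h (mkRule C g τ e m) := by
  rw [rulesOf, sum_flatMap', Finset.sum_map_toList, Fintype.sum_prod_type]
  refine Finset.sum_congr rfl fun τ _ => Finset.sum_congr rfl fun e _ => ?_
  rw [sum_flatMap', Finset.sum_map_toList]
  refine Finset.sum_congr rfl fun m _ => ?_
  simp

theorem step_diff (H : Bool → (Fin (r + 1) → ℕ) → ℕ) (u : Fin (r + 1) → ℕ) :
    (stepH (rulesOf C g E) H true u : ℤ) - stepH (rulesOf C g E) H false u =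
      H true u - H false u - ∑ τ : Fin (r + 1) → Fin (E + 1), ∑ m ∈ (g (bt C τ)).support,
        g (bt C τ) m * ((contribH (mkRule C g τ true m) H u : ℤ) -
          contribH (mkRule C g τ false m) H u) := by
  have hc : ∀ e, (((rulesOf C g E).map fun ρ => if ρ.dst = e then contribH ρ H u else 0).sum : ℤ) =
      ((rulesOf C g E).map fun ρ => if ρ.dst = e then (contribH ρ H u : ℤ) else 0).sum := by
    intro e
    rw [Nat.cast_list_sum, List.map_map]
    congr 2
    funext ρ
    simp
  simp only [stepH, Nat.cast_add, hc, sum_rulesOf]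
  rw [add_sub_add_comm, sub_eq_add_neg (_ - _), ← Finset.sum_sub_distrib, ← Finset.sum_neg_distrib]
  congr 1
  refine Finset.sum_congr rfl fun τ _ => ?_
  simp only [Fintype.sum_bool]
  rw [← Finset.sum_add_distrib, ← Finset.sum_add_distrib, ← Finset.sum_sub_distrib,
    ← Finset.sum_neg_distrib]
  refine Finset.sum_congr rfl fun m _ => ?_
  have hd : ∀ e, (mkRule C g τ e m).dst = if 0 < g (bt C τ) m then !e else e := fun _ => rfl
  simp only [hd]
  by_cases h : 0 < g (bt C τ) m
  · simp [h, abs_of_pos h]; ring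
  · simp [h, abs_of_nonpos (not_lt.1 h)]; ring

end rules

theorem sh_sum (b : Fin (r + 1) → ℕ) (f : (Fin (r + 1) → ℕ) →₀ ℤ) (u : Fin (r + 1) → ℕ) :
    sh b f u = ∑ m ∈ f.support, if m + b = u then f m else 0 := by
  rw [sh, Finsupp.mapDomain, Finsupp.sum_apply, Finsupp.sum]
  refine Finset.sum_congr rfl fun m _ => ?_
  rw [Finsupp.single_apply]

theorem red_main {s : ℕ} (hs : 0 < s) (N : AddSubgroup ((Fin (r + 1) → ℕ) →₀ ℤ))
    (hval : ∀ f ∈ N, ∀ u, f u ≠ 0 → u 0 < s)
    (hsh : ∀ f ∈ N, ∀ b : Fin (r + 1) → ℕ, b 0 = 0 → sh b f ∈ N) :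
    ∃ (E K b : ℕ) (rules : List (Rule r E)), 1 ≤ E ∧ 0 < K ∧
      (∀ ρ ∈ rules, 0 < ρ.d ∧ ρ.d ≤ E ∧ ∑ t, ρ.up t ≤ b ∧ ∑ t, ρ.down t ≤ b) ∧
      ∀ (W D : ℕ), W < D → ∀ (H : Bool → (Fin (r + 1) → ℕ) → ℕ), Supp s K W H →
        ∀ f : (Fin (r + 1) → ℕ) →₀ ℤ, (∀ u, f u = (H true u : ℤ) - H false u) →
        ∀ val : Bool → ℕ → ℕ,
          (∀ e k, k < len s D (r + 1) → val e k = H e (dig s D (r + 1) k)) →
          ((∀ k, k < len s D (r + 1) →
            (passV s D rules)^[D] val true k = (passV s D rules)^[D] val false k) ↔ f ∈ N) := by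
  classical
  obtain ⟨C, K, g, hsC, hK, g1, g2, g3, g4, g5⟩ := grob hs N hval hsh
  set E := max C ((Finset.Iic (fun _ : Fin (r + 1) => C)).sup fun u => (g u u).toNat) with hE
  have hCE : C ≤ E := le_max_left _ _
  set rules := rulesOf C g E with hrules
  have hbt : ∀ τ : Fin (r + 1) → Fin (E + 1), base C (bt C τ) = bt C τ := by
    intro τ; funext t; simp [base, bt]
  have hok : ∀ ρ ∈ rules, RuleOK s K ρ := by
    intro ρ hρ u h1 h2
    obtain ⟨τ, e, m, hm, rfl⟩ := mem_rulesOf C g hρ
    have e1 : bt C τ = base C u := by rw [← bt_cty hCE, h1]; rfl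
    simp only [mkRule]
    rw [e1] at hm ⊢
    refine ⟨base_le C u, ?_, ?_⟩
    · have := hval _ (g1 _) m hm
      simp only [Pi.add_apply, Pi.sub_apply, base]
      omega
    · have : idx s K m ≤ idx s K (base C u) := by
        rcases g4 u m hm with h | h
        · rw [h]
        · exact h.le
      conv_rhs => rw [← tsub_add_cancel_of_le (base_le C u)]
      rw [idx_add, idx_add]; omega
  refine ⟨E, K, (rules.map fun ρ => ∑ t, ρ.up t + ∑ t, ρ.down t).sum, rules, by omega, hK, ?_, ?_⟩
  · intro ρ hρ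
    have h1 := List.single_le_sum (l := rules.map fun ρ => ∑ t, ρ.up t + ∑ t, ρ.down t)
      (fun _ _ => Nat.zero_le _) _ (List.mem_map_of_mem hρ)
    refine ⟨?_, ?_, by omega, by omega⟩
    · obtain ⟨τ, e, m, hm, rfl⟩ := mem_rulesOf C g hρ
      have h2 := g2 (bt C τ)
      have h3 : g (bt C τ) (bt C τ) ≠ 0 := fun h => hm (by rw [g3 _ h]; rfl)
      simp only [mkRule]; omega
    · obtain ⟨τ, e, m, hm, rfl⟩ := mem_rulesOf C g hρ
      exact le_max_of_le_right (Finset.le_sup (f := fun u => (g u u).toNat)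
        (Finset.mem_Iic.2 fun _ => min_le_right _ _))
  intro W D hD H hH f hf val hv
  have hD0 : 0 < D := by omega
  let G : (Fin (r + 1) → ℕ) → (Fin (r + 1) → ℕ) →₀ ℤ := fun u => sh (u - base C u) (g (base C u))
  have G1 : ∀ u, G u u = g (base C u) (base C u) := by
    intro u
    have := sh_apply (u - base C u) (g (base C u)) (base C u)
    rwa [add_tsub_cancel_of_le (base_le C u)] at this
  have G2 : ∀ u v, G u v ≠ 0 → v = u ∨ idx s K v < idx s K u := by
    intro u v h
    obtain ⟨w, h1, rfl⟩ := sh_ne h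
    have e := add_tsub_cancel_of_le (base_le C u)
    rcases g4 u w h1 with hw | hw
    · left; rw [hw, e]
    · right
      conv_rhs => rw [← e]
      rw [idx_add, idx_add]; omega
  have G3 : ∀ u, u 0 < s → G u ∈ N := fun u hu => hsh _ (g1 _) _ (by
    simp only [Pi.sub_apply, base]; omega)
  have hstep : ∀ (H : Bool → (Fin (r + 1) → ℕ) → ℕ), Supp s K W H →
      ∀ f : (Fin (r + 1) → ℕ) →₀ ℤ, (∀ u, f u = (H true u : ℤ) - H false u) →
      ∃ f' : (Fin (r + 1) → ℕ) →₀ ℤ,
        (∀ u, f' u = (stepH rules H true u : ℤ) - stepH rules H false u) ∧ f - f' ∈ N ∧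
        (f ∈ N → ∀ V, (∀ u, f u ≠ 0 → idx s K u < V + 1) → ∀ u, f' u ≠ 0 → idx s K u < V) := by
    intro H hH f hf
    let d : (Fin (r + 1) → ℕ) → ℕ := fun u => (g (base C u) (base C u)).toNat
    let q : (Fin (r + 1) → ℕ) → ℤ := fun u => (H true u / d u : ℕ) - (H false u / d u : ℕ)
    let T := Finset.Iic (fun _ : Fin (r + 1) => W)
    have hq : ∀ u, q u ≠ 0 → u 0 < s ∧ u ∈ T := by
      intro u hu
      have : ∃ e, H e u ≠ 0 := by
        by_contra h
        push Not at h
        simp [q, h] at hu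
      obtain ⟨e, he⟩ := this
      exact ⟨(hH e u he).1, Finset.mem_Iic.2 fun t => (le_idx hs hK u t).trans (hH e u he).2⟩
    have hq0 : ∀ u, f u = 0 → q u = 0 := by
      intro u hu
      have : H true u = H false u := by have := hf u; omega
      simp [q, this]
    refine ⟨f - ∑ u ∈ T, q u • G u, fun u => ?_, ?_, ?_⟩
    · rw [step_diff, Finsupp.sub_apply, hf, Finsupp.finset_sum_apply]
      congr 1
      have e1 : ∀ (τ : Fin (r + 1) → Fin (E + 1)) (m : Fin (r + 1) → ℕ),
          (contribH (mkRule C g τ true m) H u : ℤ) - contribH (mkRule C g τ false m) H u =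
          ∑ v ∈ T, if cty E v = τ ∧ v + m = u + bt C τ then q v else 0 := by
        intro τ m
        by_cases h : m ≤ u + bt C τ ∧ cty E (u + bt C τ - m) = τ
        · rw [Finset.sum_eq_single (u + bt C τ - m)]
          · rw [if_pos ⟨h.2, tsub_add_cancel_of_le h.1⟩]
            have e1 : bt C τ = base C (u + bt C τ - m) := by rw [← bt_cty hCE, h.2]
            simp only [contribH, mkRule, if_pos h, q, d, ← e1]
          · intro v _ hne
            rw [if_neg]
            rintro ⟨-, h2⟩
            exact hne (by rw [← h2, add_tsub_cancel_right])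
          · intro hT
            split_ifs
            · by_contra h'; exact hT (hq _ h').2
            · rfl
        · simp only [contribH, mkRule, if_neg h]
          rw [Finset.sum_eq_zero]
          · simp
          · intro v _
            rw [if_neg]
            rintro ⟨h1, h2⟩
            apply h
            rw [← h2, add_tsub_cancel_right]
            exact ⟨le_add_self, h1⟩
      simp only [e1, Finset.mul_sum]
      rw [Finset.sum_congr rfl fun τ _ => Finset.sum_comm, Finset.sum_comm]
      refine Finset.sum_congr rfl fun v _ => ?_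
      rw [Finset.sum_eq_single (cty E v)]
      · rw [bt_cty hCE, Finsupp.smul_apply, sh_sum, smul_eq_mul, Finset.mul_sum]
        refine Finset.sum_congr rfl fun m _ => ?_
        have : m + (v - base C v) = u ↔ v + m = u + base C v := by
          simp only [funext_iff, Pi.add_apply, Pi.sub_apply]
          refine forall_congr' fun t => ?_
          have : base C v t ≤ v t := base_le C v t
          omega
        simp only [this, true_and]
        split_ifs <;> ring
      · intro τ _ hne
        refine Finset.sum_eq_zero fun m _ => ?_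
        rw [if_neg (fun h => hne h.1.symm), mul_zero]
      · simp
    · rw [sub_sub_cancel]
      refine N.sum_mem fun u _ => ?_
      by_cases h : q u = 0
      · simp [h]
      · exact N.zsmul_mem (G3 u (hq u h).1) _
    · intro hN V hV u hu
      by_contra hlt
      apply hu
      have hdvd := g5 f hN u (fun v hv => by have := hV v hv; omega)
      rw [Finsupp.sub_apply, Finsupp.finset_sum_apply, Finset.sum_eq_single u]
      · rw [Finsupp.smul_apply, G1, smul_eq_mul, hf]
        rw [hf] at hdvd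
        have e : g (base C u) (base C u) = (d u : ℤ) := (Int.toNat_of_nonneg (g2 _)).symm
        rw [e] at hdvd ⊢
        have h1 : H false u % d u = H true u % d u := (Nat.modEq_iff_dvd).2 hdvd
        have h2 := Nat.mod_add_div (H true u) (d u)
        have h3 := Nat.mod_add_div (H false u) (d u)
        simp only [q]
        zify at h1 h2 h3
        push_cast
        linear_combination h3 - h2 - h1
      · intro v _ hne
        by_cases h : G v u = 0
        · simp [h]
        · have h1 := (G2 _ _ h).resolve_left hne.symm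
          have h2 : f v = 0 := by
            by_contra h2
            have := hV v h2
            omega
          simp [hq0 v h2]
      · intro hT
        have : q u = 0 := by by_contra h'; exact hT (hq _ h').2
        simp [this]
  have hit : ∀ i, ∃ f' : (Fin (r + 1) → ℕ) →₀ ℤ,
      (∀ u, f' u = ((stepH rules)^[i] H true u : ℤ) - (stepH rules)^[i] H false u) ∧ f - f' ∈ N ∧
      (f ∈ N → ∀ u, f' u ≠ 0 → idx s K u < W + 1 - i) := by
    intro i
    induction i with
    | zero =>
      refine ⟨f, hf, by simp, fun _ u hu => ?_⟩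
      have : ∃ e, H e u ≠ 0 := by
        by_contra h
        push Not at h
        simp [hf, h] at hu
      obtain ⟨e, he⟩ := this
      have := (hH e u he).2
      omega
    | succ i ih =>
      obtain ⟨f1, a1, a2, a3⟩ := ih
      obtain ⟨f2, b1, b2, b3⟩ := hstep _ (passV_iter hs hK hD hok hH hv i).1 f1 a1
      refine ⟨f2, by simpa only [Function.iterate_succ_apply'] using b1, ?_, fun hN u hu => ?_⟩
      · have := N.add_mem a2 b2
        rwa [sub_add_sub_cancel] at this
      · have hf1 : f1 ∈ N := by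
          have := N.sub_mem hN a2
          rwa [sub_sub_cancel] at this
        exact b3 hf1 (W + 1 - (i + 1)) (fun v hv => by have := a3 hN v hv; omega) u hu
  obtain ⟨f1, a1, a2, a3⟩ := hit D
  obtain ⟨s1, s2⟩ := passV_iter hs hK hD hok hH hv D
  constructor
  · intro h
    have : f1 = 0 := by
      ext u
      by_contra hu
      have : ∃ e, (stepH rules)^[D] H e u ≠ 0 := by
        by_contra h
        push Not at h
        simp [a1, h] at hu
      obtain ⟨e, he⟩ := this
      have hb := box_of hs hK hD (s1 e u he).1 (s1 e u he).2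
      have h1 := h _ (idx_lt _ hb)
      rw [s2 _ _ (idx_lt _ hb), s2 _ _ (idx_lt _ hb), dig_idx hs hD0 _ hb] at h1
      simp [a1, h1] at hu
    simpa [this] using a2
  · intro hN k hk
    rw [s2 _ _ hk, s2 _ _ hk]
    have h1 := a1 (dig s D (r + 1) k)
    have h2 : f1 (dig s D (r + 1) k) = 0 := by
      by_contra h2
      have := a3 hN _ h2
      omega
    omega

end Pool.Agent.H960Z.TM
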