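import Pool.Agent.H960Z.TM.Stage1

/-! Computing (in unary) a radius `ρ` bounding the walk and `√n`. -/

set_option autoImplicit false

namespace Pool.Agent.H960Z.TM

open Function

variable {X S : Type} [Inhabited S] {r E : ℕ}

/-- maximum of the prefix sums -/
def mx (v : X → ℤ) : List X → ℕ
  | [] => 0
  | x :: w => (v x + mx v w).toNat

def rstep (a : ℕ × ℕ) (t : ℤ) : ℕ × ℕ := (a.1 + t.toNat - (-t).toNat, a.2 - t.toNat + (-t).toNat)

theorem rng_low (v : X → ℤ) (w : List X) : ∀ (a : ℕ × ℕ) (T : ℤ), T ≤ a.1 → -T ≤ a.2 →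
    a.1 + a.2 ≤ ((w.map v).foldl rstep a).1 + ((w.map v).foldl rstep a).2 ∧
    ∀ i, (T + ((w.take i).map v).sum).natAbs ≤
      ((w.map v).foldl rstep a).1 + ((w.map v).foldl rstep a).2 := by
  induction w with
  | nil => intro a T h1 h2; simp; omega
  | cons x w ih =>
    intro a T h1 h2
    obtain ⟨i1, i2⟩ := ih (rstep a (v x)) (T + v x) (by simp only [rstep]; omega)
      (by simp only [rstep]; omega)
    have : a.1 + a.2 ≤ (rstep a (v x)).1 + (rstep a (v x)).2 := by simp only [rstep]; omega
    simp only [List.map_cons, List.foldl_cons]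
    refine ⟨by omega, fun i => ?_⟩
    cases i with
    | zero => simp; omega
    | succ i =>
      have := i2 i
      simp only [List.take_succ_cons, List.map_cons, List.sum_cons]
      rwa [← add_assoc]

theorem rng_up (v : X → ℤ) (w : List X) : ∀ (a : ℕ × ℕ),
    ((w.map v).foldl rstep a).1 + ((w.map v).foldl rstep a).2 ≤
      max a.1 (mx (-v) w) + max a.2 (mx v w) := by
  induction w with
  | nil => intro a; simp [mx]
  | cons x w ih =>
    intro a
    have := ih (rstep a (v x))
    simp only [List.map_cons, List.foldl_cons, mx, Pi.neg_apply]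
    refine this.trans ?_
    simp only [rstep]
    omega

theorem rng_len (b : ℕ) (L : List ℤ) (hb : ∀ t ∈ L, t.natAbs ≤ b) : ∀ (a : ℕ × ℕ),
    (L.foldl rstep a).1 + (L.foldl rstep a).2 ≤ a.1 + a.2 + b * L.length := by
  induction L with
  | nil => intro a; simp
  | cons x w ih =>
    intro a
    have := ih (fun t ht => hb t (List.mem_cons_of_mem _ ht)) (rstep a x)
    have h2 := hb x (by simp)
    simp only [List.foldl_cons, List.length_cons, mul_add]
    refine this.trans ?_
    simp only [rstep]
    omega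

/-- move `n` marks from `q` (if any) to `p` -/
def shiftN (n : ℕ) (p q : Reg r) : P X S r E := rep n (.seq (.pop q fun _ => .skip) (.push p z0))

theorem shiftN_ok (n : ℕ) {p q : Reg r} (h : p ≠ q) (s : Stt X S r E) (i j : ℕ)
    (hp : s p = List.replicate i z0) (hq : s q = List.replicate j z0) :
    Ok (shiftN n p q) s (update (update s p (List.replicate (i + n) z0)) q
      (List.replicate (j - n) z0)) (3 * n + 1) := by
  have := Ok.rep n (.seq (.pop q fun _ => .skip) (.push p z0) : P X S r E)
    (fun t => update (update s p (List.replicate (i + t) z0)) q (List.replicate (j - t) z0)) 3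
    (fun t _ => (Ok.seq (Ok.pop (Ok.skip _)) (Ok.push _ _ _)).eq (by
      funext k
      by_cases k1 : k = p
      · subst k1; simp [update_of_ne h, ← add_assoc, List.replicate_succ]
      · by_cases k2 : k = q
        · subst k2; simp [update_of_ne k1, Nat.sub_add_eq]
        · simp [update_of_ne k1, update_of_ne k2]) le_rfl)
  simp only [add_zero, Nat.sub_zero, ← hp, ← hq, update_eq_self] at this
  exact this.cost (by omega)

def rangeP (v : X → ℤ) : P X S r E :=
  .seq (each .inp .sv1 fun x =>
      .seq (shiftN (olift v 0 x.l).toNat .a .b) (shiftN (-olift v 0 x.l).toNat .b .a))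
    (.seq (move .a .rho) (move .b .rho))

theorem rangeP_ok (v : X → ℤ) (b : ℕ) (hb : ∀ x, (v x).natAbs ≤ b) (w : List X)
    (s : Stt X S r E) (hi : s .inp = w.map enc) (h1 : s .sv1 = [])
    (ha : s .a = []) (hb' : s .b = []) (ρ : ℕ) (hr : s .rho = List.replicate ρ z0) :
    Ok (rangeP v) s (update s .rho (List.replicate
      (((w.map v).foldl rstep (0, 0)).1 + ((w.map v).foldl rstep (0, 0)).2 + ρ) z0))
      ((5 * b + 6) * (w.length + 1)) := by
  let R : ℕ × ℕ → Stt X S r E := fun a => update (update s .a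
    (List.replicate a.1 z0)) .b (List.replicate a.2 z0)
  have hb2 : ∀ (o : Option X), (olift v 0 o).natAbs ≤ b := by
    intro o; cases o
    · simp [olift]
    · exact hb _
  obtain ⟨hE, -⟩ := each_fold (k := Reg.inp) (sv := .sv1) (f := fun x : Sym X S r E =>
      .seq (shiftN (olift v 0 x.l).toNat .a .b) (shiftN (-olift v 0 x.l).toNat .b .a)) (by simp)
    (fun x => ⟨av_rep _ _ _ (by simp), av_rep _ _ _ (by simp)⟩)
    (fun x => ⟨av_rep _ _ _ (by simp), av_rep _ _ _ (by simp)⟩)
    (w.map enc) R (fun a x => rstep a (olift v 0 x.l)) (0, 0)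
    (fun _ _ => True) (3 * b + 2) trivial (by
      intro i hi a _
      refine ⟨trivial, ?_⟩
      refine (Ok.seq (shiftN_ok _ (by simp) _ a.1 a.2 (by simp [R]) (by simp [R]))
        (shiftN_ok _ (by simp) _ _ _ (by simp; rfl) (by simp; rfl))).eq ?_ ?_
      · funext k
        cases k <;> simp [R, rstep]
      · have := hb2 ((w.map (enc : X → Sym X S r E))[i]).l
        omega) (by simp [R, hi]) (by simp [R, h1])
  have e0 : R (0, 0) = s := by
    funext k
    cases k <;> simp [R, ha, hb']
  have e1 : (w.map (enc : X → Sym X S r E)).foldl (fun a x => rstep a (olift v 0 x.l)) (0, 0) =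
      (w.map v).foldl rstep (0, 0) := by
    rw [List.foldl_map, List.foldl_map]; rfl
  rw [e0, e1] at hE
  have hl := rng_len b (w.map v) (by simpa using fun x _ => hb x) (0, 0)
  refine (Ok.seq hE (Ok.seq (move_ok (by simp) _) (move_ok (by simp) _))).eq ?_ ?_
  · funext k
    cases k <;> simp [R, ha, hb', hr]
    omega
  · simp [R] at hl ⊢; nlinarith

def sqrtP : P X S r E :=
  .seq (each .inp .sv1 fun _ => .pop .cnt fun o => if o.isNone then
      .seq (.push .kk z0) (each .kk .sv0 fun _ => .push .cnt z0) else .skip)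
    (.seq (move .kk .rho) (clear .cnt))

theorem sqrtP_ok (s : Stt X S r E) (h0 : s .sv0 = []) (h1 : s .sv1 = [])
    (hk : s .kk = []) (hc : s .cnt = []) (hr : s .rho = []) :
    ∃ k, Ok sqrtP s (update s .rho (List.replicate k z0))
      (30 * (k + 1) * ((s .inp).length + 1)) ∧ 2 * (s .inp).length ≤ k * (k + 3) ∧
      k ≤ Nat.sqrt (2 * (s .inp).length) := by
  set n := (s .inp).length with hn
  let R : ℕ × ℕ → Stt X S r E := fun a => update (update s .kk
    (List.replicate a.1 z0)) .cnt (List.replicate a.2 z0)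
  have hsq : ∀ i k c : ℕ, i ≤ n → 2 * (i + c) = k * (k + 3) → c ≤ k → k ≤ Nat.sqrt (2 * n) := by
    intro i k c h1 h2 h3
    rw [Nat.le_sqrt]
    nlinarith
  obtain ⟨hE, hJ⟩ := each_fold (k := Reg.inp) (sv := .sv1) (f := fun _ : Sym X S r E =>
      .pop .cnt fun o => if o.isNone then
      .seq (.push .kk z0) (each .kk .sv0 fun _ => .push .cnt z0) else .skip) (by simp)
    (fun x => ⟨by simp, fun o => by
      simp only [av_ite]
      exact ⟨fun _ => ⟨by simp, av_each (by simp) (by simp) (by simp)⟩, fun _ => trivial⟩⟩)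
    (fun x => ⟨by simp, fun o => by
      simp only [av_ite]
      exact ⟨fun _ => ⟨by simp, av_each (by simp) (by simp) (by simp)⟩, fun _ => trivial⟩⟩)
    (s .inp) R (fun a _ => if a.2 = 0 then (a.1 + 1, a.1 + 1) else (a.1, a.2 - 1)) (0, 0)
    (fun i a => 2 * (i + a.2) = a.1 * (a.1 + 3) ∧ a.2 ≤ a.1) (5 * Nat.sqrt (2 * n) + 9)
    (by simp) (by
      rintro i hi ⟨k, c⟩ ⟨j1, j2⟩
      simp only at j1 j2
      have hk' := hsq i k c hi.le j1 j2
      by_cases hc0 : c = 0
      · subst hc0
        simp only [if_true]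
        refine ⟨⟨by nlinarith, le_rfl⟩, ?_⟩
        have hin := Ok.each (k := Reg.kk) (sv := .sv0)
          (f := fun _ : Sym X S r E => .push .cnt z0) (by simp) (by simp) (by simp)
          (List.replicate (k + 1) z0) (fun t => R (k + 1, t)) 1
          (fun t _ => (Ok.push _ _ _).eq (by
            funext j
            cases j <;> simp [R, List.replicate_succ]) le_rfl) (by simp [R]) (by simp [R, h0])
        have e : update (update (R (k, 0)) .cnt (R (k, 0) .cnt).tail) .kk
            (z0 :: (update (R (k, 0)) .cnt (R (k, 0) .cnt).tail) .kk) = R (k + 1, 0) := by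
          funext j
          cases j <;> simp [R, List.replicate_succ]
        refine (Ok.pop (by
          rw [if_pos (by simp [R])]
          exact Ok.seq (Ok.push _ _ _) (e ▸ hin))).eq (by simp) ?_
        simp; omega
      · simp only [if_neg hc0]
        refine ⟨⟨by have : i + 1 + (c - 1) = i + c := by omega
                    rw [this]; exact j1, by omega⟩, ?_⟩
        refine (Ok.pop (by
          rw [if_neg (by simp [R, hc0])]
          exact Ok.skip _)).eq ?_ (by omega)
        funext j
        cases j <;> simp [R]) (by simp [R]) (by simp [R, h1])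
  have e0 : R (0, 0) = s := by
    funext k
    cases k <;> simp [R, hk, hc]
  rw [e0] at hE
  generalize (s .inp).foldl (fun (a : ℕ × ℕ) _ =>
    if a.2 = 0 then (a.1 + 1, a.1 + 1) else (a.1, a.2 - 1)) (0, 0) = a at hE hJ
  obtain ⟨k, c⟩ := a
  obtain ⟨j1, j2⟩ := hJ
  simp only at j1 j2
  rw [← hn] at j1 hE
  have hs : Nat.sqrt (2 * n) < k + 2 := by
    rw [Nat.sqrt_lt]; nlinarith
  refine ⟨k, ?_, by omega, hsq n k c le_rfl j1 j2⟩
  refine (Ok.seq hE (Ok.seq (move_ok (by simp) _) (clear_ok _ _))).eq ?_ ?_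
  · funext j
    cases j <;> simp [R, hk, hc, hr]
  · simp [R]
    have : n * (5 * Nat.sqrt (2 * n) + 9 + 4) ≤ n * (5 * (k + 1) + 13) :=
      Nat.mul_le_mul_left _ (by omega)
    nlinarith

def rhoP (vs : List (X → ℤ)) : P X S r E := .seq sqrtP (seqL (vs.map rangeP))

theorem rhoP_ok (vs : List (X → ℤ)) (b : ℕ) (hb : ∀ v ∈ vs, ∀ x, (v x).natAbs ≤ b) (w : List X)
    (s : Stt X S r E) (hi : s .inp = w.map enc) (h0 : s .sv0 = []) (h1 : s .sv1 = [])
    (ha : s .a = []) (hb' : s .b = []) (hk : s .kk = []) (hc : s .cnt = []) (hr : s .rho = []) :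
    ∃ ρ, Ok (rhoP vs) s (update s .rho (List.replicate ρ z0))
      ((31 + vs.length * (5 * b + 6)) * (ρ + 1) * (w.length + 1)) ∧
      2 * w.length ≤ ρ * (ρ + 3) ∧
      ρ ≤ Nat.sqrt (2 * w.length) + (vs.map fun v => mx (-v) w + mx v w).sum ∧
      ∀ v ∈ vs, ∀ i, ((w.take i).map v).sum.natAbs ≤ ρ := by
  obtain ⟨k, o1, k1, k2⟩ := sqrtP_ok s h0 h1 hk hc hr
  have hl : (s .inp).length = w.length := by simp [hi]
  rw [hl] at o1 k1 k2
  have := Tri.seqL vs rangeP (fun i s' => ∃ ρ, s' = update s .rho (List.replicate ρ z0) ∧ k ≤ ρ ∧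
    ρ ≤ k + ((vs.take i).map fun v => mx (-v) w + mx v w).sum ∧
      ∀ v ∈ vs.take i, ∀ i, ((w.take i).map v).sum.natAbs ≤ ρ) ((5 * b + 6) * (w.length + 1)) ?_
      (update s .rho (List.replicate k z0)) ⟨k, rfl, le_rfl, by simp, by simp⟩
  · obtain ⟨s', t, r1, r2, ρ, rfl, a1, a2, a3⟩ := this
    rw [List.take_length] at a2 a3
    refine ⟨ρ, (Ok.seq o1 (show Ok _ _ _ _ from ⟨_, t, r1, r2, rfl⟩)).cost ?_, ?_, by omega, a3⟩
    · have e1 : 30 * (k + 1) * (w.length + 1) ≤ 30 * (ρ + 1) * (w.length + 1) := by gcongr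
      have e2 : vs.length * ((5 * b + 6) * (w.length + 1)) ≤
          vs.length * ((5 * b + 6) * ((ρ + 1) * (w.length + 1))) := by
        gcongr; nlinarith
      nlinarith
    · exact k1.trans (Nat.mul_le_mul a1 (by omega))
  · rintro i hi' s' ⟨ρ, rfl, a1, a2, a3⟩
    refine (rangeP_ok vs[i] b (hb _ (List.getElem_mem hi')) w _ (by simp [hi]) (by simp [h1])
      (by simp [ha]) (by simp [hb']) ρ (by simp)).tri ⟨_, by simp; rfl, by omega, ?_, ?_⟩
    · have := rng_up vs[i] w (0, 0)
      rw [← List.take_append_getElem hi', List.map_append, List.sum_append]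
      simp at this ⊢
      simp at a2
      omega
    · intro v hv j
      rw [← List.take_append_getElem hi', List.mem_append, List.mem_singleton] at hv
      rcases hv with hv | rfl
      · have := a3 v hv j; omega
      · have := (rng_low vs[i] w (0, 0) 0 (by simp) (by simp)).2 j
        rw [zero_add] at this
        omega

end Pool.Agent.H960Z.TM
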