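import Pool.Agent.H960Z.TM.Prim

/-! Registers, symbols, and the linear-time test for automata with integer counters. -/

set_option autoImplicit false

namespace Pool.Agent.H960Z.TM

open Function

section fold

variable {K Γ : Type} [DecidableEq K]

theorem each_fold {A : Type} {k sv : K} {f : Γ → Prog K Γ} (hne : k ≠ sv) (h1 : ∀ x, Av (f x) k)
    (h2 : ∀ x, Av (f x) sv) (L : List Γ) (R : A → St K Γ) (step : A → Γ → A) (a0 : A)
    (J : ℕ → A → Prop) (c : ℕ) (hJ : J 0 a0)
    (hstep : ∀ (i : ℕ) (hi : i < L.length) (a : A), J i a →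
      J (i + 1) (step a L[i]) ∧ Ok (f L[i]) (R a) (R (step a L[i])) c)
    (hk : R a0 k = L) (hs : R a0 sv = []) :
    Ok (each k sv f) (R a0) (R (L.foldl step a0)) (L.length * (c + 4) + 2) ∧
      J L.length (L.foldl step a0) := by
  have hs' : ∀ (i : ℕ) (hi : i < L.length),
      (L.take (i + 1)).foldl step a0 = step ((L.take i).foldl step a0) L[i] := by
    intro i hi
    rw [← List.take_append_getElem hi, List.foldl_append]
    rfl
  have hJ' : ∀ i, i ≤ L.length → J i ((L.take i).foldl step a0) := by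
    intro i
    induction i with
    | zero => intro _; simpa using hJ
    | succ i ih =>
      intro hi
      rw [hs' i hi]
      exact (hstep i hi _ (ih (by omega))).1
  refine ⟨?_, by simpa using hJ' L.length le_rfl⟩
  have := Ok.each hne h1 h2 L (fun i => R ((L.take i).foldl step a0)) c
    (fun i hi => by rw [hs' i hi]; exact (hstep i hi _ (hJ' i hi.le)).2) (by simpa using hk)
    (by simpa using hs)
  simpa using this

end fold

inductive Reg (r : ℕ) : Type
  | inp | sv0 | sv1 | car | st | a | b | bad | rho | cnt | kk | dr | sr | tmp | L | Q | Fr | nul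
  | F (e : Bool) | G (e : Bool) | rul (i : Fin (r + 2))
  deriving DecidableEq, Fintype

@[ext] structure Sym (X S : Type) (r E : ℕ) : Type where
  l : Option X
  s : S
  bit : Bool
  lsb : Bool
  ty : Fin (r + 1) → Fin (E + 1)
  c : Fin (E + 1)

instance {X S : Type} {r E : ℕ} [Finite X] [Finite S] : Finite (Sym X S r E) :=
  Finite.of_injective (fun x : Sym X S r E => (x.l, x.s, x.bit, x.lsb, x.ty, x.c)) (by
    intro x y h
    simp only [Prod.mk.injEq] at h
    obtain ⟨h1, h2, h3, h4, h5, h6⟩ := h
    exact Sym.ext h1 h2 h3 h4 h5 h6)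

variable {X S : Type} [Inhabited S] {r E : ℕ}

def z0 : Sym X S r E := ⟨none, default, false, false, 0, 0⟩

instance : Inhabited (Sym X S r E) := ⟨z0⟩

def mk (n : ℕ) : Sym X S r E := { (z0 : Sym X S r E) with c := ⟨min n E, by omega⟩ }

def rd (o : Option (Sym X S r E)) : ℕ := (o.getD z0).c

@[simp] theorem rd_mk (n : ℕ) : rd (some (mk n : Sym X S r E)) = min n E := rfl

def sS (s : S) : Sym X S r E := { (z0 : Sym X S r E) with s := s }

def rdS (o : Option (Sym X S r E)) : S := (o.getD z0).s

@[simp] theorem rdS_sS (s : S) : rdS (some (sS s : Sym X S r E)) = s := rfl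

def enc (x : X) : Sym X S r E := { (z0 : Sym X S r E) with l := some x }

@[simp] theorem enc_l (x : X) : (enc x : Sym X S r E).l = some x := rfl

theorem enc_inj : Injective (enc : X → Sym X S r E) := by
  intro x y h
  have := congrArg Sym.l h
  simpa using this

abbrev P (X S : Type) (r E : ℕ) := Prog (Reg r) (Sym X S r E)
abbrev Stt (X S : Type) (r E : ℕ) := St (Reg r) (Sym X S r E)

/-- compare the lengths of `a` and `b` -/
def cmpAB : P X S r E :=
  .seq (each .a .sv0 fun _ => .pop .b fun o => if o.isNone then .push .bad z0 else .skip)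
    (.seq (clear .a) (move .b .bad))

theorem cmpAB_ok (s : Stt X S r E) (h : s .sv0 = []) :
    ∃ l, Ok cmpAB s (update (update (update s .a []) .b []) .bad (l ++ s .bad))
      (8 * (s .a).length + 2 * (s .b).length + 4) ∧ (l = [] ↔ (s .a).length = (s .b).length) := by
  let S : ℕ → Stt X S r E := fun i => update (update s .b ((s .b).drop i)) .bad
    (List.replicate (i - (s .b).length) z0 ++ s .bad)
  have h0 : s = S 0 := by simp [S]
  have hE := Ok.each (k := Reg.a) (sv := .sv0)
    (f := fun _ => .pop .b fun o => if o.isNone then .push .bad z0 else .skip) (by simp)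
    (by simp) (by simp) (s .a) S 2 ?_ (by simp [S]) (by simp [S, h])
  · refine ⟨((s .b).drop (s .a).length).reverse ++
      List.replicate ((s .a).length - (s .b).length) z0, ?_, ?_⟩
    · rw [← h0] at hE
      refine (Ok.seq hE (Ok.seq (clear_ok _ _) (move_ok (by simp) _))).eq ?_ ?_
      · funext k
        cases k <;> simp [S]
      · simp [S]; omega
    · simp; omega
  · intro i hi
    refine Ok.pop ?_
    have e : (S i .b).head? = (s .b)[i]? := by simp [S]
    rw [e]
    by_cases hb : i < (s .b).length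
    · rw [if_neg (by simp [hb])]
      refine (Ok.skip _).eq ?_ le_rfl
      funext k
      have e1 : i + 1 - (s .b).length = 0 := by omega
      have e2 : i - (s .b).length = 0 := by omega
      cases k <;> simp [S, e1, e2]
    · rw [if_pos (by simpa using hb)]
      refine (Ok.push _ _ _).eq ?_ le_rfl
      funext k
      have e1 : i + 1 - (s .b).length = (i - (s .b).length) + 1 := by omega
      cases k <;> simp [S, e1, List.replicate_succ]

section auto

variable (δ : S → X → S) (s0 : S) (acc : S → Prop) [DecidablePred acc]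

/-- total output of an automaton -/
def tot (u : S → X → ℤ) : S → List X → ℤ
  | _, [] => 0
  | s, x :: w => u s x + tot u (δ s x) w

def olift {Y : Type} (f : X → Y) (d : Y) : Option X → Y
  | none => d
  | some x => f x

/-- one run of the automaton with one counter -/
def run1 (u : S → X → ℤ) : P X S r E :=
  .seq (.push .st (sS s0)) (.seq
    (each .inp .sv1 fun x => .pop .st fun o =>
      .seq (.push .st (sS (olift (δ (rdS o)) default x.l)))
        (.seq (rep (olift (u (rdS o)) 0 x.l).toNat (.push .a z0))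
          (rep (-olift (u (rdS o)) 0 x.l).toNat (.push .b z0))))
    (.seq cmpAB (.pop .st fun o => if acc (rdS o) then .skip else .push .bad z0)))

theorem fold_aux (u : S → X → ℤ) (b : ℕ) (hb : ∀ s x, (u s x).natAbs ≤ b) (w : List X) :
    ∀ (s : S) (p q : ℕ), ∃ p' q' : ℕ, (w.map (enc : X → Sym X S r E)).foldl
      (fun (a : S × ℕ × ℕ) x => (olift (δ a.1) default x.l,
        a.2.1 + (olift (u a.1) 0 x.l).toNat, a.2.2 + (-olift (u a.1) 0 x.l).toNat)) (s, p, q) =
      (w.foldl δ s, p + p', q + q') ∧ (p' : ℤ) - q' = tot δ u s w ∧ p' ≤ b * w.length ∧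
        q' ≤ b * w.length := by
  induction w with
  | nil => intro s p q; exact ⟨0, 0, by simp, by simp [tot], by simp, by simp⟩
  | cons x w ih =>
    intro s p q
    obtain ⟨p', q', h1, h2, h3, h4⟩ := ih (δ s x) (p + (u s x).toNat) (q + (-u s x).toNat)
    refine ⟨(u s x).toNat + p', (-u s x).toNat + q', ?_, ?_, ?_, ?_⟩
    · simp only [List.map_cons, List.foldl_cons, enc_l, olift]
      simp only [olift] at h1
      rw [h1]; simp [add_assoc]
    · simp only [tot]; push_cast; omega
    · have := hb s x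
      simp only [List.length_cons, mul_add]; omega
    · have := hb s x
      simp only [List.length_cons, mul_add]; omega

theorem run1_ok (u : S → X → ℤ) (b : ℕ) (hb : ∀ s x, (u s x).natAbs ≤ b) (w : List X)
    (s : Stt X S r E) (hi : s .inp = w.map enc) (h0 : s .sv0 = []) (h1 : s .sv1 = [])
    (ha : s .a = []) (hb' : s .b = []) :
    ∃ l, Ok (run1 δ s0 acc u) s (update s .bad (l ++ s .bad)) ((12 * b + 10) * (w.length + 1)) ∧
      (l = [] ↔ tot δ u s0 w = 0 ∧ acc (w.foldl δ s0)) := by
  let R : S × ℕ × ℕ → Stt X S r E := fun a => update (update (update s .st (sS a.1 :: s .st)) .a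
    (List.replicate a.2.1 z0)) .b (List.replicate a.2.2 z0)
  have hb2 : ∀ s (o : Option X), (olift (u s) 0 o).natAbs ≤ b := by
    intro s o; cases o
    · simp [olift]
    · exact hb _ _
  obtain ⟨hE, -⟩ := each_fold (k := Reg.inp) (sv := .sv1) (f := fun x => .pop .st fun o =>
      .seq (.push .st (sS (olift (δ (rdS o)) default x.l)))
        (.seq (rep (olift (u (rdS o)) 0 x.l).toNat (.push .a z0))
          (rep (-olift (u (rdS o)) 0 x.l).toNat (.push .b z0)))) (by simp)
    (fun x => ⟨by simp, fun o => ⟨by simp, av_rep _ _ _ (by simp), av_rep _ _ _ (by simp)⟩⟩)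
    (fun x => ⟨by simp, fun o => ⟨by simp, av_rep _ _ _ (by simp), av_rep _ _ _ (by simp)⟩⟩)
    (w.map enc) R (fun (a : S × ℕ × ℕ) x => (olift (δ a.1) default x.l,
        a.2.1 + (olift (u a.1) 0 x.l).toNat, a.2.2 + (-olift (u a.1) 0 x.l).toNat)) (s0, 0, 0)
    (fun _ _ => True) (2 * b + 4) trivial (by
      intro i hi a _
      refine ⟨trivial, ?_⟩
      have e : rdS (R a .st).head? = a.1 := by simp [R]
      refine (Ok.pop (by
        rw [e]
        exact Ok.seq (Ok.push _ _ _) (Ok.seq (pushN_ok _ _ _ _) (pushN_ok _ _ _ _)))).eq ?_ ?_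
      · funext k
        cases k <;> simp [R, add_comm]
      · have := hb2 a.1 ((w.map (enc : X → Sym X S r E))[i]).l
        omega) (by simp [R, hi]) (by simp [R, h1])
  obtain ⟨p', q', e1, e2, e3, e4⟩ := fold_aux (r := r) (E := E) δ u b hb w s0 0 0
  rw [e1] at hE
  obtain ⟨l, hC, hl⟩ := cmpAB_ok (R (w.foldl δ s0, 0 + p', 0 + q')) (by simp [R, h0])
  have e0 : update s .st (sS s0 :: s .st) = R (s0, 0, 0) := by
    funext k
    cases k <;> simp [R, ha, hb']
  have hlen : l = [] ↔ tot δ u s0 w = 0 := by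
    rw [hl]; simp [R]; omega
  by_cases hacc : acc (w.foldl δ s0)
  · refine ⟨l, ?_, by simp [hacc, hlen]⟩
    refine (Ok.seq (Ok.push _ _ _) (e0 ▸ Ok.seq hE (Ok.seq hC (Ok.pop (by
      rw [if_pos (by simpa [R] using hacc)]
      exact Ok.skip _))))).eq ?_ ?_
    · funext k
      cases k <;> simp [R, ha, hb']
    · simp [R]; nlinarith
  · refine ⟨z0 :: l, ?_, by simp [hacc]⟩
    refine (Ok.seq (Ok.push _ _ _) (e0 ▸ Ok.seq hE (Ok.seq hC (Ok.pop (by
      rw [if_neg (by simpa [R] using hacc)]
      exact Ok.push _ _ _))))).eq ?_ ?_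
    · funext k
      cases k <;> simp [R, ha, hb']
    · simp [R]; nlinarith

/-- runs for a list of counters -/
def stage1 (us : List (S → X → ℤ)) : P X S r E := seqL (((0 : S → X → ℤ) :: us).map (run1 δ s0 acc))

theorem tot_zero (w : List X) : ∀ s, tot δ 0 s w = 0 := by
  induction w with
  | nil => intro s; rfl
  | cons x w ih => intro s; simp [tot, ih]

theorem stage1_ok (us : List (S → X → ℤ)) (b : ℕ) (hb : ∀ u ∈ us, ∀ s x, (u s x).natAbs ≤ b)
    (w : List X) (s : Stt X S r E) (hi : s .inp = w.map enc) (h0 : s .sv0 = []) (h1 : s .sv1 = [])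
    (ha : s .a = []) (hb' : s .b = []) :
    ∃ l, Ok (stage1 δ s0 acc us) s (update s .bad (l ++ s .bad))
      ((us.length + 1) * ((12 * b + 10) * (w.length + 1)) + 1) ∧
      (l = [] ↔ (∀ u ∈ us, tot δ u s0 w = 0) ∧ acc (w.foldl δ s0)) := by
  have := Tri.seqL ((0 : S → X → ℤ) :: us) (run1 δ s0 acc) (fun i s' => ∃ l,
    s' = update s .bad (l ++ s .bad) ∧ (l = [] ↔ ∀ u ∈ ((0 : S → X → ℤ) :: us).take i,
      tot δ u s0 w = 0 ∧ acc (w.foldl δ s0))) ((12 * b + 10) * (w.length + 1)) ?_ s
      ⟨[], by simp, by simp⟩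
  · obtain ⟨s', t, r1, r2, l, rfl, hl⟩ := this
    refine ⟨l, ⟨_, t, r1, r2, rfl⟩, ?_⟩
    rw [hl, List.take_length]
    simp only [List.mem_cons, forall_eq_or_imp, tot_zero, true_and]
    constructor
    · rintro ⟨h1, h2⟩
      exact ⟨fun u hu => (h2 u hu).1, h1⟩
    · rintro ⟨h1, h2⟩
      exact ⟨h2, fun u hu => ⟨h1 u hu, h2⟩⟩
  · rintro i hi' s' ⟨l, rfl, hl⟩
    obtain ⟨l', o1, o2⟩ := run1_ok δ s0 acc ((0 : S → X → ℤ) :: us)[i] b (by
      rcases List.mem_cons.1 (List.getElem_mem hi') with h | h
      · rw [h]; simp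
      · exact hb _ h) w (update s .bad (l ++ s .bad)) (by simp [hi]) (by simp [h0]) (by simp [h1])
      (by simp [ha]) (by simp [hb'])
    refine o1.tri ⟨l' ++ l, by simp, ?_⟩
    rw [← List.take_append_getElem hi', List.append_eq_nil_iff, hl, o2]
    simp only [List.mem_append, List.mem_singleton]
    constructor
    · rintro ⟨h1, h2⟩ u (hu | rfl)
      · exact h2 u hu
      · exact h1
    · intro h
      exact ⟨h _ (Or.inr rfl), fun u hu => h u (Or.inl hu)⟩

end auto

end Pool.Agent.H960Z.TM
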