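import Pool.Agent.H960Z.TM.Red
import Pool.Agent.H960Z.TM.Fox

/-! The second stage: membership of the Fox vector of a closed word. -/

set_option autoImplicit false

namespace Pool.Agent.H960Z.TM

open Function

variable {X T : Type} [AddCommGroup T] {r : ℕ}

def vP (p : X → (Fin r → ℤ) × T) (x : X) : Fin (r + 1) → ℕ :=
  Fin.cons 0 fun i => ((p x).1 i).toNat

def vM (p : X → (Fin r → ℤ) × T) (x : X) : Fin (r + 1) → ℕ :=
  Fin.cons 0 fun i => (-(p x).1 i).toNat

def psi (dec : ℕ → T × X) (u : Fin (r + 1) → ℕ) : ((Fin r → ℤ) × T) × X :=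
  ((fun i => (u i.succ : ℤ), (dec (u 0)).1), (dec (u 0)).2)

theorem fill_spec (p : X → (Fin r → ℤ) × T) (jj : T → X → ℕ) (dec : ℕ → T × X)
    (hdec : ∀ t x, dec (jj t x) = (t, x)) (s R : ℕ) (hj : ∀ t x, jj t x < s) (w : List X) :
    ∀ (t : T) (u : Fin (r + 1) → ℕ) (H : (Fin (r + 1) → ℕ) → ℕ), u 0 = 0 →
      (∀ k (i : Fin r), 0 ≤ (u i.succ : ℤ) + ((w.take k).map fun x => (p x).1 i).sum ∧
        (u i.succ : ℤ) + ((w.take k).map fun x => (p x).1 i).sum ≤ R) →
      ∃ f0 : (Fin (r + 1) → ℕ) →₀ ℤ,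
        (∀ v, ((w.foldl (fillS (fun t x => t + (p x).2) jj (vP p) (vM p)) (t, u, H)).2.2 v : ℤ) =
          H v + f0 v) ∧
        f0.mapDomain (psi dec) = fox p (fun i => (u i.succ : ℤ), t) w ∧
        (∀ v, f0 v ≠ 0 → v 0 < s ∧ ∀ i : Fin r, v i.succ ≤ R) ∧ ∀ v, f0 v ≤ w.length := by
  induction w with
  | nil => intro t u H _ _; exact ⟨0, by simp, by simp [fox], by simp, by simp⟩
  | cons x w ih =>
    intro t u H h0 hk
    have e1 : ∀ i : Fin r, ((u + vP p x - vM p x) i.succ : ℤ) = u i.succ + (p x).1 i := by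
      intro i
      have := (hk 1 i).1
      simp only [List.take_succ_cons, List.take_zero, List.map_cons, List.map_nil, List.sum_cons,
        List.sum_nil, add_zero] at this
      simp only [Pi.sub_apply, Pi.add_apply, vP, vM, Fin.cons_succ]
      omega
    obtain ⟨f1, a1, a2, a3, a4⟩ := ih (t + (p x).2) (u + vP p x - vM p x)
      (update H (u + e0 r (jj t x)) (H (u + e0 r (jj t x)) + 1)) (by simp [h0, vP, vM]) (by
        intro k i
        have := hk (k + 1) i
        simp only [List.take_succ_cons, List.map_cons, List.sum_cons] at this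
        rw [e1, add_assoc]
        exact this)
    refine ⟨Finsupp.single (u + e0 r (jj t x)) 1 + f1, fun v => ?_, ?_, fun v hv => ?_, fun v => ?_⟩
    · rw [List.foldl_cons]
      refine (a1 v).trans ?_
      by_cases h : v = u + e0 r (jj t x)
      · subst h; simp; ring
      · simp [update_of_ne h, Finsupp.single_eq_of_ne h]
    · rw [Finsupp.mapDomain_add, Finsupp.mapDomain_single, a2, fox]
      congr 2
      · simp [psi, e0, h0, hdec]
      · exact Prod.ext (funext fun i => e1 i) rfl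
    · by_cases h : f1 v = 0
      · have h' : v = u + e0 r (jj t x) := by
          by_contra h'
          simp [h, Finsupp.single_eq_of_ne h'] at hv
        subst h'
        refine ⟨by simp [e0, h0, hj], fun i => ?_⟩
        have := (hk 0 i).2
        simp [e0] at this ⊢
        exact this
      · exact a3 v h
    · have := a4 v
      have h2 : Finsupp.single (u + e0 r (jj t x)) (1 : ℤ) v ≤ 1 := by
        rw [Finsupp.single_apply]; split_ifs <;> norm_num
      simp only [Finsupp.add_apply, List.length_cons]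
      push_cast
      omega

theorem ar1 {cW b ρ : ℕ} : cW * (ρ + 1) + 4 * ρ + b + 4 ≤ (cW + b + 4) * (ρ + 1) := by nlinarith

theorem ar2 {n ρ : ℕ} (h : 2 * n ≤ ρ * (ρ + 3)) : n + 1 ≤ 5 * (ρ + 1) ^ 2 := by nlinarith

theorem ar3 {n ρ D : ℕ} (h : n + 1 ≤ 5 * (ρ + 1) ^ 2) (h' : ρ + 1 ≤ D) : n + ρ + 1 ≤ 6 * D ^ 2 := by
  have : (ρ + 1) ^ 2 ≤ D ^ 2 := by gcongr
  nlinarith

theorem ar4 {n ρ D L : ℕ} (h : 2 * n ≤ ρ * (ρ + 3)) (h' : 4 * ρ + 4 ≤ D) :
    (L + 1) ^ D * n < 2 ^ ((L + 2) * D + 1) := by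
  have h1 : (L + 1) ^ D ≤ 2 ^ ((L + 1) * D) := by
    rw [pow_mul]
    exact Nat.pow_le_pow_left (Nat.lt_two_pow_self).le _
  have h2 : n < 2 ^ D := by
    have h3 : ρ + 2 < 2 ^ (ρ + 2) := Nat.lt_two_pow_self
    have h4 : 2 ^ (ρ + 2) * 2 ^ (ρ + 2) ≤ 2 ^ D := by
      rw [← pow_add]; exact Nat.pow_le_pow_right (by omega) (by omega)
    nlinarith
  calc (L + 1) ^ D * n ≤ 2 ^ ((L + 1) * D) * n := by gcongr
    _ < 2 ^ ((L + 1) * D) * 2 ^ D := by gcongr
    _ ≤ 2 ^ ((L + 2) * D + 1) := by
      rw [← pow_add]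
      exact Nat.pow_le_pow_right (by omega) (by nlinarith)

theorem ar5 {s r ρ a b : ℕ} (h1 : a < s) (h2 : b ≤ r * (2 * ρ)) : a + b ≤ (s + 2 * r) * (ρ + 1) := by
  nlinarith

theorem ar6 {s D cB : ℕ} (hD : 0 < D) (j : ℕ) :
    (cB * D + 1) * len s D (j + 1) ≤ (cB + 1) * s * D ^ (j + 1) := by
  rw [len_succ_eq, pow_succ]
  have : cB * D + 1 ≤ (cB + 1) * D := by nlinarith
  calc (cB * D + 1) * (s * D ^ j) ≤ (cB + 1) * D * (s * D ^ j) := by gcongr
    _ = _ := by ring

theorem ar7 {n ρ D a M M' c r : ℕ} (h3 : n + ρ + 1 ≤ 6 * D ^ 2) (h1 : M ≤ c * D ^ r)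
    (h2 : M' ≤ c * D ^ (r + 2)) :
    (n + ρ + 1) * (a * M) + 2 * M' ≤ (6 * (a * c) + 2 * c) * D ^ (r + 2) := by
  calc _ ≤ 6 * D ^ 2 * (a * (c * D ^ r)) + 2 * (c * D ^ (r + 2)) := by gcongr
    _ = _ := by ring

theorem ar8 {D a M c r : ℕ} (h1 : M ≤ c * D ^ (r + 1)) : a * D * M ≤ a * c * D ^ (r + 2) := by
  calc _ ≤ a * D * (c * D ^ (r + 1)) := by gcongr
    _ = _ := by ring

theorem ar9 {n ρ D a r : ℕ} (h : n + 1 ≤ 5 * (ρ + 1) ^ 2) (h' : ρ + 1 ≤ D) (hr : 1 ≤ r) :
    a * (ρ + 1) * (n + 1) ≤ 5 * a * D ^ (r + 2) := by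
  calc _ ≤ a * D * (5 * D ^ 2) := by gcongr; exact h.trans (by gcongr)
    _ = 5 * a * D ^ 3 := by ring
    _ ≤ _ := Nat.mul_le_mul_left _ (Nat.pow_le_pow_right (by omega) (by omega))

theorem ar10 {D a M c r : ℕ} (hD : 0 < D) (h1 : M ≤ c * D ^ (r + 2)) :
    a * M + 20 * D ≤ (a * c + 20) * D ^ (r + 2) := by
  have h4 : D ^ 1 ≤ D ^ (r + 2) := Nat.pow_le_pow_right hD (by omega)
  calc _ ≤ a * (c * D ^ (r + 2)) + 20 * D ^ (r + 2) := by gcongr; simpa using h4
    _ = _ := by ring

theorem stage2 [Fintype X] [Fintype T] [Nonempty X] [Inhabited T] (hr : 1 ≤ r)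
    (p : X → (Fin r → ℤ) × T) (N : AddSubgroup (((Fin r → ℤ) × T) × X →₀ ℤ))
    (hN : ∀ f ∈ N, ∀ c, f.mapDomain (fun y => (y.1 + c, y.2)) ∈ N) :
    ∃ (E : ℕ) (Q : P X T r E) (C : ℕ), ∀ w : List X, ∃ ρ : ℕ,
      ρ ≤ Nat.sqrt (2 * w.length) +
        ∑ i : Fin r, (mx (-fun x => (p x).1 i) w + mx (fun x => (p x).1 i) w) ∧
      Tri Q (update (fun _ => []) .inp (w.map enc))
        (fun s => s .bad = [] ↔ fox p (fun _ => (ρ : ℤ), 0) w ∈ N) (C * (ρ + 1) ^ (r + 2)) := by
  classical
  set s := Fintype.card (T × X) with hs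
  have hs0 : 0 < s := Fintype.card_pos
  let jj : T → X → ℕ := fun t x => Fintype.equivFin (T × X) (t, x)
  have hj : ∀ t x, jj t x < s := fun t x => Fin.is_lt _
  let dec : ℕ → T × X := fun n => if h : n < s then (Fintype.equivFin (T × X)).symm ⟨n, h⟩
    else (0, Classical.arbitrary X)
  have hdec : ∀ t x, dec (jj t x) = (t, x) := by
    intro t x
    simp only [dec, dif_pos (hj t x), jj, Fin.eta, Equiv.symm_apply_apply]
  let N' : AddSubgroup ((Fin (r + 1) → ℕ) →₀ ℤ) :=
    { carrier := {f | (∀ u, f u ≠ 0 → u 0 < s) ∧ f.mapDomain (psi dec) ∈ N}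
      add_mem' := by
        rintro f g ⟨h1, h2⟩ ⟨h3, h4⟩
        refine ⟨fun u hu => ?_, by rw [Finsupp.mapDomain_add]; exact N.add_mem h2 h4⟩
        by_cases h : f u = 0
        · exact h3 u (by simpa [h] using hu)
        · exact h1 u h
      zero_mem' := ⟨by simp, by simp⟩
      neg_mem' := by
        rintro f ⟨h1, h2⟩
        refine ⟨fun u hu => h1 u (by simpa using hu), ?_⟩
        have := (Finsupp.mapDomain.addMonoidHom (M := ℤ) (psi (r := r) dec)).map_neg f
        simp only [Finsupp.mapDomain.addMonoidHom_apply] at this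
        rw [this]; exact N.neg_mem h2 }
  obtain ⟨E, K, b2, rules, hE, hK, hrules, hmain⟩ := red_main hs0 N' (fun f hf => hf.1) (by
    rintro f ⟨h1, h2⟩ b hb
    refine ⟨fun u hu => ?_, ?_⟩
    · obtain ⟨v, hv, rfl⟩ := sh_ne hu
      simpa [hb] using h1 v hv
    · have := hN _ h2 (fun i => (b i.succ : ℤ), 0)
      rw [← Finsupp.mapDomain_comp] at this
      rw [sh, ← Finsupp.mapDomain_comp]
      convert this using 2
      funext u
      simp [psi, hb]
      rfl)
  set b := Finset.univ.sup fun y : X × Fin r => ((p y.1).1 y.2).natAbs with hb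
  have hb' : ∀ i x, ((p x).1 i).natAbs ≤ b := fun i x =>
    Finset.le_sup (f := fun y : X × Fin r => ((p y.1).1 y.2).natAbs) (Finset.mem_univ (x, i))
  set cW := (s + 2 * r) * len s K r with hcW
  set cD := cW + b + 4 with hcD
  set cB := rules.length + 2 with hcB
  let vs : List (X → ℤ) := List.ofFn fun (i : Fin r) x => (p x).1 i
  set c1 := 5 * (31 + r * (5 * b + 6)) with hc1
  set c2 := (30 * r + 100) * ((cB + 1) * s) + 20 with hc2
  set c3 := 6 * (60 * (r + 2) * (s + r * b + r + 2) * ((cB + 1) * s)) + 2 * ((cB + 1) * s) with hc3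
  set c4 := (60 * (r + 2) * (b2 + 1) * rules.length + 80) * ((cB + 1) * s) with hc4
  refine ⟨E, .seq (rhoP vs) (.seq (setupP s cD cB) (.seq
    (fillP (fun t x => t + (p x).2) 0 jj (vP p) (vM p)) (redP rules))),
    (c1 + c2 + c3 + c4) * cD ^ (r + 2), fun w => ?_⟩
  obtain ⟨ρ, o1, r1, r2, r3⟩ := rhoP_ok (S := T) (r := r) (E := E) vs b (by
    intro v hv x
    obtain ⟨i, rfl⟩ := List.mem_ofFn.1 hv
    exact hb' i x) w (update (fun _ => []) .inp (w.map enc)) (by simp) (by simp) (by simp) (by simp)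
    (by simp) (by simp) (by simp) (by simp)
  refine ⟨ρ, ?_, ?_⟩
  · refine r2.trans (le_of_eq ?_)
    simp [vs, List.map_ofFn, List.sum_ofFn]
  have r4 : ∀ (i : Fin r) k, ((w.take k).map fun x => (p x).1 i).sum.natAbs ≤ ρ :=
    fun i k => r3 _ (List.mem_ofFn.2 ⟨i, rfl⟩) k
  set D := cD * (ρ + 1) with hD
  set B := cB * D + 1 with hB
  have hD1 : cW * (ρ + 1) + 4 * ρ + b + 4 ≤ D := ar1
  have hD0 : 0 < D := by omega
  have hB0 : 0 < B := by omega
  have o2 := setupP_ok (cB := cB) hs0 (show 0 < cD by omega) ρ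
    (update (update (fun _ => []) .inp (w.map (enc : X → Sym X T r E))) .rho (List.replicate ρ z0))
    (by simp) (by simp) (by simp) (by simp) (by simp) (by simp) (by simp) (by simp) (by simp)
    D B hD hB
  obtain ⟨f0, a1, a2, a3, a4⟩ := fill_spec p jj dec hdec s (2 * ρ) hj w 0 (ρ • one' r) 0
    (by simp [one']) (by
      intro k i
      have := r4 i k
      simp only [one', Pi.smul_apply, Fin.succ_ne_zero, if_false, smul_eq_mul, mul_one]
      omega)
  set H := (w.foldl (fillS (fun t x => t + (p x).2) jj (vP p) (vM p)) (0, ρ • one' r, 0)).2.2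
    with hH
  simp only [Pi.zero_apply, Nat.cast_zero, zero_add] at a1
  have e2 : (fun i : Fin r => ((ρ • one' r) i.succ : ℤ)) = fun _ => (ρ : ℤ) := by
    funext i; simp [one']
  rw [e2] at a2
  let HH : Bool → (Fin (r + 1) → ℕ) → ℕ := fun e => if e then H else 0
  have hsupp : Supp s K (cW * (ρ + 1)) HH := by
    intro e u hu
    cases e
    · simp [HH] at hu
    · have : f0 u ≠ 0 := by rw [← a1]; simpa [HH] using hu
      obtain ⟨b1, b2⟩ := a3 u this
      refine ⟨b1, (idx_le hs0 hK u (le_refl (r + 1))).trans ?_⟩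
      have : ∑ t, u t ≤ (s + 2 * r) * (ρ + 1) := by
        rw [Fin.sum_univ_succ]
        have := Finset.sum_le_card_nsmul Finset.univ (fun i : Fin r => u i.succ) (2 * ρ)
          fun i _ => b2 i
        simp only [Finset.card_univ, Fintype.card_fin, smul_eq_mul] at this
        exact ar5 b1 this
      rw [hcW, mul_right_comm]
      exact Nat.mul_le_mul_right _ this
  have hfin := hmain (cW * (ρ + 1)) D (by omega) HH hsupp f0 (by simp [HH, a1])
    (fun e k => HH e (dig s D (r + 1) k)) (fun _ _ _ => rfl)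
  have hn : w.length + 1 ≤ 5 * (ρ + 1) ^ 2 := ar2 r1
  have hBl : ∀ j, B * len s D (j + 1) ≤ (cB + 1) * s * D ^ (j + 1) := ar6 hD0
  have hpw : ∀ j, j ≤ r + 2 → D ^ j ≤ D ^ (r + 2) := fun j hj => Nat.pow_le_pow_right hD0 hj
  refine (o1.then (Tri.seq' (b := c3 * D ^ (r + 2) + c4 * D ^ (r + 2)) o2 ?_)).cost ?_
  · rintro s2 ⟨hS, hdr, hF, hk⟩
    have o3 := fillP_ok (fun t x => t + (p x).2) 0 jj (vP p) (vM p) hs0 hD0 hB0 hE (r * b) hj
      (fun x => ⟨rfl, by
        rw [Fin.sum_univ_succ]
        have := Finset.sum_le_card_nsmul Finset.univ (fun i : Fin r => vP p x i.succ) b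
          fun i _ => by have := hb' i x; simp only [vP, Fin.cons_succ]; omega
        simpa [vP] using this⟩)
      (fun x => by
        rw [Fin.sum_univ_succ]
        have := Finset.sum_le_card_nsmul Finset.univ (fun i : Fin r => vM p x i.succ) b
          fun i _ => by have := hb' i x; simp only [vM, Fin.cons_succ]; omega
        simpa [vM] using this) w ρ
      (fun k => Fin.cons 0 fun i => ((ρ : ℤ) + ((w.take k).map fun x => (p x).1 i).sum).toNat)
      (by
        funext t
        refine Fin.cases ?_ (fun i => ?_) t <;> simp [one'])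
      (by
        intro t
        refine Fin.cases ?_ (fun i => ?_) t
        · simpa [side] using hs0
        · simp [side]; omega)
      (by
        intro k hk
        have e : ∀ i : Fin r, ((w.take (k + 1)).map fun x => (p x).1 i).sum =
            ((w.take k).map fun x => (p x).1 i).sum + (p w[k]).1 i := by
          intro i
          rw [← List.take_append_getElem hk, List.map_append, List.sum_append]
          simp
        refine ⟨?_, rfl, ?_, ?_⟩
        · funext t
          refine Fin.cases ?_ (fun i => ?_) t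
          · simp [vP, vM]
          · have h1 := r4 i k
            have h2 := r4 i (k + 1)
            rw [e] at h2
            simp only [Fin.cons_succ, Pi.sub_apply, Pi.add_apply, vP, vM, e]
            omega
        · intro t
          refine Fin.cases ?_ (fun i => ?_) t
          · simpa [side, vP] using hs0
          · have h1 := r4 i k
            have h2 := hb' i w[k]
            simp only [Fin.cons_succ, Pi.add_apply, vP, side, Fin.val_succ, Nat.add_one_ne_zero,
              if_false]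
            omega
        · intro t
          refine Fin.cases ?_ (fun i => ?_) t
          · simp [vM]
          · have h1 := r4 i k
            have h2 := r4 i (k + 1)
            rw [e] at h2
            simp only [Fin.cons_succ, Pi.add_apply, vP, vM]
            omega) s2 hS (by rw [hk _ (by simp) (by simp) (by simp) (by simp)]; simp)
      (by rw [hk _ (by simp) (by simp) (by simp) (by simp)]; simp)
      (by rw [hk _ (by simp) (by simp) (by simp) (by simp)]; simp)
      (by rw [hk _ (by simp) (by simp) (by simp) (by simp)]; simp) (hF true)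
    have o4 := redP_ok hs0 hD0 hB0 rules b2 hrules s2 hS
      (by rw [hk _ (by simp) (by simp) (by simp) (by simp)]; simp)
      (by rw [hk _ (by simp) (by simp) (by simp) (by simp)]; simp)
      (fun e => by rw [hk _ (by simp) (by simp) (by simp) (by simp)]; simp)
      (by rw [hk _ (by simp) (by simp) (by simp) (by simp)]; simp)
      (by rw [hk _ (by simp) (by simp) (by simp) (by simp)]; simp) hdr
      (fun e k => HH e (dig s D (r + 1) k)) w.length (by
        intro e k
        cases e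
        · simp [HH]
        · have h1 := a4 (dig s D (r + 1) k)
          rw [← a1] at h1
          simpa [HH] using h1) (ar4 r1 (by omega))
    have e3 : update s2 (.F true) (arr s D B (r + 1) fun k => H (dig s D (r + 1) k)) =
        FF s2 s D B (fun e k => HH e (dig s D (r + 1) k)) := by
      unfold FF
      rw [eq_comm, update_eq_iff]
      refine ⟨?_, fun _ _ => rfl⟩
      simp [hF, HH]
    rw [← hH, e3] at o3
    refine (o3.then o4).mono ?_ ?_
    · intro s' h
      rw [h, hfin, ← a2]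
      exact ⟨fun h => h.2, fun h => ⟨fun u hu => (a3 u hu).1, h⟩⟩
    · apply add_le_add
      · refine ar7 (ar3 hn (by omega)) ?_ ((hBl r).trans (Nat.mul_le_mul_left _ (hpw _ (by omega))))
        have := hBl (r - 1)
        rwa [Nat.sub_add_cancel hr] at this
      · exact ar8 (hBl r)
  · have h1 : (31 + vs.length * (5 * b + 6)) * (ρ + 1) * (w.length + 1) ≤ c1 * D ^ (r + 2) := by
      have : vs.length = r := by simp [vs]
      rw [this]
      exact ar9 hn (by omega) hr
    have h2 : (30 * r + 100) * (B * len s D (r + 1)) + 20 * D ≤ c2 * D ^ (r + 2) :=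
      ar10 hD0 ((hBl r).trans (Nat.mul_le_mul_left _ (hpw _ (by omega))))
    have h3 : (c1 + c2 + c3 + c4) * cD ^ (r + 2) * (ρ + 1) ^ (r + 2) =
        c1 * D ^ (r + 2) + (c2 * D ^ (r + 2) + (c3 * D ^ (r + 2) + c4 * D ^ (r + 2))) := by
      rw [mul_assoc, ← mul_pow, ← hD, add_mul, add_mul, add_mul, add_assoc, add_assoc]
    rw [h3]
    exact add_le_add h1 (add_le_add h2 le_rfl)

end Pool.Agent.H960Z.TM
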